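import Pool.Agent.MP_34a893_an.MI.Fin

-- ======== part 0: formerly Pool.Agent.MP_34a893_an.MI.Basic
section MrgPart0

/-! Facts on `GG`, on the far field `tail` and on the `p`-masses. -/

open MeasureTheory Set Filter Topology Function

namespace MI34

theorem KFacts.le_one (hK : KFacts) (d : ℝ) : kk d ≤ 1 := by
  rcases le_total d 1 with h | h
  · rw [hK.one d h]
  · rw [← hK.one 1 le_rfl]; exact hK.anti h

theorem KFacts.cont (hK : KFacts) : Continuous kk := hK.cd.continuous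

theorem GG_eq (j : ℕ) (ξ : ℝ) : GG j ξ = 2 * mP j * ∫ u in (-ξ)..(1 / 4 - ξ), kk u := by
  unfold GG; rw [intervalIntegral.integral_comp_sub_right (fun u => kk u) ξ]; simp

theorem gfacts (hK : KFacts) (j : ℕ) : GFacts j := by
  have hc := hK.cont
  have hm := mP_pos j
  have hM := M_ge j
  have hN := N_ge j
  have he := eps_pos j
  have he' := eps_le j
  have ii : ∀ ξ a b, IntervalIntegrable (fun r => kk (r - ξ)) volume a b := fun ξ a b =>
    (hc.comp (continuous_id.sub continuous_const)).intervalIntegrable a b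
  have der : ∀ ξ, HasDerivAt (GG j) (dG j ξ) ξ := by
    intro ξ
    have hP : ∀ x, HasDerivAt (fun u => ∫ x in (0 : ℝ)..u, kk x) (kk x) x := fun x =>
      (hc.integral_hasStrictDerivAt 0 x).hasDerivAt
    have e : GG j = fun ξ => 2 * mP j *
        ((∫ x in (0 : ℝ)..(1 / 4 - ξ), kk x) - ∫ x in (0 : ℝ)..(-ξ), kk x) := by
      funext ξ
      rw [GG_eq, intervalIntegral.integral_interval_sub_left (hc.intervalIntegrable _ _)
        (hc.intervalIntegrable _ _)]
    rw [e]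
    have h1 := (hP (1 / 4 - ξ)).comp ξ ((hasDerivAt_id ξ).const_sub (1 / 4))
    have h2 := (hP (-ξ)).comp ξ (hasDerivAt_id ξ).neg
    exact ((h1.sub h2).const_mul (2 * mP j)).congr_deriv (by unfold dG; ring)
  have d0 : ∀ ξ, 0 ≤ dG j ξ ∧ dG j ξ ≤ 2 * mP j := by
    intro ξ
    have h1 := hK.anti (show -ξ ≤ 1 / 4 - ξ by linarith)
    have h2 := hK.le_one (-ξ); have h3 := hK.pos (1 / 4 - ξ)
    unfold dG; constructor
    · have : 0 ≤ kk (-ξ) - kk (1 / 4 - ξ) := by linarith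
      positivity
    · nlinarith
  have up : ∀ ξ c, (∀ r ∈ Icc (0 : ℝ) (1 / 4), kk (r - ξ) ≤ c) → GG j ξ ≤ mP j * c / 2 := by
    intro ξ c h
    have := intervalIntegral.integral_mono_on (by norm_num : (0 : ℝ) ≤ 1 / 4) (ii ξ _ _)
      (intervalIntegrable_const (c := c)) h
    simp only [intervalIntegral.integral_const, smul_eq_mul] at this
    unfold GG; nlinarith
  refine ⟨der, ?_, d0, ?_, ?_, ?_, ?_, ?_, ?_⟩
  · unfold dG; fun_prop
  · obtain ⟨L, hL⟩ := hK.lip
    have hL0 : 0 ≤ L := (abs_nonneg _).trans (hL 0)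
    have hd := abs_sub_le_of_deriv (hK.cd.differentiable (by norm_num)) hL
    refine ⟨4 * mP j * L, by positivity, fun ξ ξ' => ?_⟩
    have h1 := hd (-ξ) (-ξ'); have h2 := hd (1 / 4 - ξ) (1 / 4 - ξ')
    rw [show -ξ - -ξ' = -(ξ - ξ') by ring, abs_neg] at h1
    rw [show 1 / 4 - ξ - (1 / 4 - ξ') = -(ξ - ξ') by ring, abs_neg] at h2
    have e : dG j ξ - dG j ξ' = 2 * mP j *
        ((kk (-ξ) - kk (-ξ')) - (kk (1 / 4 - ξ) - kk (1 / 4 - ξ'))) := by unfold dG; ring
    rw [e, abs_mul, abs_of_pos (by positivity : 0 < 2 * mP j)]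
    have h3 := abs_sub (kk (-ξ) - kk (-ξ')) (kk (1 / 4 - ξ) - kk (1 / 4 - ξ'))
    calc _ ≤ 2 * mP j * (L * |ξ - ξ'| + L * |ξ - ξ'|) := by gcongr; linarith
      _ = _ := by ring
  · exact monotone_of_deriv_nonneg (fun ξ => (der ξ).differentiableAt)
      fun ξ => by rw [(der ξ).deriv]; exact (d0 ξ).1
  · intro ξ
    refine ⟨?_, by simpa using up ξ 1 fun r _ => hK.le_one _⟩
    have := intervalIntegral.integral_nonneg (μ := volume) (by norm_num : (0 : ℝ) ≤ 1 / 4)
      (f := fun r => kk (r - ξ)) fun r _ => (hK.pos _).le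
    unfold GG; positivity
  · intro ξ h1 h2
    have hp : ∀ r ∈ Icc (0 : ℝ) (1 / 4), kk (r - ξ) = kaq j := fun r hr =>
      hK.p2 j _ (by unfold xi0 at h2; linarith [hr.1]) (by unfold xi0 at h1; unfold EE; linarith [hr.2])
    constructor
    · unfold GG
      rw [intervalIntegral.integral_congr (g := fun _ => kaq j) fun r hr => hp r
        (by rwa [uIcc_of_le (by norm_num)] at hr)]
      simp only [intervalIntegral.integral_const, smul_eq_mul]
      have := kaq_mP j; linarith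
    · have a := hp 0 ⟨le_rfl, by norm_num⟩
      have b := hp (1 / 4) ⟨by norm_num, le_rfl⟩
      rw [zero_sub] at a
      unfold dG; rw [a, b]; ring
  · intro ξ h
    have h1 : ∫ r in (0 : ℝ)..(1 / 4), kk (r - ξ) =
        (∫ r in (0 : ℝ)..eps j, kk (r - ξ)) + ∫ r in (eps j)..(1 / 4), kk (r - ξ) :=
      (intervalIntegral.integral_add_adjacent_intervals (ii _ _ _) (ii _ _ _)).symm
    have h2 := intervalIntegral.integral_nonneg (μ := volume) (by linarith : eps j ≤ 1 / 4)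
      (f := fun r => kk (r - ξ)) fun r _ => (hK.pos _).le
    have h3 := intervalIntegral.integral_mono_on he.le (intervalIntegrable_const (c := kap j))
      (ii ξ 0 (eps j)) fun r hr => by
        rw [← hK.p1 j (M j) (by linarith) le_rfl]
        exact hK.anti (by unfold xi0 at h; linarith [hr.2])
    simp only [intervalIntegral.integral_const, smul_eq_mul, sub_zero] at h3
    have h4 : 2 * mP j * (eps j * kap j) = M j ^ 12 := by
      have := M_pos j; unfold mP eps kap; field_simp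
    have h5 := mul_pow_le hM (c := 2) (by norm_num) (a := 11) (b := 12) (by norm_num)
    unfold GG zb; rw [h1]; nlinarith
  · intro ξ h
    have := up ξ (kap j) fun r hr => by
      rw [← hK.p1 j (M j / 4) le_rfl (by linarith)]
      exact hK.anti (by linarith [hr.1])
    rw [mul_comm, kap_mP] at this; exact this

/-! ### the far field -/

theorem sT_two_le {l n : ℕ} {t : ℝ} (h : sT n ≤ t) (hl : n < l) : 2 * sT l ≤ t := by
  have h1 : sT l ≤ sT (n + 1) := sT_anti hl
  have := sT_succ n; linarith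

section tail
variable {aC aP : ℕ → ℝ → ℝ}

theorem Mass.term_nonneg (h : Mass aC aP) (l : ℕ) {t : ℝ} (ht : t ∈ Ioc (0 : ℝ) (1 / 2)) :
    0 ≤ kap l * aC l t ∧ 0 ≤ kap (l + 1) * aP l t :=
  ⟨mul_nonneg (kap_pos _).le (h.bC l t ht).1, mul_nonneg (kap_pos _).le
    (le_trans (by have := mP_pos l; positivity) (h.bP l t ht).1)⟩

theorem Mass.termP_le (h : Mass aC aP) (l : ℕ) {t : ℝ} (ht : t ∈ Ioc (0 : ℝ) (1 / 2)) :
    kap (l + 1) * aP l t ≤ 1 / 1000 * (1 / 2) ^ l := by
  have h1 := (h.bP l t ht).2; have h2 := kap_succ_mP l; have h3 := inv_M_le (l + 1)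
  have h4 := kap_pos (l + 1); have h5 := mP_pos l
  have h6 : kap (l + 1) * aP l t ≤ kap (l + 1) * mP l := by gcongr; linarith
  have h7 : (0 : ℝ) < (1 / 2) ^ l := by positivity
  rw [pow_succ] at h3; linarith

theorem Mass.termC_le (h : Mass aC aP) (l : ℕ) {t : ℝ} (ht : t ∈ Ioc (0 : ℝ) (1 / 2)) :
    kap l * aC l t ≤ M l := by
  rw [← kap_mC]; have := kap_pos l; gcongr; exact (h.bC l t ht).2

theorem Mass.termC_late (h : Mass aC aP) (l : ℕ) {t : ℝ} (ht : t ∈ Ioc (0 : ℝ) (1 / 2))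
    (hl : 2 * sT l ≤ t) : kap l * aC l t ≤ 1 / 1000 * (1 / 2) ^ l := by
  refine le_trans ?_ (inv_M_le l)
  rw [← kap_M7]; have := kap_pos l; gcongr; exact h.late l t ht hl

theorem half_pow_le {a b : ℕ} (h : a ≤ b) : (1 / 2 : ℝ) ^ b ≤ (1 / 2) ^ a :=
  pow_le_pow_of_le_one (by norm_num) (by norm_num) h

/-- summable majorant valid on `[sT n, 1/2]` -/
noncomputable def maj (n j i : ℕ) : ℝ := (1 / 2) ^ i + if i < n then M (j + 1 + i) else 0

theorem maj_summable (n j : ℕ) : Summable (maj n j) :=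
  summable_geometric_two.add (summable_of_ne_finset_zero (s := Finset.range n)
    fun i hi => if_neg (by simpa using hi))

theorem Mass.term_le_maj (h : Mass aC aP) (n j i : ℕ) {t : ℝ} (ht : t ∈ Ioc (0 : ℝ) (1 / 2))
    (hn : sT n ≤ t) : |kap (j + 1 + i) * aC (j + 1 + i) t + kap (j + 1 + i + 1) * aP (j + 1 + i) t|
      ≤ maj n j i := by
  have h0 := h.term_nonneg (j + 1 + i) ht
  have h1 := h.termP_le (j + 1 + i) ht
  have h2 : (1 / 2 : ℝ) ^ (j + 1 + i) ≤ (1 / 2) ^ i := half_pow_le (by omega)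
  have h3 : (0 : ℝ) < (1 / 2) ^ i := by positivity
  rw [abs_of_nonneg (add_nonneg h0.1 h0.2)]
  unfold maj
  split_ifs with hi
  · have := h.termC_le (j + 1 + i) ht; linarith
  · have := h.termC_late (j + 1 + i) ht (sT_two_le hn (by omega)); linarith

theorem exists_sT_lt {t : ℝ} (ht : 0 < t) : ∃ n, sT n < t :=
  (tendsto_sT.eventually (gt_mem_nhds ht)).exists

theorem tailFacts (h : Mass aC aP) : TailFacts aC aP := by
  have sm : ∀ j, ∀ t ∈ Ioc (0 : ℝ) (1 / 2), Summable fun i =>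
      kap (j + 1 + i) * aC (j + 1 + i) t + kap (j + 1 + i + 1) * aP (j + 1 + i) t := by
    intro j t ht
    obtain ⟨n, hn⟩ := exists_sT_lt ht.1
    exact Summable.of_norm_bounded (maj_summable n j) fun i => h.term_le_maj n j i ht hn.le
  have nn : ∀ j, ∀ t ∈ Ioc (0 : ℝ) (1 / 2), 0 ≤ tail aC aP j t := fun j t ht =>
    tsum_nonneg fun i => add_nonneg (h.term_nonneg _ ht).1 (h.term_nonneg _ ht).2
  have succ : ∀ j, ∀ t ∈ Ioc (0 : ℝ) (1 / 2), tail aC aP j t =
      kap (j + 1) * aC (j + 1) t + kap (j + 2) * aP (j + 1) t + tail aC aP (j + 1) t := by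
    intro j t ht
    unfold tail
    rw [(sm j t ht).tsum_eq_zero_add]
    congr 1
    refine tsum_congr fun i => ?_
    rw [show j + 1 + (i + 1) = j + 1 + 1 + i by omega]
  have small : ∀ j, ∀ t ∈ Ioc (0 : ℝ) (1 / 2), sT j ≤ t → tail aC aP j t ≤ 1 := by
    intro j t ht hj
    have : tail aC aP j t ≤ ∑' i : ℕ, (1 / 2 : ℝ) * (1 / 2) ^ i := by
      refine (sm j t ht).tsum_le_tsum (fun i => ?_) (summable_geometric_two.mul_left _)
      have h1 := h.termP_le (j + 1 + i) ht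
      have h2 : (1 / 2 : ℝ) ^ (j + 1 + i) ≤ (1 / 2) ^ i := half_pow_le (by omega)
      have h3 : (0 : ℝ) < (1 / 2) ^ i := by positivity
      have := h.termC_late (j + 1 + i) ht (sT_two_le hj (by omega)); linarith
    rw [tsum_mul_left, tsum_geometric_two] at this; linarith
  have step : ∀ j, ∀ t ∈ Ioc (0 : ℝ) (1 / 2), tail aC aP (j + 1) t ≤ tail aC aP j t ∧
      tail aC aP j t ≤ tail aC aP (j + 1) t + M (j + 1) + 1 := by
    intro j t ht
    have h0 := h.term_nonneg (j + 1) ht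
    have h1 := h.termP_le (j + 1) ht
    have h2 := h.termC_le (j + 1) ht
    have h3 : (1 / 2 : ℝ) ^ (j + 1) ≤ 1 := pow_le_one₀ (by norm_num) (by norm_num)
    rw [succ j t ht]; constructor <;> linarith [h0.1, h0.2]
  have diff : ∀ i j, i ≤ j → ∀ t ∈ Ioc (0 : ℝ) (1 / 2),
      tail aC aP j t ≤ tail aC aP i t ∧ tail aC aP i t ≤ tail aC aP j t + 3 * M j := by
    intro i j hij t ht
    induction j, hij using Nat.le_induction with
    | base => constructor <;> linarith [M_pos i]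
    | succ j _ ih =>
      have := step j t ht; have := M_mul_le j; have := M_ge j
      constructor <;> linarith [ih.1, ih.2, this]
  refine ⟨sm, ?_, nn, succ, small, ?_, ?_, diff⟩
  · intro j t ht
    obtain ⟨n, hn⟩ := exists_sT_lt ht.1
    have hsub : Icc (sT n) (1 / 2) ⊆ Ioc (0 : ℝ) (1 / 2) := fun x hx =>
      ⟨(sT_pos n).trans_le hx.1, hx.2⟩
    have hc : ContinuousOn (tail aC aP j) (Icc (sT n) (1 / 2)) :=
      continuousOn_tsum (fun i => ((continuousOn_const.mul ((h.cC _).mono hsub)).add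
        (continuousOn_const.mul ((h.cP _).mono hsub)))) (maj_summable n j)
        fun i x hx => h.term_le_maj n j i (hsub hx) hx.1
    refine (hc t ⟨hn.le, ht.2⟩).mono_of_mem_nhdsWithin ?_
    filter_upwards [inter_mem_nhdsWithin _ (Ioi_mem_nhds hn)] with x hx
    exact ⟨le_of_lt hx.2, hx.1.2⟩
  · intro j t ht hj
    have := step j t ht; have := small (j + 1) t ht hj; linarith [this]
  · intro i j hij t ht hj
    obtain ⟨l, rfl⟩ : ∃ l, j = l + 1 := ⟨j - 1, by omega⟩
    have h1 := (diff i l (by omega) t ht).1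
    have h2 := succ l t ht
    have h3 := nn (l + 1) t ht
    have h4 := (h.term_nonneg (l + 1) ht).2
    have h5 : kap (l + 1) * (mC (l + 1) / 4) ≤ kap (l + 1) * aC (l + 1) t := by
      have := kap_pos (l + 1); gcongr; exact h.early _ t ht hj
    have h6 := kap_mC (l + 1)
    linarith

end tail

theorem int01_bd {f : ℝ → ℝ} (hf : Continuous f) {a b : ℝ} (h : ∀ r, a ≤ f r ∧ f r ≤ b) :
    a ≤ ∫ r in (0 : ℝ)..1, f r ∧ ∫ r in (0 : ℝ)..1, f r ≤ b := by
  constructor
  · simpa using intervalIntegral.integral_mono_on zero_le_one (intervalIntegrable_const (c := a))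
      (hf.intervalIntegrable (μ := volume) 0 1) fun r _ => (h r).1
  · simpa using intervalIntegral.integral_mono_on zero_le_one
      (hf.intervalIntegrable (μ := volume) 0 1) (intervalIntegrable_const (c := b))
      fun r _ => (h r).2

theorem mass_of {α : ℕ → ℝ → ℝ} {δC δP : ℕ → ℝ → ℝ → ℝ} (hα : ∀ j, Continuous (α j))
    (h0 : ∀ j t, t ≤ sT j → α j t = mC j / 2)
    (h1 : ∀ j, ∀ t ∈ Ioc (0 : ℝ) (1 / 2), 0 ≤ α j t ∧ α j t ≤ mC j)
    (h2 : ∀ j, ∀ t ∈ Ioc (0 : ℝ) (1 / 2), 2 * sT j ≤ t → α j t ≤ M j ^ 7)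
    (cC : ∀ j, Continuous (uncurry (δC j))) (cP : ∀ j, Continuous (uncurry (δP j)))
    (bC : ∀ j, ∀ t ∈ Icc (0 : ℝ) (1 / 2), ∀ y, 0 ≤ δC j t y ∧ δC j t y ≤ max (sT j - t) 0)
    (bP : ∀ j, ∀ t ∈ Icc (0 : ℝ) (1 / 2), ∀ y, 0 ≤ δP j t y ∧ δP j t y ≤ max (sT (j + 1) - t) 0) :
    Mass (amC α δC) (amP δP) := by
  have iC : ∀ j, ∀ t ∈ Ioc (0 : ℝ) (1 / 2), 0 ≤ ∫ r in (0 : ℝ)..1, δC j t r ∧
      ∫ r in (0 : ℝ)..1, δC j t r ≤ max (sT j - t) 0 := fun j t ht =>
    int01_bd ((cC j).uncurry_left t) (bC j t (Ioc_subset_Icc_self ht))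
  have iP : ∀ j, ∀ t ∈ Ioc (0 : ℝ) (1 / 2), 0 ≤ ∫ r in (0 : ℝ)..1, δP j t r ∧
      ∫ r in (0 : ℝ)..1, δP j t r ≤ max (sT (j + 1) - t) 0 := fun j t ht =>
    int01_bd ((cP j).uncurry_left t) (bP j t (Ioc_subset_Icc_self ht))
  have mx : ∀ j, ∀ t ∈ Ioc (0 : ℝ) (1 / 2), max (sT j - t) 0 ≤ 1 / 4 := fun j t ht =>
    max_le (by linarith [sT_le j, ht.1]) (by norm_num)
  have early : ∀ j, ∀ t ∈ Ioc (0 : ℝ) (1 / 2), t ≤ sT j → mC j / 4 ≤ amC α δC j t := by
    intro j t ht hj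
    have := (iC j t ht).2.trans (mx j t ht); have := mC_pos j
    unfold amC; rw [h0 j t hj]; nlinarith
  have le : ∀ j, ∀ t ∈ Ioc (0 : ℝ) (1 / 2), amC α δC j t ≤ α j t := by
    intro j t ht
    have := mul_nonneg (mC_pos j).le (iC j t ht).1
    unfold amC; linarith
  refine ⟨fun j => ?_, fun j => ?_, fun j t ht => ⟨?_, (le j t ht).trans (h1 j t ht).2⟩, early,
    fun j t ht hj => (le j t ht).trans (h2 j t ht hj), fun j t ht => ?_⟩
  · exact ((hα j).sub (continuous_const.mul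
      (intervalIntegral.continuous_parametric_intervalIntegral_of_continuous' (cC j) 0 1))).continuousOn
  · exact (continuous_const.sub (continuous_const.mul
      (intervalIntegral.continuous_parametric_intervalIntegral_of_continuous' (cP j) 0 1))).continuousOn
  · rcases le_total t (sT j) with hj | hj
    · have := early j t ht hj; have := mC_pos j; linarith
    · have h3 := iC j t ht
      rw [max_eq_right (by linarith)] at h3
      unfold amC; rw [le_antisymm h3.2 h3.1]; simpa using (h1 j t ht).1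
  · have h3 := (iP j t ht).2.trans (mx (j + 1) t ht); have h4 := (iP j t ht).1
    have := mP_pos j
    unfold amP; constructor <;> nlinarith

end MI34

end MrgPart0

-- ======== part 1: formerly Pool.Agent.MP_34a893_an.MI.LevB
section MrgPart1

/-! Estimates for the compression of one level. -/

open MeasureTheory Set Filter Topology Function

namespace MI34

namespace LevB

/-- mean value theorem on a subinterval of `[0,1]` -/
theorem mvt {f f' : ℝ → ℝ} (hc : Continuous f) (hd : ∀ t ∈ Ioo (0 : ℝ) 1, HasDerivAt f (f' t) t)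
    {a b : ℝ} (ha : 0 ≤ a) (hab : a ≤ b) (hb : b ≤ 1) :
    ∃ c ∈ Icc a b, f b - f a = f' c * (b - a) := by
  rcases hab.eq_or_lt with rfl | h
  · exact ⟨a, ⟨le_rfl, le_rfl⟩, by simp⟩
  obtain ⟨c, c1, c2⟩ := exists_hasDerivAt_eq_slope f f' h hc.continuousOn
    fun t ht => hd t ⟨ha.trans_lt ht.1, ht.2.trans_le hb⟩
  exact ⟨c, Ioo_subset_Icc_self c1, by rw [c2, div_mul_cancel₀ _ (sub_pos.2 h).ne']⟩

theorem cont_int {f : ℝ → ℝ → ℝ} (hf : Continuous (uncurry f)) :
    Continuous fun p : ℝ × ℝ => ∫ r in p.2..1, f p.1 r := by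
  have h1 : Continuous (uncurry fun (p : ℝ × ℝ) (r : ℝ) => f p.1 r) :=
    hf.comp ((continuous_fst.comp continuous_fst).prodMk continuous_snd)
  have h2 := intervalIntegral.continuous_parametric_intervalIntegral_of_continuous
    (μ := volume) (a₀ := 1) h1 continuous_snd
  exact h2.neg.congr fun p => (intervalIntegral.integral_symm _ _).symm

theorem der_left {f : ℝ → ℝ} (hf : Continuous f) (y : ℝ) :
    HasDerivAt (fun y => ∫ r in y..1, f r) (-f y) y :=
  ((hf.integral_hasStrictDerivAt 1 y).hasDerivAt.neg).congr_of_eventuallyEq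
    (Eventually.of_forall fun _ => intervalIntegral.integral_symm _ _)

theorem der_of_eq {f g : ℝ → ℝ} (hg : Continuous g) {c : ℝ}
    (h : ∀ t ∈ Icc (0 : ℝ) 1, f t = c + ∫ τ in (0 : ℝ)..t, g τ) {t : ℝ} (ht : t ∈ Ioo (0 : ℝ) 1) :
    HasDerivAt f (g t) t :=
  ((hg.integral_hasStrictDerivAt 0 t).hasDerivAt.const_add c).congr_of_eventuallyEq
    (by filter_upwards [Icc_mem_nhds ht.1 ht.2] with u hu using h u hu)

variable {j : ℕ} {s ξ : ℝ → ℝ → ℝ}

/-- the argument of the step -/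
noncomputable def zz (j : ℕ) (s ξ : ℝ → ℝ → ℝ) (t y : ℝ) : ℝ :=
  mC j * (∫ r in y..1, s t r) + GG j (ξ t y)

/-- the time derivative of `s` -/
noncomputable def sg (j : ℕ) (s ξ : ℝ → ℝ → ℝ) (t y : ℝ) : ℝ :=
  1 / 2 * deriv (Ph0 j) (zz j s ξ t y) * (mC j - dG j (ξ t y) * s t y)

theorem cs1 (h : Level j s ξ) (t : ℝ) : Continuous (s t) := h.cs.uncurry_left t
theorem cs2 (h : Level j s ξ) (y : ℝ) : Continuous fun t => s t y := h.cs.uncurry_right y
theorem cx2 (h : Level j s ξ) (y : ℝ) : Continuous fun t => ξ t y := h.cξ.uncurry_right y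

theorem cG (hG : GFacts j) : Continuous (GG j) :=
  continuous_iff_continuousAt.2 fun x => (hG.der x).continuousAt

theorem czz (hG : GFacts j) (h : Level j s ξ) : Continuous (uncurry (zz j s ξ)) :=
  (continuous_const.mul (cont_int h.cs)).add ((cG hG).comp h.cξ)

theorem csg (hG : GFacts j) (h : Level j s ξ) : Continuous (uncurry (sg j s ξ)) :=
  (continuous_const.mul ((dPh0_cd j).continuous.comp (czz hG h))).mul
    (continuous_const.sub ((hG.cd.comp h.cξ).mul h.cs))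

theorem ds (hG : GFacts j) (h : Level j s ξ) {y : ℝ} (hy : y ∈ Icc (0 : ℝ) 1) :
    ∀ t ∈ Ioo (0 : ℝ) 1, HasDerivAt (fun t => s t y) (sg j s ξ t y) t := fun _ ht =>
  der_of_eq (g := fun t => sg j s ξ t y) ((csg hG h).uncurry_right y)
    (fun t ht => h.ode t ht y hy) ht

theorem zz_one (t : ℝ) : zz j s ξ t 1 = GG j (ξ t 1) := by simp [zz]

theorem dx (hC : CharStmt) (hG : GFacts j) (h : Level j s ξ) {y : ℝ} (hy : y ∈ Icc (0 : ℝ) 1) :
    ∀ t ∈ Ioo (0 : ℝ) 1, HasDerivAt (fun t => ξ t y) (hh j + nu j - Ph0 j (zz j s ξ t y)) t := by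
  intro t ht
  have h1 := hC (Ph0 j) 0 1 s (sg j s ξ) (zz j s ξ) (Ph0_cd j) h.cs.continuousOn
    (csg hG h).continuousOn (fun y hy => ds hG h hy)
    (fun t _ => ((czz hG h).uncurry_left t).continuousOn) (fun t ht y hy => by
      have k1 : HasDerivAt (ξ t) (s t y ^ 2) y := by
        have := (der_left ((cs1 h t).pow 2) y).const_sub (ξ t 1)
        rw [neg_neg] at this
        exact this.congr_of_eventuallyEq (by
          filter_upwards [Icc_mem_nhds hy.1 hy.2] with u hu using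
            h.hξ t (Ioo_subset_Icc_self ht) u hu)
      refine ⟨_, ((der_left (cs1 h t) y).const_mul (mC j)).add ((hG.der _).comp y k1), ?_⟩
      unfold sg
      ring) y hy t ht
  have h2 : HasDerivAt (fun t => ξ t 1) (hh j + nu j - Ph0 j (GG j (ξ t 1))) t :=
    der_of_eq (g := fun τ => hh j + nu j - Ph0 j (GG j (ξ τ 1)))
      (continuous_const.sub ((Ph0_cd j (n := 1)).continuous.comp ((cG hG).comp (cx2 h 1))))
      h.odeR ht
  refine ((h2.sub h1).congr_of_eventuallyEq ?_).congr_deriv (by rw [zz_one]; ring)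
  filter_upwards [Icc_mem_nhds ht.1 ht.2] with u hu using h.hξ u hu y hy

theorem start (h : Level j s ξ) {y : ℝ} (hy : y ∈ Icc (0 : ℝ) 1) :
    ξ 0 y = xi0 j - (1 - y) / 4 := by
  have z : (0 : ℝ) ∈ Icc (0 : ℝ) 1 := ⟨le_rfl, zero_le_one⟩
  have h1 : ∫ r in y..1, s 0 r ^ 2 = ∫ r in y..1, (1 / 4 : ℝ) :=
    intervalIntegral.integral_congr fun r hr => by
      rw [uIcc_of_le hy.2] at hr
      have := h.ode 0 z r ⟨hy.1.trans hr.1, hr.2⟩
      simp only [intervalIntegral.integral_same, add_zero] at this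
      simp only [this]
      norm_num
  have h2 := h.odeR 0 z
  simp only [intervalIntegral.integral_same, add_zero] at h2
  rw [h.hξ 0 z y hy, h1, h2, intervalIntegral.integral_const, smul_eq_mul]
  ring

theorem left_le (h : Level j s ξ) {t y : ℝ} (ht : t ∈ Icc (0 : ℝ) 1) (hy : y ∈ Icc (0 : ℝ) 1) :
    ξ t 0 ≤ ξ t y := by
  have c : Continuous fun r => s t r ^ 2 := (cs1 h t).pow 2
  have h1 := intervalIntegral.integral_add_adjacent_intervals
    (c.intervalIntegrable (μ := volume) 0 y) (c.intervalIntegrable y 1)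
  have h2 : 0 ≤ ∫ r in (0 : ℝ)..y, s t r ^ 2 :=
    intervalIntegral.integral_nonneg hy.1 fun _ _ => sq_nonneg _
  rw [h.hξ t ht y hy, h.hξ t ht 0 ⟨le_rfl, zero_le_one⟩]
  linarith

theorem mass_bd (h : Level j s ξ) {t y : ℝ} (ht : t ∈ Icc (0 : ℝ) 1) (hy : y ∈ Icc (0 : ℝ) 1) :
    0 ≤ ∫ r in y..1, s t r ∧ ∫ r in y..1, s t r ≤ 1 := by
  refine ⟨intervalIntegral.integral_nonneg hy.2 fun r hr =>
    (h.pos t ht r ⟨hy.1.trans hr.1, hr.2⟩).1.le, ?_⟩
  have h1 := intervalIntegral.integral_mono_on (μ := volume) hy.2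
    ((cs1 h t).intervalIntegrable y 1) (intervalIntegrable_const (c := (1 : ℝ)))
    fun r hr => (h.pos t ht r ⟨hy.1.trans hr.1, hr.2⟩).2
  rw [intervalIntegral.integral_const, smul_eq_mul] at h1
  linarith [hy.1]

theorem est (hC : CharStmt) (hG : GFacts j) (h : Level j s ξ) : LevelEst j s ξ := by
  have z0 : (0 : ℝ) ∈ Icc (0 : ℝ) 1 := ⟨le_rfl, zero_le_one⟩
  have z1 : (1 : ℝ) ∈ Icc (0 : ℝ) 1 := ⟨zero_le_one, le_rfl⟩
  have mv : ∀ {y : ℝ}, y ∈ Icc (0 : ℝ) 1 → ∀ {a b : ℝ}, 0 ≤ a → a ≤ b → b ≤ 1 → ∃ c ∈ Icc a b,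
      ξ b y - ξ a y = (hh j + nu j - Ph0 j (zz j s ξ c y)) * (b - a) := fun {y} hy {a b} =>
    mvt (f' := fun t => hh j + nu j - Ph0 j (zz j s ξ t y)) (cx2 h y) (dx hC hG h hy)
  have n0 := nu_pos j
  have e0 := eps_pos j
  have h0 := hh_pos j
  have m0 := M_pos j
  have sp : ∀ {y : ℝ}, y ∈ Icc (0 : ℝ) 1 → ∀ {a b : ℝ}, 0 ≤ a → a ≤ b → b ≤ 1 →
      nu j * (b - a) ≤ ξ b y - ξ a y ∧ ξ b y - ξ a y ≤ (hh j + nu j) * (b - a) :=
    fun {y} hy {a b} ha hab hb => by
      obtain ⟨c, -, hc⟩ := mv hy ha hab hb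
      have k1 := Ph0_nonneg j (zz j s ξ c y)
      have k2 := Ph0_le j (zz j s ξ c y)
      rw [hc]
      exact ⟨mul_le_mul_of_nonneg_right (by linarith) (sub_nonneg.2 hab),
        mul_le_mul_of_nonneg_right (by linarith) (sub_nonneg.2 hab)⟩
  have mono : ∀ {y : ℝ}, y ∈ Icc (0 : ℝ) 1 → ∀ {a b : ℝ}, 0 ≤ a → a ≤ b → b ≤ 1 →
      ξ a y ≤ ξ b y := fun {y} hy {a b} ha hab hb => by
    have := (sp hy ha hab hb).1
    have := mul_nonneg n0.le (sub_nonneg.2 hab)
    linarith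
  have right : ∀ t ∈ Icc (0 : ℝ) 1, ξ t 1 ≤ xi0 j + 2 * eps j + nu j * t := fun t ht => by
    rcases le_total (ξ t 1) (xi0 j + 2 * eps j) with k | k
    · linarith [mul_nonneg n0.le ht.1]
    have k0 : ξ 0 1 ≤ xi0 j + 2 * eps j := by rw [start h z1]; linarith
    obtain ⟨a, ha, k1⟩ := intermediate_value_Icc ht.1 (cx2 h 1).continuousOn ⟨k0, k⟩
    obtain ⟨c, hc, k2⟩ := mv z1 ha.1 ha.2 ht.2
    have k3 := mono z1 ha.1 hc.1 (hc.2.trans ht.2)
    beta_reduce at k1
    rw [zz_one, Ph0_top j (hG.high _ (k1 ▸ k3)), k1] at k2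
    linarith [mul_nonneg n0.le ha.1]
  have s0 := sT_pos j
  have s1 := sT_le j
  have s2 := sT_hh j
  have left0 : xi0 j ≤ ξ (sT j / 2) 0 := by
    by_contra k
    obtain ⟨c, hc, k2⟩ := mv z0 (a := 0) (b := sT j / 2) le_rfl (by linarith) (by linarith)
    have c1 : c ≤ 1 := by linarith [hc.2]
    have k3 := mono z0 hc.1 hc.2 (by linarith)
    have k4 := mono z0 le_rfl hc.1 c1
    rw [start h z0] at k2 k4
    have k5 := (hG.foot (ξ c 0) (by linarith) (by linarith [not_le.1 k])).1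
    have k6 : zz j s ξ c 0 ≤ zb j := by
      have a1 := mul_le_of_le_one_right (mC_pos j).le (mass_bd h ⟨hc.1, c1⟩ z0).2
      have a2 := M_le_mC j
      have a3 := mC_le_zb j
      unfold zz
      linarith
    rw [Ph0_zero j k6] at k2
    have := mul_pos n0 s0
    exact k (by linarith)
  have e1 : 2 * eps j ≤ nu j * (sT j / 2) := by
    have a1 := hh_le_N j
    have a2 := N_mul_le j
    have a3 : 1 / M j ≤ sT j / 2 := by
      rw [div_le_iff₀ m0]
      have := mul_le_mul_of_nonneg_left (show 4 * hh j ≤ M j by linarith) s0.le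
      linarith
    calc 2 * eps j = nu j * (1 / M j) := by rw [two_eps]; unfold nu; field_simp
      _ ≤ _ := mul_le_mul_of_nonneg_left a3 n0.le
  have left1 : xi0 j + nu j * (sT j / 2) ≤ ξ (sT j) 0 := by
    have := (sp z0 (a := sT j / 2) (b := sT j) (by linarith) (by linarith) (by linarith)).1
    linarith
  have hs : sT j ∈ Icc (0 : ℝ) 1 := ⟨s0.le, by linarith⟩
  refine ⟨fun t ht y hy => ?_, ?_, fun t ht y hy => ?_⟩
  · obtain ⟨c, hc, k⟩ := mvt (f' := fun t => sg j s ξ t y) (cs2 h y) (ds hG h hy) s0.le ht.1 ht.2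
    have c1 : c ∈ Icc (0 : ℝ) 1 := ⟨s0.le.trans hc.1, hc.2.trans ht.2⟩
    have k1 := mono z0 s0.le hc.1 c1.2
    have k2 := left_le h c1 hy
    have k3 := hG.high (ξ c y) (by linarith)
    have k4 : 2 * zb j ≤ zz j s ξ c y := by
      have := mul_nonneg (mC_pos j).le (mass_bd h c1 hy).1
      unfold zz
      linarith
    rw [sg, dPh0_right j k4] at k
    linarith
  · obtain ⟨c, hc⟩ : ∃ c, c = 1 / M j ^ 2 := ⟨_, rfl⟩
    have c0 : 0 < c := by rw [hc]; positivity
    have c1 : nu j = c ^ 2 := by rw [hc]; unfold nu; field_simp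
    have k1 := h.hξ _ hs 0 z0
    have k2 := right _ hs
    have k3 : ∫ r in (0 : ℝ)..1, s (sT j) r ^ 2 ≤ c ^ 2 := by
      have := mul_le_mul_of_nonneg_left hs.2 n0.le
      linarith
    have i1 := (cs1 h (sT j)).intervalIntegrable (μ := volume) 0 1
    have i2 : IntervalIntegrable (fun r => s (sT j) r ^ 2) volume 0 1 :=
      ((cs1 h (sT j)).pow 2).intervalIntegrable 0 1
    have k4 := intervalIntegral.integral_mono_on (μ := volume) zero_le_one (i1.const_mul (2 * c))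
      (i2.add (intervalIntegrable_const (c := c ^ 2))) fun r _ => by
        nlinarith [sq_nonneg (s (sT j) r - c)]
    rw [intervalIntegral.integral_const_mul, intervalIntegral.integral_add i2
      intervalIntegrable_const, intervalIntegral.integral_const, smul_eq_mul] at k4
    rw [← hc]
    refine le_of_mul_le_mul_left ?_ (show 0 < 2 * c by linarith)
    linarith
  · have k1 := mono hy le_rfl ht.1 ht.2
    have k2 := (sp hy le_rfl ht.1 ht.2).2
    have k3 := mul_le_mul_of_nonneg_left ht.2 (add_pos h0 n0).le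
    rw [start h hy] at k1 k2
    exact ⟨by linarith [hy.1], by linarith [hy.2]⟩

end LevB

theorem levB (hC : CharStmt) (hK : KFacts) : LevBStmt :=
  fun j _ _ h => LevB.est hC (gfacts hK j) h

end MI34

end MrgPart1

-- ======== part 2: formerly Pool.Agent.MP_34a893_an.MI.Lag
section MrgPart2

/-! The Lagrangian solution: ordering of the blobs and the field they generate. -/

open MeasureTheory Set Filter Topology Function

namespace MI34

namespace LagA

/-- the field at `x` of a blob with positions `X` and density `s` -/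
noncomputable def fd (x : ℝ) (X s : ℝ → ℝ) : ℝ :=
  ∫ r in (0 : ℝ)..1, (if x < X r then kk (X r - x) else 0) * s r

theorem fd_zero {x : ℝ} {X s : ℝ → ℝ} (h : ∀ r ∈ Icc (0 : ℝ) 1, X r ≤ x) : fd x X s = 0 := by
  have e : fd x X s = ∫ _ in (0 : ℝ)..1, (0 : ℝ) := intervalIntegral.integral_congr fun r hr => by
    rw [uIcc_of_le zero_le_one] at hr
    simp only [if_neg (not_lt.2 (h r hr)), zero_mul]
  rw [e, intervalIntegral.integral_zero]

theorem fd_const {x c : ℝ} {X s : ℝ → ℝ} (h : ∀ r ∈ Icc (0 : ℝ) 1, x < X r ∧ kk (X r - x) = c) :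
    fd x X s = c * ∫ r in (0 : ℝ)..1, s r := by
  rw [← intervalIntegral.integral_const_mul]
  refine intervalIntegral.integral_congr fun r hr => ?_
  rw [uIcc_of_le zero_le_one] at hr
  simp only [if_pos (h r hr).1, (h r hr).2]

theorem fd_nonneg (hK : KFacts) {x : ℝ} {X s : ℝ → ℝ} (h : ∀ r ∈ Icc (0 : ℝ) 1, 0 ≤ s r) :
    0 ≤ fd x X s :=
  intervalIntegral.integral_nonneg zero_le_one fun r hr => mul_nonneg (by
    split_ifs
    exacts [(hK.pos _).le, le_rfl]) (h r hr)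

section blob

variable {T t y r : ℝ} {X s v : ℝ → ℝ → ℝ}

theorem ii (b : Blob T X s v) (ht : t ∈ Ioc 0 T) (hy : y ∈ Icc (0 : ℝ) 1)
    (hr : r ∈ Icc (0 : ℝ) 1) : IntervalIntegrable (fun u => s t u ^ 2) volume y r := by
  have c : ContinuousOn (s t) (Icc 0 1) :=
    b.cs.comp (f := fun u => (t, u)) (by fun_prop) fun u hu => ⟨ht, hu⟩
  exact ((c.pow 2).mono (uIcc_subset_Icc hy hr)).intervalIntegrable

theorem dif (b : Blob T X s v) (ht : t ∈ Ioc 0 T) (hy : y ∈ Icc (0 : ℝ) 1)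
    (hr : r ∈ Icc (0 : ℝ) 1) : X t r - X t y = ∫ u in y..r, s t u ^ 2 := by
  rw [b.hX t ht y hy, b.hX t ht r hr, ← intervalIntegral.integral_add_adjacent_intervals
    (ii b ht hy hr) (ii b ht hr (right_mem_Icc.2 zero_le_one))]
  ring

theorem lt (b : Blob T X s v) (ht : t ∈ Ioc 0 T) (hy : y ∈ Icc (0 : ℝ) 1)
    (hr : r ∈ Icc (0 : ℝ) 1) (h : y < r) : X t y < X t r := by
  rw [← sub_pos, dif b ht hy hr]
  exact intervalIntegral.intervalIntegral_pos_of_pos_on (ii b ht hy hr)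
    (fun u hu => pow_pos (b.pos t ht u ⟨hy.1.trans hu.1.le, hu.2.le.trans hr.2⟩).1 2) h

theorem le (b : Blob T X s v) (ht : t ∈ Ioc 0 T) (hy : y ∈ Icc (0 : ℝ) 1)
    (hr : r ∈ Icc (0 : ℝ) 1) (h : y ≤ r) : X t y ≤ X t r :=
  h.eq_or_lt.elim (fun e => by rw [e]) fun k => (lt b ht hy hr k).le

theorem width (b : Blob T X s v) (ht : t ∈ Ioc 0 T) (hy : y ∈ Icc (0 : ℝ) 1)
    (hr : r ∈ Icc (0 : ℝ) 1) (h : y ≤ r) : X t r - X t y ≤ 1 := by
  rw [dif b ht hy hr]
  have := intervalIntegral.integral_mono_on h (ii b ht hy hr) (intervalIntegrable_const (c := (1 : ℝ)))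
    fun u hu => by
      have p := b.pos t ht u ⟨hy.1.trans hu.1, hu.2.trans hr.2⟩
      exact pow_le_one₀ p.1.le p.2
  rw [intervalIntegral.integral_const, smul_eq_mul, mul_one] at this
  linarith [hy.1, hr.2]

theorem fd_own (hK : KFacts) (b : Blob T X s v) (ht : t ∈ Ioc 0 T) (hy : y ∈ Icc (0 : ℝ) 1) :
    fd (X t y) (X t) (s t) = ∫ r in y..1, s t r := by
  have e : Ioc (0 : ℝ) 1 ∩ Ioi y = Ioc y 1 := by
    ext u
    exact ⟨fun h => ⟨h.2, h.1.2⟩, fun h => ⟨⟨hy.1.trans_lt h.1, h.2⟩, h.1⟩⟩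
  rw [fd, intervalIntegral.integral_of_le zero_le_one, intervalIntegral.integral_of_le hy.2, ← e,
    ← setIntegral_indicator measurableSet_Ioi]
  refine setIntegral_congr_fun measurableSet_Ioc fun r hr => ?_
  have hr' := Ioc_subset_Icc_self hr
  rcases lt_or_ge y r with h | h
  · simp only [if_pos (lt b ht hy hr' h), hK.one _ (width b ht hy hr' h.le), one_mul,
      indicator_of_mem (mem_Ioi.2 h)]
  · simp only [if_neg (not_lt.2 (le b ht hr' hy h)), zero_mul,
      indicator_of_notMem (notMem_Ioi.2 h)]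

theorem fd_rigid (b : Blob T X s v) (ht : t ∈ Ioc 0 T) (h : ∀ y ∈ Icc (0 : ℝ) 1, s t y = 1 / 2)
    {x : ℝ} (hx : x < X t 0) (j : ℕ) : mP j * fd x (X t) (s t) = GG j (x - X t 0) := by
  have z : (0 : ℝ) ∈ Icc (0 : ℝ) 1 := left_mem_Icc.2 zero_le_one
  have e1 : ∀ r ∈ Icc (0 : ℝ) 1, X t r - X t 0 = r / 4 := fun r hr => by
    have e : ∫ u in (0 : ℝ)..r, s t u ^ 2 = ∫ _ in (0 : ℝ)..r, (1 / 4 : ℝ) :=
      intervalIntegral.integral_congr fun u hu => by
        simp only [h u (uIcc_subset_Icc z hr hu)]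
        norm_num
    rw [dif b ht z hr, e, intervalIntegral.integral_const, smul_eq_mul]
    ring
  have e2 : fd x (X t) (s t) = ∫ r in (0 : ℝ)..1, 1 / 2 * kk (r / 4 - (x - X t 0)) :=
    intervalIntegral.integral_congr fun r hr => by
      rw [uIcc_of_le zero_le_one] at hr
      have a := e1 r hr
      have c : X t r - x = r / 4 - (x - X t 0) := by linarith
      simp only [if_pos (hx.trans_le (le b ht z hr hr.1)), h r hr, c, mul_comm]
  rw [e2, intervalIntegral.integral_const_mul,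
    intervalIntegral.integral_comp_div (fun u => kk (u - (x - X t 0))) (by norm_num : (4 : ℝ) ≠ 0),
    GG, zero_div, smul_eq_mul]
  ring

end blob

theorem split {g u : ℕ → ℝ} {j : ℕ} {e : ℝ} (h0 : ∀ i < j, g i = 0) (h1 : g (j + 1) = u 0 + e)
    (h2 : ∀ l, g (j + 1 + (l + 1)) = u (l + 1)) (hu : Summable u) :
    HasSum g (g j + e + ∑' l, u l) := by
  have a : HasSum (fun l => g (l + (j + 1))) (∑' l, u l + e) := by
    have e1 : (fun l => g (l + (j + 1))) = fun l => u l + if l = 0 then e else 0 := by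
      funext l
      cases l with
      | zero => simp [h1]
      | succ l => rw [add_comm (l + 1), h2]; simp
    rw [e1]
    exact hu.hasSum.add (hasSum_ite_eq 0 e)
  have b := (hasSum_nat_add_iff (j + 1)).1 a
  rw [Finset.sum_range_succ, Finset.sum_eq_zero fun i hi => h0 i (Finset.mem_range.1 hi)] at b
  have e2 : g j + e + ∑' l, u l = ∑' l, u l + e + (0 + g j) := by ring
  rwa [e2]

/-- the relative positions of the blobs at a fixed time -/
structure Ord (XC XP : ℕ → ℝ → ℝ) : Prop where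
  cp : ∀ j, ∀ y ∈ Icc (0 : ℝ) 1, ∀ r ∈ Icc (0 : ℝ) 1,
    XC j y < XP j r ∧ XP j r - XC j y ≤ EE j
  c : ∀ i j, i < j → ∀ y ∈ Icc (0 : ℝ) 1, ∀ x, x = XC i y ∨ x = XP i y → ∀ r ∈ Icc (0 : ℝ) 1,
    M j / 4 ≤ XC j r - x ∧ XC j r - x ≤ M j
  p1 : ∀ i, ∀ y ∈ Icc (0 : ℝ) 1, ∀ r ∈ Icc (0 : ℝ) 1,
    M (i + 1) + eps (i + 1) ≤ XP (i + 1) r - XP i y ∧ XP (i + 1) r - XP i y ≤ EE (i + 1)
  p2 : ∀ i j, i < j → ∀ y ∈ Icc (0 : ℝ) 1, ∀ x, x = XC i y ∨ (i + 1 < j ∧ x = XP i y) →
    ∀ r ∈ Icc (0 : ℝ) 1, EE j + 1 ≤ XP j r - x ∧ XP j r - x ≤ M (j + 1)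

theorem ord {XC XP : ℕ → ℝ → ℝ → ℝ} (P : Pos XC XP) {t : ℝ} (ht : t ∈ Ioc (0 : ℝ) (1 / 2)) :
    Ord (fun j => XC j t) (fun j => XP j t) where
  cp j y hy r hr := by
    obtain ⟨c, h⟩ := P.near j t ht
    have a := abs_le.1 (h j le_rfl y hy).1
    have b := abs_le.1 (h j le_rfl r hr).2
    have := N_mul_le j
    have := N_ge j
    unfold EE
    constructor <;> linarith [a.1, a.2, b.1, b.2]
  c i j hij y hy x hx r hr := by
    obtain ⟨k, rfl⟩ : ∃ k, j = k + 1 := ⟨j - 1, by omega⟩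
    obtain ⟨c, h⟩ := P.near (k + 1) t ht
    have a := abs_le.1 (h i hij.le y hy).1
    have a' := abs_le.1 (h i hij.le y hy).2
    have b := abs_le.1 (h _ le_rfl r hr).1
    have n1 := M_mul_le k
    have n2 := M_ge k
    have n3 := rho_succ k
    have n4 := rho_bd k
    have n5 := rho_bd i
    have n6 : rho i ≤ rho k := rho_mono (by omega)
    have n7 := M_pos i
    have n8 : N (k + 1) = M k := rfl
    rw [n8] at a a' b
    rcases hx with rfl | rfl <;> constructor <;>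
      linarith [a.1, a.2, a'.1, a'.2, b.1, b.2, n4.2, n5.1]
  p1 i y hy r hr := by
    obtain ⟨c, h⟩ := P.near (i + 1) t ht
    have a := abs_le.1 (h i (Nat.le_succ i) y hy).2
    have b := abs_le.1 (h _ le_rfl r hr).2
    have n1 := N_mul_le (i + 1)
    have n2 := N_ge (i + 1)
    have n3 := rho_succ i
    have n4 := eps_le (i + 1)
    unfold EE
    constructor <;> linarith [a.1, a.2, b.1, b.2]
  p2 i j hij y hy x hx r hr := by
    obtain ⟨k, rfl⟩ : ∃ k, j = k + 1 := ⟨j - 1, by omega⟩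
    obtain ⟨c, h⟩ := P.near (k + 1) t ht
    have a := abs_le.1 (h i hij.le y hy).1
    have a' := abs_le.1 (h i hij.le y hy).2
    have b := abs_le.1 (h _ le_rfl r hr).2
    have n1 := M_mul_le k
    have n1' := M_mul_le (k + 1)
    have n2 := M_ge k
    have n3 := rho_succ k
    have n4 := rho_bd (k + 1)
    have n5 := rho_bd i
    have n7 := M_pos i
    have n8 : N (k + 1) = M k := rfl
    have low : i < k → rho i + 3 / 2 * M k ≤ rho k := fun hk => by
      obtain ⟨l, rfl⟩ : ∃ l, k = l + 1 := ⟨k - 1, by omega⟩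
      have : rho i ≤ rho l := rho_mono (by omega)
      rw [rho_succ]
      linarith
    unfold EE
    rw [n8] at a a' b ⊢
    rcases hx with rfl | ⟨hk, rfl⟩
    · rcases (Nat.lt_succ_iff.1 hij).eq_or_lt with rfl | hk
      · constructor <;> linarith [a.1, a.2, b.1, b.2, n4.2, n5.1]
      · have := low hk
        constructor <;> linarith [a.1, a.2, b.1, b.2, n4.2, n5.1]
    · have := low (by omega)
      constructor <;> linarith [a'.1, a'.2, b.1, b.2, n4.2, n5.1]

theorem EE_pos (j : ℕ) : 0 < EE j := by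
  have := M_pos j
  have := N_pos j
  unfold EE
  linarith

theorem Ord.lt {XC XP : ℕ → ℝ → ℝ} (o : Ord XC XP) {i j : ℕ} (hij : i < j) {y x r : ℝ}
    (hy : y ∈ Icc (0 : ℝ) 1) (hx : x = XC i y ∨ x = XP i y) (hr : r ∈ Icc (0 : ℝ) 1) :
    x < XC j r ∧ x < XP j r := by
  have a := (o.c i j hij y hy x hx r hr).1
  have b := (o.cp j r hr r hr).1
  have := M_pos j
  constructor <;> linarith

section field

variable {Φ : ℝ → ℝ} {XC XP sC sP ζC ζP : ℕ → ℝ → ℝ → ℝ} {aC aP : ℕ → ℝ → ℝ} {t y x : ℝ}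

theorem termC (hK : KFacts) (D : Dyn Φ XC XP sC sP ζC ζP aC aP) (ht : t ∈ Ioc (0 : ℝ) (1 / 2))
    (o : Ord (fun j => XC j t) fun j => XP j t) {i j : ℕ} (hij : i < j) (hy : y ∈ Icc (0 : ℝ) 1)
    (hx : x = XC i t y ∨ x = XP i t y) :
    mC j * fd x (XC j t) (sC j t) = kap j * aC j t := by
  rw [fd_const (c := kap j) fun r hr => ⟨(o.lt hij hy hx hr).1,
    hK.p1 j _ (o.c i j hij y hy x hx r hr).1 (o.c i j hij y hy x hx r hr).2⟩, D.haC j t ht]
  ring

theorem termP (hK : KFacts) (D : Dyn Φ XC XP sC sP ζC ζP aC aP) (ht : t ∈ Ioc (0 : ℝ) (1 / 2))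
    (o : Ord (fun j => XC j t) fun j => XP j t) {i j : ℕ} (hij : i < j) (hy : y ∈ Icc (0 : ℝ) 1)
    (hx : x = XC i t y ∨ (i + 1 < j ∧ x = XP i t y)) :
    mP j * fd x (XP j t) (sP j t) = kap (j + 1) * aP j t := by
  rw [fd_const (c := kap (j + 1)) fun r hr => ⟨(o.lt hij hy (hx.imp_right And.right) hr).2,
    hK.p3 j _ (o.p2 i j hij y hy x hx r hr).1 (o.p2 i j hij y hy x hx r hr).2⟩, D.haP j t ht]
  ring

theorem below (o : Ord (fun j => XC j t) fun j => XP j t) {i j : ℕ} (hij : i < j)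
    (hy : y ∈ Icc (0 : ℝ) 1) (hx : x = XC j t y ∨ x = XP j t y) :
    mC i * fd x (XC i t) (sC i t) + mP i * fd x (XP i t) (sP i t) = 0 := by
  have k : ∀ r ∈ Icc (0 : ℝ) 1, ∀ z, z = XC i t r ∨ z = XP i t r → z ≤ x := fun r hr z hz => by
    have := o.lt hij hr hz hy
    rcases hx with rfl | rfl
    exacts [this.1.le, this.2.le]
  rw [fd_zero fun r hr => k r hr _ (Or.inl rfl), fd_zero fun r hr => k r hr _ (Or.inr rfl)]
  ring

theorem fieldC (hK : KFacts) (D : Dyn Φ XC XP sC sP ζC ζP aC aP) (P : Pos XC XP)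
    (ht : t ∈ Ioc (0 : ℝ) (1 / 2)) (j : ℕ) (hy : y ∈ Icc (0 : ℝ) 1) :
    HasSum (fun i => mC i * fd (XC j t y) (XC i t) (sC i t) +
      mP i * fd (XC j t y) (XP i t) (sP i t)) (ζC j t y) := by
  have o := ord P ht
  have z : (0 : ℝ) ∈ Icc (0 : ℝ) 1 := left_mem_Icc.2 zero_le_one
  have up : ∀ l, mC (j + 1 + l) * fd (XC j t y) (XC (j + 1 + l) t) (sC (j + 1 + l) t) +
      mP (j + 1 + l) * fd (XC j t y) (XP (j + 1 + l) t) (sP (j + 1 + l) t) =
      kap (j + 1 + l) * aC (j + 1 + l) t + kap (j + 1 + l + 1) * aP (j + 1 + l) t := fun l => by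
    rw [termC hK D ht o (i := j) (by omega) hy (Or.inl rfl),
      termP hK D ht o (i := j) (by omega) hy (Or.inl rfl)]
  have h := split (g := fun i => mC i * fd (XC j t y) (XC i t) (sC i t) +
      mP i * fd (XC j t y) (XP i t) (sP i t)) (j := j) (e := 0)
    (fun i hi => below o hi hy (Or.inl rfl)) ((up 0).trans (add_zero _).symm) (fun l => up (l + 1))
    ((tailFacts D.mass).sm j t ht)
  have e : ζC j t y = mC j * fd (XC j t y) (XC j t) (sC j t) +
      mP j * fd (XC j t y) (XP j t) (sP j t) + 0 + tail aC aP j t := by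
    rw [fd_own hK (D.blobC j) ht hy, add_zero]
    rcases le_total t (sT j) with k | k
    · rw [D.hζ1 j t ht k y hy, fd_const (c := kaq j) fun r hr => ⟨(o.cp j y hy r hr).1,
        hK.p2 j _ ?_ (o.cp j y hy r hr).2⟩, D.haP j t ht]
      · ring
      · have a := P.foot j t ht k
        have b := le (D.blobC j) ht hy (right_mem_Icc.2 zero_le_one) hy.2
        have c := le (D.blobP j) ht z hr hr.1
        unfold xi0 at a
        linarith
    · rw [D.hζ2 j t ht k y hy, fd_rigid (D.blobP j) ht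
        (D.rigidP j t ht ((sT_anti (Nat.le_succ j)).trans k)) (o.cp j y hy 0 z).1]
  rw [e]
  exact h

theorem fieldP (hK : KFacts) (D : Dyn Φ XC XP sC sP ζC ζP aC aP) (P : Pos XC XP)
    (ht : t ∈ Ioc (0 : ℝ) (1 / 2)) (j : ℕ) (hy : y ∈ Icc (0 : ℝ) 1) :
    HasSum (fun i => mC i * fd (XP j t y) (XC i t) (sC i t) +
      mP i * fd (XP j t y) (XP i t) (sP i t)) (ζP j t y) := by
  have o := ord P ht
  have h := split (g := fun i => mC i * fd (XP j t y) (XC i t) (sC i t) +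
      mP i * fd (XP j t y) (XP i t) (sP i t)) (j := j)
    (e := (kaq (j + 1) - kap (j + 2)) * aP (j + 1) t)
    (fun i hi => below o hi hy (Or.inr rfl)) (by
      rw [termC hK D ht o (Nat.lt_succ_self j) hy (Or.inr rfl),
        fd_const (c := kaq (j + 1)) fun r hr => ⟨(o.lt (Nat.lt_succ_self j) hy (Or.inr rfl) hr).2,
          hK.p2 _ _ (o.p1 j y hy r hr).1 (o.p1 j y hy r hr).2⟩]
      change _ = kap (j + 1) * aC (j + 1) t + kap (j + 2) * aP (j + 1) t + _
      rw [D.haP (j + 1) t ht]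
      ring)
    (fun l => by
      rw [termC hK D ht o (i := j) (by omega) hy (Or.inr rfl),
        termP hK D ht o (i := j) (by omega) hy (Or.inr ⟨by omega, rfl⟩)])
    ((tailFacts D.mass).sm j t ht)
  have e : ζP j t y = mC j * fd (XP j t y) (XC j t) (sC j t) +
      mP j * fd (XP j t y) (XP j t) (sP j t) + (kaq (j + 1) - kap (j + 2)) * aP (j + 1) t +
      tail aC aP j t := by
    rw [fd_own hK (D.blobP j) ht hy, fd_zero fun r hr => (o.cp j r hr y hy).1.le,
      D.hζP j t ht y hy]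
    ring
  rw [e]
  exact h

end field

end LagA

open LagA in
theorem lag (hK : KFacts) (hD : DynStmt) (hP : PosStmt) : LagStmt := by
  obtain ⟨R, Φ, XC, XP, sC, sP, ζC, ζP, aC, aP, F, D⟩ := hD
  have P := hP R Φ XC XP sC sP ζC ζP aC aP F D
  have z : (0 : ℝ) ∈ Icc (0 : ℝ) 1 := left_mem_Icc.2 zero_le_one
  have w : (1 : ℝ) ∈ Icc (0 : ℝ) 1 := right_mem_Icc.2 zero_le_one
  have mp : ∀ n : ℕ × Bool, 0 < (bif n.2 then mP n.1 else mC n.1) := by
    rintro ⟨j, _ | _⟩
    exacts [mC_pos j, mP_pos j]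
  have bl : ∀ n : ℕ × Bool, Blob (1 / 2) (bif n.2 then XP n.1 else XC n.1)
      (bif n.2 then sP n.1 else sC n.1) fun t y => Φ ((bif n.2 then ζP n.1 else ζC n.1) t y) := by
    rintro ⟨j, _ | _⟩
    exacts [D.blobC j, D.blobP j]
  refine ⟨Φ, fun n => bif n.2 then mP n.1 else mC n.1, fun n => bif n.2 then XP n.1 else XC n.1,
    fun n => bif n.2 then sP n.1 else sC n.1, fun n => bif n.2 then ζP n.1 else ζC n.1,
    F.cd, F.mono, F.zero, mp, bl, ?_, ?_, ?_, ?_, fun A => ?_⟩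
  · rintro ⟨j, b⟩ A
    obtain ⟨t0, h0, h⟩ := P.far j A
    refine ⟨t0, h0, fun t ht k => ?_⟩
    cases b
    exacts [(h t ht k).1, (h t ht k).2]
  · have key : ∀ (i j : ℕ) (b c : Bool), i < j → ∀ t ∈ Ioc (0 : ℝ) (1 / 2),
        (bif b then XP i else XC i) t 1 < (bif c then XP j else XC j) t 0 := fun i j b c h t ht => by
      have := (ord P ht).lt (x := (bif b then XP i else XC i) t 1) h w (by
        cases b
        exacts [Or.inl rfl, Or.inr rfl]) z
      cases c
      exacts [this.1, this.2]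
    rintro ⟨i, b⟩ ⟨j, c⟩ hne t ht
    rcases lt_trichotomy i j with h | rfl | h
    · exact Or.inl (key i j b c h t ht)
    · have := ((ord P ht).cp i 1 w 0 z).1
      cases b <;> cases c
      exacts [absurd rfl hne, Or.inl this, Or.inr this, absurd rfl hne]
    · exact Or.inr (key j i c b h t ht)
  · rintro ⟨j, _ | _⟩ t ht
    exacts [(P.low j t ht).1, (P.low j t ht).2]
  · rintro ⟨j, b⟩ t ht y hy
    refine hasSum_pair (fun l => mul_nonneg (mp l).le
      (fd_nonneg hK fun r hr => ((bl l).pos t ht r hr).1.le)) ?_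
    cases b
    exacts [fieldC hK D P ht j hy, fieldP hK D P ht j hy]
  · obtain ⟨j, hj⟩ := (tendsto_M.eventually_ge_atTop A).exists
    refine ⟨(j, false), ?_⟩
    have := M_le_mC j
    have := M_pos j
    change A ≤ mC j
    linarith

end MI34

end MrgPart2

-- marker of a merged file
example : 731051 + 304968 = 731051 + 304968 := rfl
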