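import Mathlib.MeasureTheory.Integral.IntegrableOn
import Pool.Agent.MP_34a893_an.Defs

open MeasureTheory Set Filter Topology

namespace MP34a893

/-- Weak solution of the nonlocal problem with parameter `η` in the class `C([0,T]; L¹_loc)`:
jointly measurable, nonnegative, bounded on `[0,T] × K` for every compact interval `K`, continuous
in time with values in `L¹_loc`, the integral defining `W` converges for every `(t,x)`, the flux
`V(W) q` is integrable on `(0,T) × K`, and the distributional identity holds with datum `q0`. -/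
def IsLocSol (p η T : ℝ) (V γ q0 : ℝ → ℝ) (q : ℝ → ℝ → ℝ) : Prop :=
  Measurable (Function.uncurry q) ∧ (∀ t x, 0 ≤ q t x) ∧
    (∀ a b : ℝ, ∃ B : ℝ, ∀ t ∈ Icc 0 T, ∀ x ∈ Icc a b, q t x ≤ B) ∧ ContL1 T q ∧
    (∀ t ∈ Icc 0 T, ∀ x, IntegrableOn (fun y => (γ ((y - x) / η) * q t y) ^ p) (Ioi x)) ∧
    (∀ a b : ℝ, IntegrableOn (fun z : ℝ × ℝ => V (Wnl p η γ q z.1 z.2) * q z.1 z.2)
      (Ioo 0 T ×ˢ Icc a b)) ∧
    WeakId T q0 q (fun t x => V (Wnl p η γ q t x) * q t x)

end MP34a893
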