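import Mathlib.Topology.Sheaves.Presheaf
import Mathlib.Tactic.Monotonicity.Lemmas
import Mathlib.RingTheory.Finiteness.Prod
import Mathlib.Algebra.Order.Ring.Star
import Mathlib.Algebra.Order.Archimedean.Real.Hom
import Mathlib.Algebra.Order.Star.Real
import Mathlib.Analysis.SpecialFunctions.Sqrt
import Mathlib.Analysis.SpecialFunctions.SmoothTransition
import Mathlib.Analysis.Calculus.LineDeriv.IntegrationByParts
import Mathlib.Analysis.Calculus.ParametricIntervalIntegral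
import Mathlib.Analysis.SpecialFunctions.PolarCoord
import Mathlib.Topology.MetricSpace.Contracting
import Mathlib.Topology.Separation.CompletelyRegular
import Pool.Agent.MP_34a893_an.MI.Defs

-- ======== part 0: formerly Pool.Agent.MP_34a893_an.MI.Spec
section MrgPart0

/-! Statements of the parts of the mass-from-infinity construction. -/

open MeasureTheory Set Filter Topology Function

namespace MI34

/-- smooth step: `0` on `(-∞,0]`, `1` on `[1,∞)` -/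
noncomputable abbrev th : ℝ → ℝ := Real.smoothTransition

theorem deriv_th_zero_of_neg {x : ℝ} (hx : x < 0) : th =ᶠ[𝓝 x] fun _ => 0 := by
  filter_upwards [Iio_mem_nhds hx] with y hy using Real.smoothTransition.zero_of_nonpos (le_of_lt hy)

theorem deriv_th_one_of_gt {x : ℝ} (hx : 1 < x) : th =ᶠ[𝓝 x] fun _ => 1 := by
  filter_upwards [Ioi_mem_nhds hx] with y hy using Real.smoothTransition.one_of_one_le (le_of_lt hy)

theorem exists_bb : ∃ b : ℝ, 1000 ≤ b ∧ (∀ x, |deriv th x| ≤ b) ∧ ∀ x, |deriv (deriv th) x| ≤ b := by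
  have h2 : ContDiff ℝ 2 th := Real.smoothTransition.contDiff
  have h1 : ContDiff ℝ 1 (deriv th) := h2.deriv'
  have c1 : Continuous (deriv th) := h1.continuous
  have c2 : Continuous (deriv (deriv th)) := h1.continuous_deriv le_rfl
  obtain ⟨B1, hB1⟩ := (isCompact_Icc (a := (0:ℝ)) (b := 1)).exists_bound_of_continuousOn c1.continuousOn
  obtain ⟨B2, hB2⟩ := (isCompact_Icc (a := (0:ℝ)) (b := 1)).exists_bound_of_continuousOn c2.continuousOn
  refine ⟨max 1000 (max B1 B2), le_max_left _ _, fun x => ?_, fun x => ?_⟩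
  · rcases lt_or_ge x 0 with h | h
    · rw [(deriv_th_zero_of_neg h).deriv_eq]; simp
    rcases lt_or_ge 1 x with h' | h'
    · rw [(deriv_th_one_of_gt h').deriv_eq]; simp
    exact (hB1 x ⟨h, h'⟩).trans ((le_max_left _ _).trans (le_max_right _ _))
  · rcases lt_or_ge x 0 with h | h
    · rw [(deriv_th_zero_of_neg h).deriv.deriv_eq]; simp
    rcases lt_or_ge 1 x with h' | h'
    · rw [(deriv_th_one_of_gt h').deriv.deriv_eq]; simp
    exact (hB2 x ⟨h, h'⟩).trans ((le_max_right _ _).trans (le_max_right _ _))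

/-! ## Parameters -/

noncomputable def bb : ℝ := Classical.choose exists_bb
noncomputable def N (j : ℕ) : ℝ := bb ^ (30 ^ j)
noncomputable def M (j : ℕ) : ℝ := N (j + 1)
noncomputable def hh (j : ℕ) : ℝ := 2 ^ (j + 1)
noncomputable def nu (j : ℕ) : ℝ := 1 / M j ^ 4
noncomputable def eps (j : ℕ) : ℝ := 1 / (2 * M j ^ 5)
noncomputable def kap (j : ℕ) : ℝ := 1 / M j ^ 8
noncomputable def kaq (j : ℕ) : ℝ := 1 / M j ^ 24
noncomputable def mC (j : ℕ) : ℝ := M j ^ 9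
noncomputable def mP (j : ℕ) : ℝ := M j ^ 25
noncomputable def zb (j : ℕ) : ℝ := M j ^ 11
noncomputable def zq (j : ℕ) : ℝ := M j ^ 17
noncomputable def zl (j : ℕ) : ℝ := 2 * N j ^ 17
noncomputable def EE (j : ℕ) : ℝ := 3 / 2 * M j + N j / 2
noncomputable def sT (j : ℕ) : ℝ := 1 / 2 ^ (j + 2)
noncomputable def psi (j : ℕ) : ℝ := ∑ i ∈ Finset.range j, (hh i + nu i)
noncomputable def rho (j : ℕ) : ℝ := 3 / 2 * ∑ i ∈ Finset.range (j + 1), M i
/-- start position of the right end of `C_j` relative to the left end of `P_j` -/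
noncomputable def xi0 (j : ℕ) : ℝ := -(M j + eps j)

/-- the (unnormalised) kernel `k = sqrt γ` -/
noncomputable def kk (d : ℝ) : ℝ :=
  1 - (1 - kap 0) * th (d - 1) -
    ∑' j, ((kap j - kaq j) * th ((d - M j) / eps j) + (kaq j - kap (j + 1)) * th (d - EE j))

/-- the big step of level `j` -/
noncomputable def Ph0 (j : ℕ) (w : ℝ) : ℝ := hh j * th (w / zb j - 1)

/-- minus the velocity as a function of `Z = ∫ k √q` -/
noncomputable def Phi (R : ℕ → ℝ) (w : ℝ) : ℝ :=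
  ∑' j, (Ph0 j (w - R j) + nu j * th (w / zq j - 1))

/-- field of the rigid blob `P_j` at position `ξ` relative to its left end -/
noncomputable def GG (j : ℕ) (ξ : ℝ) : ℝ := 2 * mP j * ∫ r in (0 : ℝ)..(1 / 4), kk (r - ξ)
noncomputable def dG (j : ℕ) (ξ : ℝ) : ℝ := 2 * mP j * (kk (-ξ) - kk (1 / 4 - ξ))

/-! ## Row VOL: Volterra fixed point, derivative of the width -/

def VolStmt : Prop :=
  ∀ (Y : Type) [TopologicalSpace Y] [FirstCountableTopology Y] (T K B : ℝ)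
    (F : (Y × ℝ → ℝ) → Y → ℝ → ℝ), 0 ≤ T → 0 ≤ K →
    (∀ f, Continuous f → ∀ τ ∈ Ioo 0 T, Continuous fun y => F f y τ) →
    (∀ f, Continuous f → ∀ y, AEStronglyMeasurable (F f y) (volume.restrict (Ioo 0 T))) →
    (∀ f, Continuous f → ∀ y, ∀ τ ∈ Ioo 0 T, |F f y τ| ≤ B) →
    (∀ f g, Continuous f → Continuous g → ∀ τ ∈ Ioo 0 T, ∀ C : ℝ,
      (∀ y, |f (y, τ) - g (y, τ)| ≤ C) → ∀ y, |F f y τ - F g y τ| ≤ K * C) →
    ∃ f : Y × ℝ → ℝ, Continuous f ∧ ∀ y, ∀ t ∈ Icc 0 T, f (y, t) = ∫ τ in (0 : ℝ)..t, F f y τ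

def CharStmt : Prop :=
  ∀ (Ψ : ℝ → ℝ) (a b : ℝ) (s σ ζ : ℝ → ℝ → ℝ), ContDiff ℝ 1 Ψ →
    ContinuousOn (uncurry s) (Ioo a b ×ˢ Icc 0 1) → ContinuousOn (uncurry σ) (Ioo a b ×ˢ Icc 0 1) →
    (∀ y ∈ Icc (0 : ℝ) 1, ∀ t ∈ Ioo a b, HasDerivAt (fun t => s t y) (σ t y) t) →
    (∀ t ∈ Ioo a b, ContinuousOn (ζ t) (Icc 0 1)) →
    (∀ t ∈ Ioo a b, ∀ y ∈ Ioo (0 : ℝ) 1, ∃ ζy, HasDerivAt (ζ t) ζy y ∧
      2 * s t y * σ t y = -(deriv Ψ (ζ t y) * ζy)) →
    ∀ y ∈ Icc (0 : ℝ) 1, ∀ t ∈ Ioo a b,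
      HasDerivAt (fun t => ∫ r in y..1, s t r ^ 2) (Ψ (ζ t y) - Ψ (ζ t 1)) t

/-! ## Row KER -/

structure KFacts : Prop where
  cd : ContDiff ℝ 2 kk
  anti : Antitone kk
  pos : ∀ d, 0 < kk d
  one : ∀ d ≤ 1, kk d = 1
  p1 : ∀ j d, M j / 4 ≤ d → d ≤ M j → kk d = kap j
  p2 : ∀ j d, M j + eps j ≤ d → d ≤ EE j → kk d = kaq j
  p3 : ∀ j d, EE j + 1 ≤ d → d ≤ M (j + 1) → kk d = kap (j + 1)
  lip : ∃ L, ∀ d, |deriv kk d| ≤ L
  int0 : IntegrableOn kk (Ioi 0)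
  int1 : IntegrableOn (deriv fun d => kk d ^ 2) (Ioi 0)
  int2 : IntegrableOn (deriv (deriv fun d => kk d ^ 2)) (Ioi 0)

/-- facts on `GG`, `dG` (proved from `KFacts` in `Basic`) -/
structure GFacts (j : ℕ) : Prop where
  der : ∀ ξ, HasDerivAt (GG j) (dG j ξ) ξ
  cd : Continuous (dG j)
  d0 : ∀ ξ, 0 ≤ dG j ξ ∧ dG j ξ ≤ 2 * mP j
  lip : ∃ L, 0 ≤ L ∧ ∀ ξ ξ', |dG j ξ - dG j ξ'| ≤ L * |ξ - ξ'|
  mono : Monotone (GG j)
  bd : ∀ ξ, 0 ≤ GG j ξ ∧ GG j ξ ≤ mP j / 2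
  foot : ∀ ξ, xi0 j - 1 ≤ ξ → ξ ≤ xi0 j → GG j ξ = M j / 2 ∧ dG j ξ = 0
  high : ∀ ξ, xi0 j + 2 * eps j ≤ ξ → 2 * zb j ≤ GG j ξ
  top : ∀ ξ, ξ ≤ -(M j / 4) → GG j ξ ≤ zq j / 2

/-! ## Row PHI -/

structure PhiFacts (R : ℕ → ℝ) (Φ : ℝ → ℝ) : Prop where
  hR : ∀ j, R j ∈ Icc (0 : ℝ) 1
  cd : ContDiff ℝ 2 Φ
  mono : Monotone Φ
  zero : ∀ w ≤ 1, Φ w = 0
  loc : ∀ j w, zl j ≤ w → w ≤ zq j → Φ w = psi j + Ph0 j (w - R j)
  dloc : ∀ j w, zl j ≤ w → w ≤ zq j → deriv Φ w = deriv (Ph0 j) (w - R j)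
  d0 : ∀ j w, zl j ≤ w → 0 ≤ deriv Φ w ∧ deriv Φ w ≤ 1 / M j ^ 10
  lip0 : ∀ j w w', zl j ≤ w → zl j ≤ w' → |Φ w - Φ w'| ≤ |w - w'| / M j ^ 10
  lip1 : ∀ j w w', zl j ≤ w → zl j ≤ w' → |deriv Φ w - deriv Φ w'| ≤ |w - w'| / M j ^ 21

def PhiStmt : Prop := ∀ R : ℕ → ℝ, (∀ j, R j ∈ Icc (0 : ℝ) 1) → PhiFacts R (Phi R)

/-! ## Rows LEVA, LEVB: the compression of `C_j` -/

structure Level (j : ℕ) (s ξ : ℝ → ℝ → ℝ) : Prop where
  cs : Continuous (uncurry s)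
  cξ : Continuous (uncurry ξ)
  pos : ∀ t ∈ Icc (0 : ℝ) 1, ∀ y ∈ Icc (0 : ℝ) 1, 0 < s t y ∧ s t y ≤ 1
  hξ : ∀ t ∈ Icc (0 : ℝ) 1, ∀ y ∈ Icc (0 : ℝ) 1, ξ t y = ξ t 1 - ∫ r in y..1, s t r ^ 2
  ode : ∀ t ∈ Icc (0 : ℝ) 1, ∀ y ∈ Icc (0 : ℝ) 1, s t y = 1 / 2 + ∫ τ in (0 : ℝ)..t,
    1 / 2 * deriv (Ph0 j) (mC j * (∫ r in y..1, s τ r) + GG j (ξ τ y)) *
      (mC j - dG j (ξ τ y) * s τ y)
  odeR : ∀ t ∈ Icc (0 : ℝ) 1,
    ξ t 1 = xi0 j + ∫ τ in (0 : ℝ)..t, (hh j + nu j - Ph0 j (GG j (ξ τ 1)))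

structure LevelEst (j : ℕ) (s ξ : ℝ → ℝ → ℝ) : Prop where
  rigid : ∀ t ∈ Icc (sT j) 1, ∀ y ∈ Icc (0 : ℝ) 1, s t y = s (sT j) y
  small : ∫ r in (0 : ℝ)..1, s (sT j) r ≤ 1 / M j ^ 2
  range : ∀ t ∈ Icc (0 : ℝ) 1, ∀ y ∈ Icc (0 : ℝ) 1,
    xi0 j - 1 / 4 ≤ ξ t y ∧ ξ t y ≤ xi0 j + hh j + nu j

def LevAStmt : Prop := ∀ j, ∃ s ξ, Level j s ξ
def LevBStmt : Prop := ∀ j s ξ, Level j s ξ → LevelEst j s ξ

/-! ## Row BACK: all blobs before their terminal times -/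

/-- far field of the levels above `j` -/
noncomputable def tail (aC aP : ℕ → ℝ → ℝ) (j : ℕ) (t : ℝ) : ℝ :=
  ∑' i, (kap (j + 1 + i) * aC (j + 1 + i) t + kap (j + 1 + i + 1) * aP (j + 1 + i) t)

/-- admissible `p`-masses on `(0, 1/2]` -/
structure Mass (aC aP : ℕ → ℝ → ℝ) : Prop where
  cC : ∀ j, ContinuousOn (aC j) (Ioc 0 (1 / 2))
  cP : ∀ j, ContinuousOn (aP j) (Ioc 0 (1 / 2))
  bC : ∀ j, ∀ t ∈ Ioc (0 : ℝ) (1 / 2), 0 ≤ aC j t ∧ aC j t ≤ mC j
  early : ∀ j, ∀ t ∈ Ioc (0 : ℝ) (1 / 2), t ≤ sT j → mC j / 4 ≤ aC j t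
  late : ∀ j, ∀ t ∈ Ioc (0 : ℝ) (1 / 2), 2 * sT j ≤ t → aC j t ≤ M j ^ 7
  bP : ∀ j, ∀ t ∈ Ioc (0 : ℝ) (1 / 2), mP j / 4 ≤ aP j t ∧ aP j t ≤ mP j / 2

/-- facts on the far field (proved in `Basic`) -/
structure TailFacts (aC aP : ℕ → ℝ → ℝ) : Prop where
  sm : ∀ j, ∀ t ∈ Ioc (0 : ℝ) (1 / 2), Summable fun i =>
    kap (j + 1 + i) * aC (j + 1 + i) t + kap (j + 1 + i + 1) * aP (j + 1 + i) t
  cont : ∀ j, ContinuousOn (tail aC aP j) (Ioc 0 (1 / 2))
  nn : ∀ j, ∀ t ∈ Ioc (0 : ℝ) (1 / 2), 0 ≤ tail aC aP j t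
  succ : ∀ j, ∀ t ∈ Ioc (0 : ℝ) (1 / 2), tail aC aP j t =
    kap (j + 1) * aC (j + 1) t + kap (j + 2) * aP (j + 1) t + tail aC aP (j + 1) t
  small : ∀ j, ∀ t ∈ Ioc (0 : ℝ) (1 / 2), sT j ≤ t → tail aC aP j t ≤ 1
  mid : ∀ j, ∀ t ∈ Ioc (0 : ℝ) (1 / 2), sT (j + 1) ≤ t → tail aC aP j t ≤ M (j + 1) + 2
  big : ∀ i j, i < j → ∀ t ∈ Ioc (0 : ℝ) (1 / 2), t ≤ sT j → M j / 4 ≤ tail aC aP i t
  diff : ∀ i j, i ≤ j → ∀ t ∈ Ioc (0 : ℝ) (1 / 2),
    tail aC aP j t ≤ tail aC aP i t ∧ tail aC aP i t ≤ tail aC aP j t + 3 * M j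

noncomputable def amC (α : ℕ → ℝ → ℝ) (δ : ℕ → ℝ → ℝ → ℝ) (j : ℕ) (t : ℝ) : ℝ :=
  α j t - mC j * ∫ r in (0 : ℝ)..1, δ j t r
noncomputable def amP (δ : ℕ → ℝ → ℝ → ℝ) (j : ℕ) (t : ℝ) : ℝ :=
  mP j / 2 - mP j * ∫ r in (0 : ℝ)..1, δ j t r

structure Back (Φ : ℝ → ℝ) (α : ℕ → ℝ → ℝ) (δC δP : ℕ → ℝ → ℝ → ℝ) : Prop where
  cC : ∀ j, Continuous (uncurry (δC j))
  cP : ∀ j, Continuous (uncurry (δP j))
  bC : ∀ j, ∀ t ∈ Icc (0 : ℝ) (1 / 2), ∀ y, 0 ≤ δC j t y ∧ δC j t y ≤ max (sT j - t) 0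
  bP : ∀ j, ∀ t ∈ Icc (0 : ℝ) (1 / 2), ∀ y, 0 ≤ δP j t y ∧ δP j t y ≤ max (sT (j + 1) - t) 0
  odeC : ∀ j, ∀ t ∈ Icc 0 (sT j), ∀ y ∈ Icc (0 : ℝ) 1, δC j t y = ∫ τ in t..sT j,
    1 / 2 * mC j * deriv Φ (mC j * (∫ r in y..1, (1 / 2 - δC j τ r)) + kaq j * amP δP j τ +
      tail (amC α δC) (amP δP) j τ)
  odeP : ∀ j, ∀ t ∈ Icc 0 (sT (j + 1)), ∀ y ∈ Icc (0 : ℝ) 1, δP j t y = ∫ τ in t..sT (j + 1),
    1 / 2 * mP j * deriv Φ (mP j * (∫ r in y..1, (1 / 2 - δP j τ r)) +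
      (kaq (j + 1) - kap (j + 2)) * amP δP (j + 1) τ + tail (amC α δC) (amP δP) j τ)

def BackStmt : Prop :=
  ∀ (R : ℕ → ℝ) (Φ : ℝ → ℝ) (α : ℕ → ℝ → ℝ), PhiFacts R Φ → (∀ j, Continuous (α j)) →
    (∀ j t, t ≤ sT j → α j t = mC j / 2) →
    (∀ j, ∀ t ∈ Ioc (0 : ℝ) (1 / 2), 0 ≤ α j t ∧ α j t ≤ mC j) →
    (∀ j, ∀ t ∈ Ioc (0 : ℝ) (1 / 2), 2 * sT j ≤ t → α j t ≤ M j ^ 7) →
    ∃ δC δP, Back Φ α δC δP

/-! ## Rows DYN, GEO: the Lagrangian solution -/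

/-- one blob: `X t y` position of the label `y ∈ [0,1]`, `∂_y X = s²`, velocity `-v` -/
structure Blob (T : ℝ) (X s v : ℝ → ℝ → ℝ) : Prop where
  cX : ContinuousOn (uncurry X) (Ioc 0 T ×ˢ Icc 0 1)
  cs : ContinuousOn (uncurry s) (Ioc 0 T ×ˢ Icc 0 1)
  cv : ContinuousOn (uncurry v) (Ioc 0 T ×ˢ Icc 0 1)
  pos : ∀ t ∈ Ioc 0 T, ∀ y ∈ Icc (0 : ℝ) 1, 0 < s t y ∧ s t y ≤ 1
  hX : ∀ t ∈ Ioc 0 T, ∀ y ∈ Icc (0 : ℝ) 1, X t y = X t 1 - ∫ r in y..1, s t r ^ 2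
  dX : ∀ y ∈ Icc (0 : ℝ) 1, ∀ t ∈ Ioo 0 T, HasDerivAt (fun t => X t y) (-v t y) t

structure Dyn (Φ : ℝ → ℝ) (XC XP sC sP ζC ζP : ℕ → ℝ → ℝ → ℝ) (aC aP : ℕ → ℝ → ℝ) : Prop where
  blobC : ∀ j, Blob (1 / 2) (XC j) (sC j) fun t y => Φ (ζC j t y)
  blobP : ∀ j, Blob (1 / 2) (XP j) (sP j) fun t y => Φ (ζP j t y)
  mass : Mass aC aP
  haC : ∀ j, ∀ t ∈ Ioc (0 : ℝ) (1 / 2), aC j t = mC j * ∫ r in (0 : ℝ)..1, sC j t r
  haP : ∀ j, ∀ t ∈ Ioc (0 : ℝ) (1 / 2), aP j t = mP j * ∫ r in (0 : ℝ)..1, sP j t r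
  hζP : ∀ j, ∀ t ∈ Ioc (0 : ℝ) (1 / 2), ∀ y ∈ Icc (0 : ℝ) 1, ζP j t y =
    mP j * (∫ r in y..1, sP j t r) + (kaq (j + 1) - kap (j + 2)) * aP (j + 1) t + tail aC aP j t
  hζ1 : ∀ j, ∀ t ∈ Ioc (0 : ℝ) (1 / 2), t ≤ sT j → ∀ y ∈ Icc (0 : ℝ) 1, ζC j t y =
    mC j * (∫ r in y..1, sC j t r) + kaq j * aP j t + tail aC aP j t
  hζ2 : ∀ j, ∀ t ∈ Ioc (0 : ℝ) (1 / 2), sT j ≤ t → ∀ y ∈ Icc (0 : ℝ) 1, ζC j t y =
    mC j * (∫ r in y..1, sC j t r) + GG j (XC j t y - XP j t 0) + tail aC aP j t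
  rigidP : ∀ j, ∀ t ∈ Ioc (0 : ℝ) (1 / 2), sT (j + 1) ≤ t → ∀ y ∈ Icc (0 : ℝ) 1, sP j t y = 1 / 2
  rel : ∀ j, ∀ t ∈ Ioc (0 : ℝ) (1 / 2), sT j ≤ t → ∀ y ∈ Icc (0 : ℝ) 1,
    xi0 j - 1 / 4 ≤ XC j t y - XP j t 0 ∧ XC j t y - XP j t 0 ≤ xi0 j + hh j + nu j
  start : ∀ j, XC j (sT j) 1 - XP j (sT j) 0 = xi0 j
  fin : ∀ j, XP j (1 / 2) 0 = rho j

def DynStmt : Prop :=
  ∃ (R : ℕ → ℝ) (Φ : ℝ → ℝ) (XC XP sC sP ζC ζP : ℕ → ℝ → ℝ → ℝ) (aC aP : ℕ → ℝ → ℝ),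
    PhiFacts R Φ ∧ Dyn Φ XC XP sC sP ζC ζP aC aP

/-- positions of the blobs (row POS) -/
structure Pos (XC XP : ℕ → ℝ → ℝ → ℝ) : Prop where
  near : ∀ j, ∀ t ∈ Ioc (0 : ℝ) (1 / 2), ∃ c, ∀ i ≤ j, ∀ y ∈ Icc (0 : ℝ) 1,
    |XC i t y - (rho i - M i) - c| ≤ N j / 32 ∧ |XP i t y - rho i - c| ≤ N j / 32
  foot : ∀ j, ∀ t ∈ Ioc (0 : ℝ) (1 / 2), t ≤ sT j → XC j t 1 - XP j t 0 ≤ xi0 j
  low : ∀ j : ℕ, ∀ t ∈ Ioc (0 : ℝ) (1 / 2), (j : ℝ) ≤ XC j t 0 ∧ (j : ℝ) ≤ XP j t 0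
  far : ∀ j A, ∃ t0 > 0, ∀ t ∈ Ioc (0 : ℝ) (1 / 2), t ≤ t0 → A ≤ XC j t 0 ∧ A ≤ XP j t 0

def PosStmt : Prop :=
  ∀ R Φ XC XP sC sP ζC ζP aC aP, PhiFacts R Φ → Dyn Φ XC XP sC sP ζC ζP aC aP → Pos XC XP

/-- Lagrangian solution: blobs indexed by `ℕ × Bool` -/
structure Lag (k Φ : ℝ → ℝ) (T : ℝ) (m : ℕ × Bool → ℝ) (X s ζ : ℕ × Bool → ℝ → ℝ → ℝ) : Prop where
  mpos : ∀ n, 0 < m n
  blob : ∀ n, Blob T (X n) (s n) fun t y => Φ (ζ n t y)
  far : ∀ n A, ∃ t0 > 0, ∀ t ∈ Ioc 0 T, t ≤ t0 → A ≤ X n t 0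
  disj : ∀ n l, n ≠ l → ∀ t ∈ Ioc 0 T, X n t 1 < X l t 0 ∨ X l t 1 < X n t 0
  low : ∀ n, ∀ t ∈ Ioc 0 T, (n.1 : ℝ) ≤ X n t 0
  field : ∀ n, ∀ t ∈ Ioc 0 T, ∀ y ∈ Icc (0 : ℝ) 1, HasSum (fun l => m l * ∫ r in (0 : ℝ)..1,
    (if X n t y < X l t r then k (X l t r - X n t y) else 0) * s l t r) (ζ n t y)
  heavy : ∀ A, ∃ n, A ≤ m n

def LagStmt : Prop :=
  ∃ (Φ : ℝ → ℝ) (m : ℕ × Bool → ℝ) (X s ζ : ℕ × Bool → ℝ → ℝ → ℝ),
    ContDiff ℝ 2 Φ ∧ Monotone Φ ∧ (∀ w ≤ 1, Φ w = 0) ∧ Lag kk Φ (1 / 2) m X s ζ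

/-! ## Rows BLOB, WEAK, SUM: Eulerian picture -/

/-- density `q` and flux `w` of one blob of mass `m²` -/
structure Dens (T m : ℝ) (X s v q w : ℝ → ℝ → ℝ) : Prop where
  mq : Measurable (uncurry q)
  mw : Measurable (uncurry w)
  val : ∀ t x, (q t x = 0 ∧ w t x = 0) ∨ (t ∈ Ioc 0 T ∧ ∃ y ∈ Ioo (0 : ℝ) 1,
    x = X t y ∧ q t x = m ^ 2 / s t y ^ 2 ∧ w t x = -v t y * q t x)
  onto : ∀ t ∈ Ioc 0 T, ∀ y ∈ Ioo (0 : ℝ) 1, q t (X t y) = m ^ 2 / s t y ^ 2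
  bd : ∀ t0 ∈ Ioc 0 T, ∃ B, ∀ t ∈ Icc t0 T, ∀ x, q t x ≤ B ∧ |w t x| ≤ B
  chq : ∀ t ∈ Ioc 0 T, ∀ g : ℝ → ℝ,
    ∫ x, g x * q t x = m ^ 2 * ∫ r in (0 : ℝ)..1, g (X t r)
  chw : ∀ t ∈ Ioc 0 T, ∀ g : ℝ → ℝ,
    ∫ x, g x * w t x = -(m ^ 2 * ∫ r in (0 : ℝ)..1, g (X t r) * v t r)
  chs : ∀ t ∈ Ioc 0 T, ∀ g : ℝ → ℝ,
    ∫ x, g x * √(q t x) = m * ∫ r in (0 : ℝ)..1, g (X t r) * s t r
  cont : ∀ t0 ∈ Ioc 0 T, Tendsto (fun t => ∫ x, |q t x - q t0 x|) (𝓝[Ioc 0 T] t0) (𝓝 0)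

def BlobStmt : Prop :=
  ∀ (T m : ℝ) (X s v : ℝ → ℝ → ℝ), 0 < m → Blob T X s v → ∃ q w, Dens T m X s v q w

def WeakStmt : Prop :=
  ∀ (T m : ℝ) (X s v q w : ℝ → ℝ → ℝ), 0 < T → 0 < m → Blob T X s v → Dens T m X s v q w →
    (∀ A, ∃ t0 > 0, ∀ t ∈ Ioc 0 T, t ≤ t0 → A ≤ X t 0) →
    ∀ φ : ℝ × ℝ → ℝ, ContDiff ℝ 1 φ → HasCompactSupport φ → tsupport φ ⊆ Iio T ×ˢ univ →
      IntegrableOn (fun z : ℝ × ℝ =>
        q z.1 z.2 * fderiv ℝ φ z (1, 0) + w z.1 z.2 * fderiv ℝ φ z (0, 1)) (Ioo 0 T ×ˢ univ) ∧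
      ∫ z in Ioo 0 T ×ˢ univ,
        (q z.1 z.2 * fderiv ℝ φ z (1, 0) + w z.1 z.2 * fderiv ℝ φ z (0, 1)) = 0

/-- the field `Z = ∫_x^∞ k(y - x) √q dy` -/
noncomputable def ZZ (k : ℝ → ℝ) (q : ℝ → ℝ → ℝ) (t x : ℝ) : ℝ :=
  ∫ y in Ioi x, k (y - x) * √(q t y)

structure Euler (k Φ : ℝ → ℝ) (T : ℝ) (q : ℝ → ℝ → ℝ) : Prop where
  mq : Measurable (uncurry q)
  mw : Measurable (uncurry fun t x => Φ (ZZ k q t x) * q t x)
  nn : ∀ t x, 0 ≤ q t x
  zero : ∀ t ≤ 0, ∀ x, q t x = 0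
  lb : ∀ a b : ℝ, ∃ B, ∀ t ≤ T, ∀ x ∈ Icc a b, q t x ≤ B ∧ |Φ (ZZ k q t x) * q t x| ≤ B
  cont : ∀ a b : ℝ, ∀ t0 ≤ T,
    Tendsto (fun t => ∫ x in Icc a b, |q t x - q t0 x|) (𝓝[Iic T] t0) (𝓝 0)
  int : ∀ t ≤ T, ∀ x, IntegrableOn (fun y => k (y - x) * √(q t y)) (Ioi x)
  weak : ∀ φ : ℝ × ℝ → ℝ, ContDiff ℝ 1 φ → HasCompactSupport φ → tsupport φ ⊆ Iio T ×ˢ univ →
    ∫ z in Ioo 0 T ×ˢ univ, (q z.1 z.2 * fderiv ℝ φ z (1, 0) +
      -Φ (ZZ k q z.1 z.2) * q z.1 z.2 * fderiv ℝ φ z (0, 1)) = 0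
  heavy : ∀ A, ∃ β, A ≤ ∫ x in Icc β (β + 1), q T x

def SumStmt : Prop :=
  ∀ (k Φ : ℝ → ℝ) (T : ℝ) (m : ℕ × Bool → ℝ) (X s ζ : ℕ × Bool → ℝ → ℝ → ℝ), 0 < T →
    Continuous k → Antitone k → (∀ d, 0 ≤ k d) → Lag k Φ T m X s ζ → ∃ q, Euler k Φ T q

/-! ## Row FIN -/

def MainStmt : Prop :=
  ∃ (p : ℝ) (V γ : ℝ → ℝ), 0 < p ∧ p < 1 ∧ ContDiff ℝ 2 V ∧ (∀ w, deriv V w ≤ 0) ∧
    ContDiff ℝ 2 γ ∧ (∀ s, 0 ≤ γ s) ∧ Antitone γ ∧ IntegrableOn γ (Ioi 0) ∧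
    IntegrableOn (deriv γ) (Ioi 0) ∧ IntegrableOn (deriv (deriv γ)) (Ioi 0) ∧
    ∫ s in Ioi (0 : ℝ), γ s ^ p = 1 ∧
    ∀ T : ℝ, 0 < T → MP34a893.IsEntropySol T V (fun _ => 0) (fun _ _ => 0) ∧
      ∃ q : ℝ → ℝ → ℝ → ℝ, (∀ η, 0 < η → MP34a893.IsLocSol p η T V γ (fun _ => 0) (q η)) ∧
        ∀ qs, MP34a893.IsEntropySol T V (fun _ => 0) qs →
          Tendsto (fun η => ∫ x in Icc (0 : ℝ) 1, |q η T x - qs T x|) (𝓝[>] 0) atTop

end MI34

end MrgPart0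

-- ======== part 1: formerly Pool.Agent.MP_34a893_an.MI.Vol
section MrgPart1

/-! The Volterra fixed point and the derivative along characteristics. -/

open MeasureTheory Set Filter Topology Function

namespace MI34

namespace Vol

/-- clamp to `[0,T]` -/
def cl (T t : ℝ) : ℝ := max 0 (min t T)

theorem cl_cont (T : ℝ) : Continuous (cl T) := by unfold cl; fun_prop

theorem cl_mem {T : ℝ} (hT : 0 ≤ T) (t : ℝ) : cl T t ∈ Icc 0 T :=
  ⟨le_max_left _ _, max_le hT (min_le_right _ _)⟩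

theorem cl_eq {T t : ℝ} (ht : t ∈ Icc 0 T) : cl T t = t := by
  rw [cl, min_eq_left ht.2, max_eq_right ht.1]

theorem ind_bd {T B : ℝ} {g : ℝ → ℝ} (hb : ∀ τ ∈ Ioo 0 T, |g τ| ≤ B) (τ : ℝ) :
    ‖(Ioo 0 T).indicator g τ‖ ≤ |B| := by
  by_cases h : τ ∈ Ioo 0 T
  · rw [indicator_of_mem h]; exact (hb τ h).trans (le_abs_self B)
  · rw [indicator_of_notMem h, norm_zero]; exact abs_nonneg B

theorem ind_int {T B : ℝ} {g : ℝ → ℝ} (hm : AEStronglyMeasurable g (volume.restrict (Ioo 0 T)))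
    (hb : ∀ τ ∈ Ioo 0 T, |g τ| ≤ B) (a b : ℝ) :
    IntervalIntegrable ((Ioo 0 T).indicator g) volume a b :=
  (intervalIntegrable_const (c := |B|)).mono_fun'
    ((aestronglyMeasurable_indicator_iff measurableSet_Ioo).2 hm).restrict
    (Eventually.of_forall (ind_bd hb))

theorem prim_cont {Y : Type} [TopologicalSpace Y] [FirstCountableTopology Y] {T B : ℝ} (hT : 0 ≤ T)
    {G : Y → ℝ → ℝ} (hc : ∀ τ ∈ Ioo 0 T, Continuous fun y => G y τ)
    (hm : ∀ y, AEStronglyMeasurable (G y) (volume.restrict (Ioo 0 T)))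
    (hb : ∀ y, ∀ τ ∈ Ioo 0 T, |G y τ| ≤ B) :
    Continuous fun p : Y × ℝ => ∫ τ in (0 : ℝ)..cl T p.2, (Ioo 0 T).indicator (G p.1) τ := by
  refine continuous_iff_continuousAt.2 fun p => ?_
  have hp := cl_mem hT p.2
  have h := intervalIntegral.continuousAt_parametric_primitive_of_dominated (μ := volume)
    (F := fun y => (Ioo 0 T).indicator (G y)) (fun _ => |B|) (-1) (T + 1) (a₀ := 0)
    (b₀ := cl T p.2) (x₀ := p.1)
    (fun y => ((aestronglyMeasurable_indicator_iff measurableSet_Ioo).2 (hm y)).restrict)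
    (Eventually.of_forall fun y => Eventually.of_forall (ind_bd (hb y))) intervalIntegrable_const
    (Eventually.of_forall fun τ => by
      by_cases h : τ ∈ Ioo 0 T
      · simp only [indicator_of_mem h]; exact (hc τ h).continuousAt
      · simp only [indicator_of_notMem h]; exact continuousAt_const)
    ⟨by linarith, by linarith⟩ ⟨by linarith [hp.1], by linarith [hp.2]⟩ (measure_singleton _)
  exact h.comp (f := fun p : Y × ℝ => (p.1, cl T p.2))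
    (continuous_fst.prodMk ((cl_cont T).comp continuous_snd)).continuousAt

theorem int_exp (K s : ℝ) :
    ∫ τ in (0 : ℝ)..s, K * Real.exp (2 * K * τ) = (Real.exp (2 * K * s) - 1) / 2 := by
  rw [intervalIntegral.integral_eq_sub_of_hasDerivAt (f := fun τ => Real.exp (2 * K * τ) / 2)
    (fun τ _ => ?_) (Continuous.intervalIntegrable (by fun_prop) _ _)]
  · simp; ring
  · exact ((((hasDerivAt_id' τ).const_mul (2 * K)).exp).div_const 2).congr_deriv (by ring)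

end Vol

open Vol

theorem vol : VolStmt := by
  intro Y _ _ T K B F hT hK hc hm hb hl
  let w : BoundedContinuousFunction (Y × ℝ) ℝ → Y × ℝ → ℝ :=
    fun g p => Real.exp (2 * K * cl T p.2) * g p
  have hcl := cl_cont T
  have hw : ∀ g, Continuous (w g) := fun g => by
    have := g.continuous
    fun_prop
  let P : (Y × ℝ → ℝ) → Y × ℝ → ℝ :=
    fun f p => ∫ τ in (0 : ℝ)..cl T p.2, (Ioo 0 T).indicator (F f p.1) τ
  have hP : ∀ g, Continuous (P (w g)) := fun g =>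
    prim_cont hT (hc _ (hw g)) (hm _ (hw g)) (hb _ (hw g))
  have he : ∀ t, Real.exp (-(2 * K * cl T t)) ≤ 1 := fun t =>
    Real.exp_le_one_iff.2 (neg_nonpos.2 (mul_nonneg (by linarith) (cl_mem hT t).1))
  let Γ : BoundedContinuousFunction (Y × ℝ) ℝ → BoundedContinuousFunction (Y × ℝ) ℝ := fun g =>
    BoundedContinuousFunction.ofNormedAddCommGroup
      (fun p => Real.exp (-(2 * K * cl T p.2)) * P (w g) p)
      (by have := hP g; fun_prop) (|B| * T) fun p => by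
        have h1 : ‖P (w g) p‖ ≤ |B| * |cl T p.2 - 0| :=
          intervalIntegral.norm_integral_le_of_norm_le_const fun τ _ => ind_bd (hb _ (hw g) _) τ
        rw [sub_zero, abs_of_nonneg (cl_mem hT _).1] at h1
        rw [norm_mul, Real.norm_of_nonneg (Real.exp_pos _).le]
        calc _ ≤ 1 * (|B| * T) := by
              gcongr
              · exact he _
              · exact h1.trans (mul_le_mul_of_nonneg_left (cl_mem hT _).2 (abs_nonneg B))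
          _ = _ := one_mul _
  have hΓ : ContractingWith (1 / 2) Γ := by
    refine ⟨by norm_num, LipschitzWith.of_dist_le_mul fun g g' => ?_⟩
    refine (BoundedContinuousFunction.dist_le (by positivity)).2 fun p => ?_
    have hs := cl_mem hT p.2
    have h1 : ‖P (w g) p - P (w g') p‖ ≤
        ∫ τ in (0 : ℝ)..cl T p.2, K * Real.exp (2 * K * τ) * dist g g' := by
      rw [← intervalIntegral.integral_sub (ind_int (hm _ (hw g) _) (hb _ (hw g) _) _ _)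
        (ind_int (hm _ (hw g') _) (hb _ (hw g') _) _ _)]
      refine intervalIntegral.norm_integral_le_of_norm_le hs.1 (Eventually.of_forall fun τ _ => ?_)
        (Continuous.intervalIntegrable (by fun_prop) _ _)
      by_cases h : τ ∈ Ioo 0 T
      · rw [indicator_of_mem h, indicator_of_mem h, mul_assoc]
        refine hl _ _ (hw g) (hw g') τ h _ (fun y => ?_) _
        simp only [w]
        rw [← mul_sub, abs_mul, abs_of_pos (Real.exp_pos _), cl_eq (Ioo_subset_Icc_self h)]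
        exact mul_le_mul_of_nonneg_left (g.dist_coe_le_dist (g := g') _) (Real.exp_pos _).le
      · rw [indicator_of_notMem h, indicator_of_notMem h, sub_zero, norm_zero]; positivity
    rw [intervalIntegral.integral_mul_const, int_exp] at h1
    change dist (Real.exp (-(2 * K * cl T p.2)) * P (w g) p)
      (Real.exp (-(2 * K * cl T p.2)) * P (w g') p) ≤ _
    rw [dist_eq_norm, ← mul_sub, norm_mul, Real.norm_of_nonneg (Real.exp_pos _).le]
    have h2 : Real.exp (-(2 * K * cl T p.2)) * Real.exp (2 * K * cl T p.2) = 1 := by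
      rw [← Real.exp_add]; simp
    have h3 := Real.exp_pos (-(2 * K * cl T p.2))
    have h4 : 0 ≤ dist g g' := dist_nonneg
    calc _ ≤ Real.exp (-(2 * K * cl T p.2)) * (Real.exp (2 * K * cl T p.2) / 2 * dist g g') := by
          gcongr
          exact h1.trans (by gcongr; linarith)
      _ = _ := by push_cast; linear_combination (dist g g' / 2) * h2
  let g := hΓ.fixedPoint Γ
  have hg : Γ g = g := hΓ.fixedPoint_isFixedPt
  refine ⟨w g, hw g, fun y t ht => ?_⟩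
  have h1 : Real.exp (-(2 * K * cl T t)) * P (w g) (y, t) = g (y, t) :=
    DFunLike.congr_fun hg (y, t)
  have h2 : w g (y, t) = P (w g) (y, t) := by
    change Real.exp (2 * K * cl T t) * g (y, t) = _
    rw [← h1, ← mul_assoc, ← Real.exp_add]; simp
  rw [h2]
  change ∫ τ in (0 : ℝ)..cl T t, (Ioo 0 T).indicator (F (w g) y) τ = _
  rw [cl_eq ht, intervalIntegral.integral_of_le ht.1, intervalIntegral.integral_of_le ht.1,
    integral_Ioc_eq_integral_Ioo, integral_Ioc_eq_integral_Ioo]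
  exact setIntegral_congr_fun measurableSet_Ioo fun τ hτ =>
    indicator_of_mem (Ioo_subset_Ioo_right ht.2 hτ) _

theorem char : CharStmt := by
  intro Ψ a b s σ ζ hΨ hs hσ hd hζ hζd y hy t ht
  obtain ⟨l, u, htlu, hN, hsub⟩ := exists_Icc_mem_subset_of_mem_nhds (Ioo_mem_nhds ht.1 ht.2)
  have hI : uIoc y 1 ⊆ Icc 0 1 := by
    rw [uIoc_of_le hy.2]; exact fun r hr => ⟨hy.1.trans hr.1.le, hr.2⟩
  have hII : uIcc y 1 ⊆ Icc 0 1 := by
    rw [uIcc_of_le hy.2]; exact Icc_subset_Icc_left hy.1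
  have hG : ContinuousOn (fun p : ℝ × ℝ => 2 * uncurry s p * uncurry σ p) (Ioo a b ×ˢ Icc 0 1) :=
    (continuousOn_const.mul hs).mul hσ
  obtain ⟨C, hC⟩ := (isCompact_Icc.prod isCompact_Icc).exists_bound_of_continuousOn
    (hG.mono (prod_mono hsub (Subset.refl (Icc (0 : ℝ) 1))))
  have sl : ∀ {g : ℝ × ℝ → ℝ}, ContinuousOn g (Ioo a b ×ˢ Icc 0 1) → ∀ x ∈ Ioo a b,
      ContinuousOn (fun r => g (x, r)) (Icc 0 1) := fun hg x hx =>
    hg.comp (Continuous.prodMk_right x).continuousOn fun r hr => ⟨hx, hr⟩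
  have h := intervalIntegral.hasDerivAt_integral_of_dominated_loc_of_deriv_le (μ := volume)
    (a := y) (b := 1) (F := fun t r => s t r ^ 2) (F' := fun t r => 2 * s t r * σ t r) (x₀ := t)
    (bound := fun _ => C) hN
    (by filter_upwards [Ioo_mem_nhds ht.1 ht.2] with x hx
        exact (((sl hs x hx).pow 2).mono hI).aestronglyMeasurable measurableSet_uIoc)
    (((sl hs t ht).pow 2).mono hII).intervalIntegrable
    (((sl hG t ht).mono hI).aestronglyMeasurable measurableSet_uIoc)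
    (Eventually.of_forall fun r hr x hx => hC (x, r) ⟨hx, hI hr⟩) intervalIntegrable_const
    (Eventually.of_forall fun r hr x hx =>
      ((hd r (hI hr) x (hsub hx)).fun_pow 2).congr_deriv (by simp))
  refine h.2.congr_deriv ?_
  rw [intervalIntegral.integral_eq_sub_of_hasDerivAt_of_le (f := fun r => -Ψ (ζ t r)) hy.2
    (hΨ.continuous.comp_continuousOn ((hζ t ht).mono (Icc_subset_Icc_left hy.1))).neg
    (fun r hr => ?_) h.1]
  · ring
  · obtain ⟨ζy, h1, h2⟩ := hζd t ht r ⟨hy.1.trans_lt hr.1, hr.2⟩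
    rw [h2]
    exact ((hΨ.differentiable one_ne_zero _).hasDerivAt.comp r h1).neg

end MI34

end MrgPart1

-- ======== part 2: formerly Pool.Agent.MP_34a893_an.MI.Num
section MrgPart2

/-! Numerical facts on the parameters and on the local step `Ph0`. -/

open MeasureTheory Set Filter Topology Function

namespace MI34

theorem bb_ge : 1000 ≤ bb := (Classical.choose_spec exists_bb).1
theorem abs_dth_le (x : ℝ) : |deriv th x| ≤ bb := (Classical.choose_spec exists_bb).2.1 x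
theorem abs_ddth_le (x : ℝ) : |deriv (deriv th) x| ≤ bb := (Classical.choose_spec exists_bb).2.2 x
theorem th_cd {n : ℕ∞} : ContDiff ℝ n th := Real.smoothTransition.contDiff
theorem th_diff : Differentiable ℝ th := (th_cd (n := 1)).differentiable (by simp)
theorem dth_cd : ContDiff ℝ 1 (deriv th) := (th_cd (n := 2)).deriv'
theorem dth_diff : Differentiable ℝ (deriv th) := dth_cd.differentiable (by simp)
theorem th_zero {x : ℝ} (h : x ≤ 0) : th x = 0 := Real.smoothTransition.zero_of_nonpos h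
theorem th_one {x : ℝ} (h : 1 ≤ x) : th x = 1 := Real.smoothTransition.one_of_one_le h
theorem th_nonneg (x : ℝ) : 0 ≤ th x := Real.smoothTransition.nonneg x
theorem th_le_one (x : ℝ) : th x ≤ 1 := Real.smoothTransition.le_one x
theorem th_mono : Monotone th := Real.smoothTransition.monotone
theorem dth_nonneg (x : ℝ) : 0 ≤ deriv th x := th_mono.deriv_nonneg

theorem eq_of_cont_left {f : ℝ → ℝ} (hf : Continuous f) {a c : ℝ} (h : ∀ x < a, f x = c) :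
    ∀ x ≤ a, f x = c := by
  have : closure (Iio a) ⊆ {x | f x = c} :=
    closure_minimal h (isClosed_eq hf continuous_const)
  intro x hx; exact this (by rw [closure_Iio]; exact hx)

theorem eq_of_cont_right {f : ℝ → ℝ} (hf : Continuous f) {a c : ℝ} (h : ∀ x, a < x → f x = c) :
    ∀ x, a ≤ x → f x = c := by
  have : closure (Ioi a) ⊆ {x | f x = c} :=
    closure_minimal h (isClosed_eq hf continuous_const)
  intro x hx; exact this (by rw [closure_Ioi]; exact hx)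

theorem dth_zero_left {x : ℝ} (h : x ≤ 0) : deriv th x = 0 :=
  eq_of_cont_left dth_cd.continuous
    (fun y hy => by rw [(deriv_th_zero_of_neg hy).deriv_eq]; simp) x h
theorem dth_zero_right {x : ℝ} (h : 1 ≤ x) : deriv th x = 0 :=
  eq_of_cont_right dth_cd.continuous
    (fun y hy => by rw [(deriv_th_one_of_gt hy).deriv_eq]; simp) x h
theorem ddth_zero_left {x : ℝ} (h : x ≤ 0) : deriv (deriv th) x = 0 :=
  eq_of_cont_left (dth_cd.continuous_deriv le_rfl)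
    (fun y hy => by rw [(deriv_th_zero_of_neg hy).deriv.deriv_eq]; simp) x h
theorem ddth_zero_right {x : ℝ} (h : 1 ≤ x) : deriv (deriv th) x = 0 :=
  eq_of_cont_right (dth_cd.continuous_deriv le_rfl)
    (fun y hy => by rw [(deriv_th_one_of_gt hy).deriv.deriv_eq]; simp) x h

theorem N_zero : N 0 = bb := by simp [N]
theorem N_succ (j : ℕ) : N (j + 1) = N j ^ 30 := by simp [N, pow_succ, pow_mul]
theorem M_eq (j : ℕ) : M j = N j ^ 30 := N_succ j
theorem M_succ (j : ℕ) : M (j + 1) = M j ^ 30 := N_succ (j + 1)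
theorem bb_le_N (j : ℕ) : bb ≤ N j := by
  have := bb_ge
  exact le_self_pow₀ (by linarith) (by positivity)
theorem N_ge (j : ℕ) : 1000 ≤ N j := bb_ge.trans (bb_le_N j)
theorem M_ge (j : ℕ) : 1000 ≤ M j := N_ge _
theorem N_pos (j : ℕ) : 0 < N j := by linarith [N_ge j]
theorem M_pos (j : ℕ) : 0 < M j := N_pos _
theorem one_le_N (j : ℕ) : 1 ≤ N j := by linarith [N_ge j]
theorem one_le_M (j : ℕ) : 1 ≤ M j := one_le_N _

/-- `c * x ^ a ≤ x ^ b` for `x ≥ 1000 ≥ c`, `a < b` -/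
theorem mul_pow_le {x c : ℝ} (hx : 1000 ≤ x) (hc : c ≤ 1000) {a b : ℕ} (hab : a < b) :
    c * x ^ a ≤ x ^ b := by
  have h1 : x ^ (a + 1) ≤ x ^ b := pow_le_pow_right₀ (by linarith) hab
  have h2 : 0 ≤ x ^ a := by positivity
  calc c * x ^ a ≤ x * x ^ a := by gcongr; linarith
    _ = x ^ (a + 1) := by ring
    _ ≤ _ := h1

theorem N_mul_le (j : ℕ) : 1000 * N j ≤ M j := by
  have := mul_pow_le (N_ge j) le_rfl (a := 1) (b := 30) (by norm_num)
  rwa [pow_one, ← M_eq] at this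
theorem M_mul_le (j : ℕ) : 1000 * M j ≤ M (j + 1) := N_mul_le (j + 1)
theorem N_mono : Monotone N := monotone_nat_of_le_succ fun j => by
  have := N_mul_le j; have := N_pos j; unfold M at *; linarith
theorem M_mono : Monotone M := fun _ _ h => N_mono (Nat.succ_le_succ h)
theorem two_pow_le_N (j : ℕ) : (2 : ℝ) ^ (j + 9) ≤ N j := by
  induction j with
  | zero => have := N_ge 0; norm_num; linarith
  | succ j ih =>
    have := N_mul_le j; have := N_pos j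
    rw [show j + 1 + 9 = (j + 9) + 1 by ring, pow_succ]; unfold M at *; linarith
theorem two_pow_le_M (j : ℕ) : (2 : ℝ) ^ (j + 10) ≤ M j := two_pow_le_N (j + 1)
theorem nat_le_two_pow (j : ℕ) : (j : ℝ) ≤ 2 ^ j := by exact_mod_cast Nat.lt_two_pow_self.le
theorem nat_le_N (j : ℕ) : 512 * (j : ℝ) ≤ N j := by
  have h1 := two_pow_le_N j; have h2 := nat_le_two_pow j
  rw [pow_add] at h1; norm_num at h1; linarith
theorem tendsto_N : Tendsto N atTop atTop :=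
  tendsto_atTop_mono (fun j => by have := nat_le_N j; have : (0 : ℝ) ≤ j := j.cast_nonneg; linarith)
    tendsto_natCast_atTop_atTop
theorem tendsto_M : Tendsto M atTop atTop := tendsto_N.comp (tendsto_add_atTop_nat 1)
theorem hh_pos (j : ℕ) : 0 < hh j := by unfold hh; positivity
theorem two_le_hh (j : ℕ) : 2 ≤ hh j := le_self_pow₀ (by norm_num) (by omega)
theorem hh_le_N (j : ℕ) : 256 * hh j ≤ N j := by
  have := two_pow_le_N j
  rw [show j + 9 = (j + 1) + 8 by ring, pow_add] at this; unfold hh; norm_num at this; linarith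
theorem bb_hh_le (j : ℕ) : 1000 * (bb * hh j) ≤ M j := by
  have h1 := hh_le_N j; have h2 := bb_le_N j; have h3 := hh_pos j; have h4 := bb_ge
  have h5 := mul_pow_le (N_ge j) le_rfl (a := 2) (b := 30) (by norm_num)
  rw [← M_eq] at h5
  have : bb * hh j ≤ N j * N j := mul_le_mul h2 (by linarith) h3.le (N_pos j).le
  nlinarith
theorem nu_pos (j : ℕ) : 0 < nu j := by have := M_pos j; unfold nu; positivity
theorem eps_pos (j : ℕ) : 0 < eps j := by have := M_pos j; unfold eps; positivity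
theorem kap_pos (j : ℕ) : 0 < kap j := by have := M_pos j; unfold kap; positivity
theorem kaq_pos (j : ℕ) : 0 < kaq j := by have := M_pos j; unfold kaq; positivity
theorem mC_pos (j : ℕ) : 0 < mC j := by have := M_pos j; unfold mC; positivity
theorem mP_pos (j : ℕ) : 0 < mP j := by have := M_pos j; unfold mP; positivity
theorem zb_pos (j : ℕ) : 0 < zb j := by have := M_pos j; unfold zb; positivity
theorem zq_pos (j : ℕ) : 0 < zq j := by have := M_pos j; unfold zq; positivity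
theorem zl_pos (j : ℕ) : 0 < zl j := by have := N_pos j; unfold zl; positivity
theorem sT_pos (j : ℕ) : 0 < sT j := by unfold sT; positivity
theorem inv_pow_le {x : ℝ} (hx : 1000 ≤ x) {a : ℕ} (ha : a ≠ 0) : 1 / x ^ a ≤ 1 / 1000 :=
  one_div_le_one_div_of_le (by norm_num) (hx.trans (le_self_pow₀ (by linarith) ha))
theorem nu_le (j : ℕ) : nu j ≤ 1 / 1000 := inv_pow_le (M_ge j) (by norm_num)
theorem kap_le (j : ℕ) : kap j ≤ 1 / 1000 := inv_pow_le (M_ge j) (by norm_num)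
theorem kaq_le (j : ℕ) : kaq j ≤ 1 / 1000 := inv_pow_le (M_ge j) (by norm_num)
theorem two_eps (j : ℕ) : 2 * eps j = 1 / M j ^ 5 := by
  have := M_pos j; unfold eps; field_simp
theorem eps_le (j : ℕ) : eps j ≤ 1 / 1000 := by
  have := inv_pow_le (M_ge j) (a := 5) (by norm_num); have := two_eps j; have := eps_pos j; linarith
theorem kaq_le_kap (j : ℕ) : kaq j ≤ kap j :=
  one_div_le_one_div_of_le (by have := M_pos j; positivity)
    (pow_le_pow_right₀ (one_le_M j) (by norm_num))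
theorem kap_succ_le_kaq (j : ℕ) : kap (j + 1) ≤ kaq j := by
  unfold kap kaq; rw [M_succ, ← pow_mul]
  exact one_div_le_one_div_of_le (by have := M_pos j; positivity)
    (pow_le_pow_right₀ (one_le_M j) (by norm_num))
theorem kap_mC (j : ℕ) : kap j * mC j = M j := by
  have := M_pos j; unfold kap mC; field_simp
theorem kaq_mP (j : ℕ) : kaq j * mP j = M j := by
  have := M_pos j; unfold kaq mP; field_simp
theorem kap_mP (j : ℕ) : kap j * mP j = zq j := by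
  have := M_pos j; unfold kap mP zq; field_simp
theorem kap_M7 (j : ℕ) : kap j * M j ^ 7 = 1 / M j := by
  have := M_pos j; unfold kap; field_simp
theorem mP_le (j : ℕ) : 1000 * mP j ≤ M (j + 1) := by
  rw [M_succ]; exact mul_pow_le (M_ge j) le_rfl (by norm_num)
theorem mC_le_mP (j : ℕ) : 1000 * mC j ≤ mP j := mul_pow_le (M_ge j) le_rfl (by norm_num)
theorem M_le_mC (j : ℕ) : 1000 * M j ≤ mC j := by
  have := mul_pow_le (M_ge j) le_rfl (a := 1) (b := 9) (by norm_num); rwa [pow_one] at this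
theorem mC_le_zb (j : ℕ) : 1000 * mC j ≤ zb j := mul_pow_le (M_ge j) le_rfl (by norm_num)
theorem zb_le_zq (j : ℕ) : 1000 * zb j ≤ zq j := mul_pow_le (M_ge j) le_rfl (by norm_num)
theorem zq_le_mP (j : ℕ) : 1000 * zq j ≤ mP j := mul_pow_le (M_ge j) le_rfl (by norm_num)
theorem zl_le (j : ℕ) : 500 * zl j ≤ M j := by
  have := mul_pow_le (N_ge j) le_rfl (a := 17) (b := 30) (by norm_num)
  rw [← M_eq] at this; unfold zl; linarith
theorem zl_succ (j : ℕ) : zl (j + 1) = 2 * zq j := rfl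
theorem kap_succ_mP (j : ℕ) : kap (j + 1) * mP j ≤ 1 / M (j + 1) := by
  have h1 := mP_le j; have h2 := M_pos (j + 1); have h3 := mP_pos j
  have h4 : M (j + 1) ^ 1 ≤ M (j + 1) ^ 7 := pow_le_pow_right₀ (one_le_M _) (by norm_num)
  rw [← kap_M7]; have := kap_pos (j + 1); gcongr; linarith
theorem inv_M_le (j : ℕ) : 1 / M j ≤ 1 / 1000 * (1 / 2) ^ j := by
  have h := two_pow_le_M j
  rw [one_div_pow, div_mul_div_comm, one_mul]
  refine one_div_le_one_div_of_le (by positivity) ?_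
  rw [pow_add] at h; norm_num at h
  have : (0 : ℝ) < 2 ^ j := by positivity
  linarith
theorem sT_succ (j : ℕ) : 2 * sT (j + 1) = sT j := by
  unfold sT; rw [show j + 1 + 2 = (j + 2) + 1 by ring, pow_succ]; field_simp
theorem sT_zero : sT 0 = 1 / 4 := by norm_num [sT]
theorem sT_anti : Antitone sT := antitone_nat_of_succ_le fun j => by
  have := sT_succ j; have := sT_pos (j + 1); linarith
theorem sT_le (j : ℕ) : sT j ≤ 1 / 4 := sT_zero ▸ sT_anti (Nat.zero_le j)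
theorem sT_hh (j : ℕ) : sT j * hh j = 1 / 2 := by
  unfold sT hh; rw [show j + 2 = (j + 1) + 1 by ring, pow_succ _ (j + 1)]; field_simp
theorem tendsto_sT : Tendsto sT atTop (𝓝 0) := by
  have h : Tendsto (fun j : ℕ => (1 / 2 : ℝ) ^ (j + 2)) atTop (𝓝 0) :=
    (tendsto_pow_atTop_nhds_zero_of_lt_one (by norm_num) (by norm_num)).comp
      (tendsto_add_atTop_nat 2)
  refine h.congr fun j => ?_
  rw [one_div_pow]; rfl
/-- the phase containing a given time -/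
theorem exists_phase {t : ℝ} (h0 : 0 < t) (h1 : t ≤ sT 0) : ∃ j, sT (j + 1) < t ∧ t ≤ sT j := by
  have hex : ∃ j, sT j < t := (tendsto_sT.eventually (gt_mem_nhds h0)).exists
  classical
  have hs := Nat.find_spec hex
  have hne : Nat.find hex ≠ 0 := fun h => by rw [h] at hs; linarith
  obtain ⟨j, hj⟩ := Nat.exists_eq_succ_of_ne_zero hne
  refine ⟨j, by rw [hj] at hs; exact hs, not_lt.1 (Nat.find_min hex (by omega))⟩
theorem psi_zero : psi 0 = 0 := by simp [psi]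
theorem psi_succ (j : ℕ) : psi (j + 1) = psi j + hh j + nu j := by
  simp [psi, Finset.sum_range_succ, add_assoc]
theorem psi_nonneg (j : ℕ) : 0 ≤ psi j :=
  Finset.sum_nonneg fun i _ => (add_pos (hh_pos i) (nu_pos i)).le
theorem psi_le (j : ℕ) : psi j ≤ 2 * hh j := by
  induction j with
  | zero => rw [psi_zero]; linarith [hh_pos 0]
  | succ j ih =>
    have h1 : hh (j + 1) = 2 * hh j := by unfold hh; ring
    have := nu_le j; have := two_le_hh j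
    rw [psi_succ]; linarith
theorem hh_succ (j : ℕ) : hh (j + 1) = 2 * hh j := by unfold hh; ring
theorem hh_le_psi (j : ℕ) : hh j ≤ psi (j + 1) := by
  rw [psi_succ]; linarith [psi_nonneg j, nu_pos j]
theorem hh_mono : Monotone hh := monotone_nat_of_le_succ fun j => by
  rw [hh_succ]; linarith [hh_pos j]
theorem rho_zero : rho 0 = 3 / 2 * M 0 := by simp [rho]
theorem rho_succ (j : ℕ) : rho (j + 1) = rho j + 3 / 2 * M (j + 1) := by
  unfold rho; rw [Finset.sum_range_succ _ (j + 1)]; ring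
theorem rho_bd (j : ℕ) : 3 / 2 * M j ≤ rho j ∧ rho j ≤ 2 * M j := by
  induction j with
  | zero => rw [rho_zero]; constructor <;> linarith [M_pos 0]
  | succ j ih =>
    have := M_mul_le j; have := M_pos j
    rw [rho_succ]; constructor <;> linarith [ih.1, ih.2]
theorem rho_mono : Monotone rho := monotone_nat_of_le_succ fun j => by
  rw [rho_succ]; linarith [M_pos (j + 1)]
theorem sum_M_le (j : ℕ) : ∑ i ∈ Finset.range (j + 1), M i ≤ 2 * M j := by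
  have := (rho_bd j).2; have := M_pos j; unfold rho at *; linarith

/-! ### the local step -/

theorem Ph0_cd (j : ℕ) {n : ℕ∞} : ContDiff ℝ n (Ph0 j) := by
  unfold Ph0; exact contDiff_const.mul (th_cd.comp ((contDiff_id.div_const _).sub contDiff_const))
theorem Ph0_nonneg (j : ℕ) (w : ℝ) : 0 ≤ Ph0 j w := mul_nonneg (hh_pos j).le (th_nonneg _)
theorem Ph0_le (j : ℕ) (w : ℝ) : Ph0 j w ≤ hh j :=
  mul_le_of_le_one_right (hh_pos j).le (th_le_one _)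
theorem arg_le {z w : ℝ} (hz : 0 < z) (h : w ≤ z) : w / z - 1 ≤ 0 := by
  rw [sub_nonpos, div_le_one hz]; exact h
theorem arg_ge {z w : ℝ} (hz : 0 < z) (h : 2 * z ≤ w) : 1 ≤ w / z - 1 := by
  rw [le_sub_iff_add_le, le_div_iff₀ hz]; linarith
theorem Ph0_zero (j : ℕ) {w : ℝ} (h : w ≤ zb j) : Ph0 j w = 0 := by
  rw [Ph0, th_zero (arg_le (zb_pos j) h), mul_zero]
theorem Ph0_top (j : ℕ) {w : ℝ} (h : 2 * zb j ≤ w) : Ph0 j w = hh j := by
  rw [Ph0, th_one (arg_ge (zb_pos j) h), mul_one]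
theorem hasDerivAt_step {f : ℝ → ℝ} (hf : Differentiable ℝ f) (c z w : ℝ) :
    HasDerivAt (fun w => c * f (w / z - 1)) (c / z * deriv f (w / z - 1)) w := by
  have h1 : HasDerivAt (fun w : ℝ => w / z - 1) (1 / z) w :=
    ((hasDerivAt_id w).div_const z).sub_const 1
  have := ((hf _).hasDerivAt.comp w h1).const_mul c
  exact this.congr_deriv (by ring)
theorem deriv_Ph0 (j : ℕ) : deriv (Ph0 j) = fun w => hh j / zb j * deriv th (w / zb j - 1) :=
  funext fun w => (hasDerivAt_step th_diff _ _ w).deriv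
theorem dPh0_left (j : ℕ) {w : ℝ} (h : w ≤ zb j) : deriv (Ph0 j) w = 0 := by
  rw [deriv_Ph0]; simp only; rw [dth_zero_left (arg_le (zb_pos j) h), mul_zero]
theorem dPh0_right (j : ℕ) {w : ℝ} (h : 2 * zb j ≤ w) : deriv (Ph0 j) w = 0 := by
  rw [deriv_Ph0]; simp only; rw [dth_zero_right (arg_ge (zb_pos j) h), mul_zero]
theorem dPh0_bd (j : ℕ) (w : ℝ) : 0 ≤ deriv (Ph0 j) w ∧ deriv (Ph0 j) w ≤ 1 / M j ^ 10 := by
  rw [deriv_Ph0]; simp only
  have h1 := hh_pos j; have h2 := zb_pos j; have h3 := M_pos j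
  refine ⟨mul_nonneg (by positivity) (dth_nonneg _), ?_⟩
  have h4 := (le_abs_self _).trans (abs_dth_le (w / zb j - 1))
  have h5 := bb_hh_le j; have h6 := bb_ge
  calc hh j / zb j * deriv th (w / zb j - 1) ≤ hh j / zb j * bb := by gcongr
    _ = bb * hh j / M j ^ 11 := by unfold zb; ring
    _ ≤ M j / M j ^ 11 := by gcongr; nlinarith
    _ = 1 / M j ^ 10 := by field_simp
theorem ddPh0_bd (j : ℕ) (w : ℝ) : |deriv (deriv (Ph0 j)) w| ≤ 1 / M j ^ 21 := by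
  rw [deriv_Ph0, (hasDerivAt_step dth_diff _ _ w).deriv]
  have h1 := hh_pos j; have h2 := zb_pos j; have h3 := M_pos j
  have h4 := abs_ddth_le (w / zb j - 1)
  have h5 := bb_hh_le j; have h6 := bb_ge
  rw [abs_mul, abs_of_pos (by positivity)]
  calc hh j / zb j / zb j * |deriv (deriv th) (w / zb j - 1)| ≤ hh j / zb j / zb j * bb := by gcongr
    _ = bb * hh j / M j ^ 22 := by unfold zb; field_simp
    _ ≤ M j / M j ^ 22 := by gcongr; nlinarith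
    _ = 1 / M j ^ 21 := by field_simp
theorem abs_sub_le_of_deriv {f : ℝ → ℝ} (hf : Differentiable ℝ f) {L : ℝ}
    (h : ∀ x, |deriv f x| ≤ L) (x y : ℝ) : |f x - f y| ≤ L * |x - y| := by
  have := convex_univ.norm_image_sub_le_of_norm_deriv_le (f := f) (fun x _ => hf x)
    (fun x _ => h x) (mem_univ y) (mem_univ x)
  simpa using this
theorem Ph0_lip (j : ℕ) (w w' : ℝ) : |Ph0 j w - Ph0 j w'| ≤ 1 / M j ^ 10 * |w - w'| :=
  abs_sub_le_of_deriv ((Ph0_cd j (n := 1)).differentiable (by simp))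
    (fun x => by rw [abs_of_nonneg (dPh0_bd j x).1]; exact (dPh0_bd j x).2) w w'
theorem dPh0_cd (j : ℕ) : ContDiff ℝ 1 (deriv (Ph0 j)) := (Ph0_cd j (n := 2)).deriv'
theorem dPh0_lip (j : ℕ) (w w' : ℝ) :
    |deriv (Ph0 j) w - deriv (Ph0 j) w'| ≤ 1 / M j ^ 21 * |w - w'| :=
  abs_sub_le_of_deriv ((dPh0_cd j).differentiable (by simp)) (ddPh0_bd j) w w'

/-! ### consequences of `PhiFacts` -/

theorem PhiFacts.nonneg {R Φ} (h : PhiFacts R Φ) (w : ℝ) : 0 ≤ Φ w := by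
  rcases le_total w 1 with hw | hw
  · rw [h.zero w hw]
  · rw [← h.zero 1 le_rfl]; exact h.mono hw
theorem zl_le_zb (j : ℕ) : zl j ≤ zb j := by
  have := zl_le j; have := M_le_mC j; have := mC_le_zb j; have := zl_pos j; linarith
theorem PhiFacts.flat {R Φ} (h : PhiFacts R Φ) (j : ℕ) {w : ℝ}
    (h1 : zl j ≤ w) (h2 : w ≤ zb j) : Φ w = psi j ∧ deriv Φ w = 0 := by
  have h3 : w ≤ zq j := by have := zb_le_zq j; have := zb_pos j; linarith
  have h4 : w - R j ≤ zb j := by linarith [(h.hR j).1]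
  rw [h.loc j w h1 h3, h.dloc j w h1 h3, Ph0_zero j h4, dPh0_left j h4]; simp
theorem PhiFacts.ge_psi {R Φ} (h : PhiFacts R Φ) (j : ℕ) {w : ℝ} (h1 : zl j ≤ w) :
    psi j ≤ Φ w := by
  have h3 : zl j ≤ zq j := by
    have := zb_le_zq j; have := zb_pos j; have := zl_le_zb j; linarith
  have := h.loc j _ le_rfl h3
  linarith [h.mono h1, Ph0_nonneg j (zl j - R j)]

theorem PhiFacts.le_psi {R Φ} (h : PhiFacts R Φ) (j : ℕ) {w : ℝ} (h1 : w ≤ zb j) :
    Φ w ≤ psi j := (h.mono h1).trans (h.flat j (zl_le_zb j) le_rfl).1.le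

theorem hasSum_pair {f : ℕ × Bool → ℝ} {a : ℝ} (h0 : ∀ l, 0 ≤ f l)
    (h : HasSum (fun i => f (i, false) + f (i, true)) a) : HasSum f a := by
  have e : ∀ i, ∑' b, f (i, b) = f (i, false) + f (i, true) := fun i => by
    rw [tsum_fintype]; simp [add_comm]
  have hs : Summable f := (summable_prod_of_nonneg h0).2
    ⟨fun i => Summable.of_finite, by simp_rw [e]; exact h.summable⟩
  have := hs.tsum_prod
  simp_rw [e] at this
  rw [h.tsum_eq] at this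
  exact this ▸ hs.hasSum

end MI34

end MrgPart2

-- ======== part 3: formerly Pool.Agent.MP_34a893_an.MI.Phi
section MrgPart3

/-! Row PHI: the velocity function. -/

open MeasureTheory Set Filter Topology Function

namespace MI34

namespace PhiA

theorem zb_mono : Monotone zb := fun _ _ h =>
  pow_le_pow_left₀ (M_pos _).le (M_mono h) 11
theorem zl_mono : Monotone zl := fun _ _ h =>
  mul_le_mul_of_nonneg_left (pow_le_pow_left₀ (N_pos _).le (N_mono h) 17) (by norm_num)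
theorem one_le_zb (j : ℕ) : 1 ≤ zb j := one_le_pow₀ (one_le_M j)
theorem zb_le (j : ℕ) : zb j ≤ zq j := by linarith [zb_le_zq j, zb_pos j]
theorem ex_zl (w : ℝ) : ∃ J, w < zl J := by
  obtain ⟨J, hJ⟩ := (tendsto_N.eventually_gt_atTop w).exists
  have h1 : N J ≤ N J ^ 17 := le_self_pow₀ (one_le_N J) (by norm_num)
  exact ⟨J, by have := N_pos J; unfold zl; linarith⟩

theorem cover {j : ℕ} {w : ℝ} (h : zl j ≤ w) : ∃ i, j ≤ i ∧ zl i ≤ w ∧ w ≤ zl (i + 1) := by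
  obtain ⟨k, hk⟩ := ex_zl w
  have hk' : w ≤ zl (j + k + 1) := hk.le.trans (zl_mono (by omega))
  clear hk
  induction k with
  | zero => exact ⟨j, le_rfl, h, hk'⟩
  | succ k ih =>
    rcases le_total w (zl (j + k + 1)) with h1 | h1
    · exact ih h1
    · exact ⟨j + k + 1, by omega, h1, hk'⟩

theorem fin_sum {f : ℕ → ℝ → ℝ} (h : ∀ j w, w ≤ zb j → f j w = 0) (J : ℕ) {w : ℝ}
    (hw : w ≤ zb J) : ∑' j, f j w = ∑ j ∈ Finset.range J, f j w :=
  tsum_eq_sum fun j hj => h j w (hw.trans (zb_mono (by simpa using hj)))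

theorem ev_sum {f : ℕ → ℝ → ℝ} (h : ∀ j w, w ≤ zb j → f j w = 0) (w : ℝ) :
    ∃ J, w ≤ zb J ∧
      (fun w => ∑' j, f j w) =ᶠ[𝓝 w] fun w => ∑ j ∈ Finset.range J, f j w := by
  obtain ⟨J, hJ⟩ := ex_zl w
  have hJ' := hJ.trans_le (zl_le_zb J)
  refine ⟨J, hJ'.le, ?_⟩
  filter_upwards [Iio_mem_nhds hJ'] with y hy using fin_sum h J (le_of_lt hy)

theorem der_sum {f g : ℕ → ℝ → ℝ} (h : ∀ j w, w ≤ zb j → f j w = 0)
    (h' : ∀ j w, w ≤ zb j → g j w = 0) (hd : ∀ j w, HasDerivAt (f j) (g j w) w) (w : ℝ) :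
    HasDerivAt (fun w => ∑' j, f j w) (∑' j, g j w) w := by
  obtain ⟨J, h1, h2⟩ := ev_sum h w
  rw [fin_sum h' J h1]
  exact (HasDerivAt.fun_sum fun j _ => hd j w).congr_of_eventuallyEq h2

/-- A function that vanishes off `(0,1)`. -/
def Bp (u : ℝ → ℝ) : Prop := (∀ x ≤ 0, u x = 0) ∧ ∀ x, 1 ≤ x → u x = 0

theorem bp1 : Bp (deriv th) := ⟨fun _ => dth_zero_left, fun _ => dth_zero_right⟩
theorem bp2 : Bp (deriv (deriv th)) := ⟨fun _ => ddth_zero_left, fun _ => ddth_zero_right⟩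

/-- The shape of all terms. -/
noncomputable def tm (R : ℕ → ℝ) (u : ℝ → ℝ) (a b : ℕ → ℝ) (j : ℕ) (w : ℝ) : ℝ :=
  a j * u ((w - R j) / zb j - 1) + b j * u (w / zq j - 1)

variable {R : ℕ → ℝ} (hR : ∀ j, R j ∈ Icc (0 : ℝ) 1)
include hR

theorem tm_left {u : ℝ → ℝ} (hu : ∀ x ≤ 0, u x = 0) (a b : ℕ → ℝ) (j : ℕ) (w : ℝ)
    (h : w ≤ zb j) : tm R u a b j w = 0 := by
  rw [tm, hu _ (arg_le (zb_pos j) (by linarith [(hR j).1])),
    hu _ (arg_le (zq_pos j) (h.trans (zb_le j)))]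
  simp

theorem top (j : ℕ) {w : ℝ} (h : zq j ≤ w) : 1 ≤ (w - R j) / zb j - 1 :=
  arg_ge (zb_pos j) (by linarith [(hR j).2, zb_le_zq j, one_le_zb j])

theorem tm_right {u : ℝ → ℝ} {c : ℝ} (hu : ∀ x, 1 ≤ x → u x = c) (a b : ℕ → ℝ) (j : ℕ) {w : ℝ}
    (h : zl (j + 1) ≤ w) : tm R u a b j w = (a j + b j) * c := by
  rw [zl_succ] at h
  rw [tm, hu _ (top hR j (by linarith [zq_pos j])), hu _ (arg_ge (zq_pos j) h)]
  ring

theorem one_term {u : ℝ → ℝ} (hu : Bp u) (a b : ℕ → ℝ) (i : ℕ) {w : ℝ} (h1 : zl i ≤ w)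
    (h2 : w ≤ zl (i + 1)) : ∑' j, tm R u a b j w = tm R u a b i w := by
  refine tsum_eq_single i fun j hj => ?_
  rcases lt_or_gt_of_ne hj with h | h
  · rw [tm_right hR hu.2 a b j ((zl_mono (by omega)).trans h1), mul_zero]
  · exact tm_left hR hu.1 a b j w (h2.trans ((zl_mono (by omega)).trans (zl_le_zb j)))

theorem bound {u : ℝ → ℝ} (hu : Bp u) (hb : ∀ x, |u x| ≤ bb) {a b : ℕ → ℝ} {n : ℕ}
    (ha : ∀ j, |a j| * bb ≤ 1 / M j ^ n) (hb' : ∀ j, |b j| * bb ≤ 1 / M j ^ n) (j : ℕ) {w : ℝ}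
    (h : zl j ≤ w) : |∑' j, tm R u a b j w| ≤ 1 / M j ^ n := by
  obtain ⟨i, hi, h1, h2⟩ := cover h
  have h3 : 1 / M i ^ n ≤ 1 / M j ^ n :=
    one_div_le_one_div_of_le (pow_pos (M_pos j) n) (pow_le_pow_left₀ (M_pos j).le (M_mono hi) n)
  rw [one_term hR hu a b i h1 h2, tm]
  rcases le_total w (zq i) with h4 | h4
  · rw [hu.1 _ (arg_le (zq_pos i) h4), mul_zero, add_zero, abs_mul]
    exact ((mul_le_mul_of_nonneg_left (hb _) (abs_nonneg _)).trans (ha i)).trans h3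
  · rw [hu.2 _ (top hR i h4), mul_zero, zero_add, abs_mul]
    exact ((mul_le_mul_of_nonneg_left (hb _) (abs_nonneg _)).trans (hb' i)).trans h3

omit hR

theorem tm_der {u : ℝ → ℝ} (hu : Differentiable ℝ u) (a b : ℕ → ℝ) (j : ℕ) (w : ℝ) :
    HasDerivAt (tm R u a b j)
      (tm R (deriv u) (fun j => a j / zb j) (fun j => b j / zq j) j w) w :=
  ((hasDerivAt_step hu (a j) (zb j) (w - R j)).comp_sub_const w (R j)).add
    (hasDerivAt_step hu (b j) (zq j) w)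

theorem num {c : ℝ} {j k n : ℕ} (h0 : 0 ≤ c) (hc : c * bb ≤ M j) (hk : n + 1 ≤ k) :
    |c / M j ^ k| * bb ≤ 1 / M j ^ n := by
  have h1 := M_pos j
  rw [abs_of_nonneg (by positivity), div_mul_eq_mul_div, div_le_div_iff₀ (by positivity)
    (by positivity), one_mul]
  calc c * bb * M j ^ n ≤ M j * M j ^ n := by gcongr
    _ = M j ^ (n + 1) := by ring
    _ ≤ _ := pow_le_pow_right₀ (one_le_M j) hk

theorem hh_bb (j : ℕ) : hh j * bb ≤ M j := by
  have := bb_hh_le j; have := mul_pos (hh_pos j) (by linarith [bb_ge] : 0 < bb); nlinarith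

theorem nu_bb (j : ℕ) : nu j * bb ≤ M j := by
  have h1 : nu j ≤ hh j := by linarith [nu_le j, two_le_hh j]
  exact (mul_le_mul_of_nonneg_right h1 (by linarith [bb_ge])).trans (hh_bb j)

theorem lip {f : ℝ → ℝ} (hf : Differentiable ℝ f) {a L : ℝ} (h : ∀ x, a ≤ x → |deriv f x| ≤ 1 / L)
    {x y : ℝ} (hx : a ≤ x) (hy : a ≤ y) : |f x - f y| ≤ |x - y| / L := by
  have := (convex_Ici a).norm_image_sub_le_of_norm_deriv_le (f := f) (fun x _ => hf x)
    (fun x hx => h x hx) hy hx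
  rw [Real.norm_eq_abs, Real.norm_eq_abs] at this
  exact this.trans_eq (by ring)

end PhiA

open PhiA in
theorem phi : PhiStmt := by
  intro R hR
  have e0 : Phi R = fun w => ∑' j, tm R th hh nu j w := rfl
  have z0 := tm_left hR (u := th) (fun _ => th_zero) hh nu
  have d1 := der_sum z0 (tm_left hR bp1.1 _ _) (tm_der th_diff hh nu)
  have d2 := der_sum (tm_left hR bp1.1 _ _) (tm_left hR bp2.1 _ _)
    (tm_der (R := R) dth_diff (fun j => hh j / zb j) fun j => nu j / zq j)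
  rw [← e0] at d1
  have e1 : deriv (Phi R) = _ := funext fun w => (d1 w).deriv
  rw [← e1] at d2
  have n1 : ∀ w, 0 ≤ deriv (Phi R) w := fun w => by
    rw [e1]
    exact tsum_nonneg fun j => add_nonneg
      (mul_nonneg (div_pos (hh_pos j) (zb_pos j)).le (dth_nonneg _))
      (mul_nonneg (div_pos (nu_pos j) (zq_pos j)).le (dth_nonneg _))
  have b1 : ∀ j w, zl j ≤ w → |deriv (Phi R) w| ≤ 1 / M j ^ 10 := fun j w h => by
    rw [e1]
    exact bound hR bp1 abs_dth_le (fun j => num (hh_pos j).le (hh_bb j) (by norm_num))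
      (fun j => num (nu_pos j).le (nu_bb j) (by norm_num)) j h
  have b2 : ∀ j w, zl j ≤ w → |deriv (deriv (Phi R)) w| ≤ 1 / M j ^ 21 := fun j w h => by
    rw [(d2 w).deriv]
    refine bound hR bp2 abs_ddth_le (fun j => ?_) (fun j => ?_) j h
    · rw [div_div, zb, ← pow_add]
      exact num (hh_pos j).le (hh_bb j) (by norm_num)
    · rw [div_div, zq, ← pow_add]
      exact num (nu_pos j).le (nu_bb j) (by norm_num)
  have up : ∀ j w, w ≤ zq j → w ≤ zl (j + 1) := fun j w h => by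
    rw [zl_succ]; linarith [zq_pos j]
  refine ⟨hR, contDiff_iff_contDiffAt.2 fun w => ?_,
    monotone_of_deriv_nonneg (fun w => (d1 w).differentiableAt) n1, fun w hw => ?_,
    fun j w h1 h2 => ?_, fun j w h1 h2 => ?_,
    fun j w h => ⟨n1 w, (le_abs_self _).trans (b1 j w h)⟩,
    fun j w w' => lip (fun w => (d1 w).differentiableAt) (b1 j),
    fun j w w' => lip (fun w => (d2 w).differentiableAt) (b2 j)⟩
  · obtain ⟨J, _, h⟩ := ev_sum z0 w
    refine ContDiffAt.congr_of_eventuallyEq (ContDiff.contDiffAt (ContDiff.sum fun j _ => ?_)) h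
    exact ((Ph0_cd j).comp (contDiff_id.sub contDiff_const)).add
      (contDiff_const.mul (th_cd.comp ((contDiff_id.div_const _).sub contDiff_const)))
  · rw [e0]
    simp only [fun j => z0 j w (hw.trans (one_le_zb j)), tsum_zero]
  · rw [e0]
    simp only
    rw [fin_sum z0 (j + 1) ((up j w h2).trans (zl_le_zb _)), Finset.sum_range_succ, psi]
    congr 1
    · refine Finset.sum_congr rfl fun i hi => ?_
      rw [tm_right hR (fun _ => th_one) hh nu i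
        ((zl_mono (Finset.mem_range.1 hi)).trans h1), mul_one]
    · rw [tm, th_zero (arg_le (zq_pos j) h2), mul_zero, add_zero, Ph0]
  · rw [e1]
    simp only
    rw [one_term hR bp1 _ _ j h1 (up j w h2), tm, dth_zero_left (arg_le (zq_pos j) h2), mul_zero,
      add_zero, deriv_Ph0]

end MI34

end MrgPart3

-- ======== part 4: formerly Pool.Agent.MP_34a893_an.MI.Sum
section MrgPart4

/-! The sum of the blobs is an Eulerian solution. -/

open MeasureTheory Set Filter Topology Function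

namespace MI34

namespace SumA

section One
variable {T m : ℝ} {X s v q w : ℝ → ℝ → ℝ}

theorem cs_on (h : Blob T X s v) {t : ℝ} (ht : t ∈ Ioc 0 T) : ContinuousOn (s t) (Icc 0 1) :=
  h.cs.comp (continuous_const.prodMk continuous_id).continuousOn fun _ hy => ⟨ht, hy⟩

theorem cX_on (h : Blob T X s v) {t : ℝ} (ht : t ∈ Ioc 0 T) : ContinuousOn (X t) (Icc 0 1) :=
  h.cX.comp (continuous_const.prodMk continuous_id).continuousOn fun _ hy => ⟨ht, hy⟩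

theorem ii_sq (h : Blob T X s v) {t : ℝ} (ht : t ∈ Ioc 0 T) {a b : ℝ} (ha : a ∈ Icc (0 : ℝ) 1)
    (hb : b ∈ Icc (0 : ℝ) 1) : IntervalIntegrable (fun r => s t r ^ 2) volume a b :=
  (((cs_on h ht).pow 2).mono (uIcc_subset_Icc ha hb)).intervalIntegrable

theorem mem_Icc_X (h : Blob T X s v) {t : ℝ} (ht : t ∈ Ioc 0 T) {y : ℝ} (hy : y ∈ Icc (0 : ℝ) 1) :
    X t y ∈ Icc (X t 0) (X t 1) := by
  have h0 : (0 : ℝ) ∈ Icc (0 : ℝ) 1 := ⟨le_rfl, zero_le_one⟩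
  have h1 : (1 : ℝ) ∈ Icc (0 : ℝ) 1 := ⟨zero_le_one, le_rfl⟩
  have e1 := h.hX t ht y hy
  have e0 := h.hX t ht 0 h0
  have a := intervalIntegral.integral_add_adjacent_intervals (ii_sq h ht h0 hy) (ii_sq h ht hy h1)
  have n1 : 0 ≤ ∫ r in (0 : ℝ)..y, s t r ^ 2 :=
    intervalIntegral.integral_nonneg hy.1 fun _ _ => sq_nonneg _
  have n2 : 0 ≤ ∫ r in y..1, s t r ^ 2 :=
    intervalIntegral.integral_nonneg hy.2 fun _ _ => sq_nonneg _
  constructor <;> linarith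

theorem width (h : Blob T X s v) {t : ℝ} (ht : t ∈ Ioc 0 T) : X t 1 ≤ X t 0 + 1 := by
  have h0 : (0 : ℝ) ∈ Icc (0 : ℝ) 1 := ⟨le_rfl, zero_le_one⟩
  have h1 : (1 : ℝ) ∈ Icc (0 : ℝ) 1 := ⟨zero_le_one, le_rfl⟩
  have e0 := h.hX t ht 0 h0
  have a : ∫ r in (0 : ℝ)..1, s t r ^ 2 ≤ ∫ _r in (0 : ℝ)..1, (1 : ℝ) :=
    intervalIntegral.integral_mono_on zero_le_one (ii_sq h ht h0 h1) intervalIntegrable_const
      fun r hr => pow_le_one₀ (h.pos t ht r hr).1.le (h.pos t ht r hr).2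
  simp only [intervalIntegral.integral_const, sub_zero, smul_eq_mul, mul_one] at a
  linarith

theorem q_nn (d : Dens T m X s v q w) (t x : ℝ) : 0 ≤ q t x := by
  rcases d.val t x with h | ⟨-, y, -, -, e, -⟩
  · exact h.1.ge
  · rw [e]; positivity

theorem supp (h : Blob T X s v) (d : Dens T m X s v q w) {t x : ℝ}
    (hx : ¬ (t ∈ Ioc 0 T ∧ x ∈ Icc (X t 0) (X t 1))) : q t x = 0 ∧ w t x = 0 := by
  rcases d.val t x with e | ⟨ht, y, hy, e, -⟩
  · exact e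
  · exact absurd ⟨ht, e ▸ mem_Icc_X h ht (Ioo_subset_Icc_self hy)⟩ hx

theorem mq_t (d : Dens T m X s v q w) (t : ℝ) : Measurable (q t) :=
  d.mq.comp (measurable_const.prodMk measurable_id)

theorem int_of_bd {f : ℝ → ℝ} (hf : Measurable f) {a b B : ℝ} (hB : ∀ x, |f x| ≤ B)
    (h0 : ∀ x, x ∉ Icc a b → f x = 0) : Integrable f :=
  (Measure.integrableOn_of_bounded (s := Icc a b) measure_Icc_lt_top.ne hf.aestronglyMeasurable
    (M := B) (Eventually.of_forall hB)).integrable_of_forall_notMem_eq_zero h0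

theorem q_int (h : Blob T X s v) (d : Dens T m X s v q w) (t : ℝ) : Integrable (q t) := by
  by_cases ht : t ∈ Ioc 0 T
  · obtain ⟨B, hB⟩ := d.bd t ht
    exact int_of_bd (mq_t d t) (a := X t 0) (b := X t 1) (B := B)
      (fun x => by rw [abs_of_nonneg (q_nn d t x)]; exact (hB t ⟨le_rfl, ht.2⟩ x).1)
      fun x hx => (supp h d fun e => hx e.2).1
  · have : q t = fun _ => 0 := funext fun x => (supp h d fun e => ht e.1).1
    rw [this]; exact integrable_zero _ _ _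

theorem gs_int (h : Blob T X s v) (d : Dens T m X s v q w) {t : ℝ} (ht : t ∈ Ioc 0 T)
    {g : ℝ → ℝ} (hg : Measurable g) {C : ℝ} (hC : ∀ x, |g x| ≤ C) :
    Integrable fun x => g x * √(q t x) := by
  obtain ⟨B, hB⟩ := d.bd t ht
  refine int_of_bd (hg.mul (mq_t d t).sqrt) (a := X t 0) (b := X t 1) (B := C * √B)
    (fun x => ?_) fun x hx => ?_
  · rw [abs_mul, abs_of_nonneg (Real.sqrt_nonneg _)]
    exact mul_le_mul (hC x) (Real.sqrt_le_sqrt (hB t ⟨le_rfl, ht.2⟩ x).1) (Real.sqrt_nonneg _)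
      ((abs_nonneg _).trans (hC x))
  · rw [(supp h d fun e => hx e.2).1, Real.sqrt_zero, mul_zero]

theorem early (h : Blob T X s v) (d : Dens T m X s v q w)
    (far : ∀ A, ∃ t0 > 0, ∀ t ∈ Ioc 0 T, t ≤ t0 → A ≤ X t 0) (b : ℝ) :
    ∃ t0 > 0, ∀ t ≤ t0, ∀ x ≤ b, q t x = 0 ∧ w t x = 0 := by
  obtain ⟨t0, p, ht0⟩ := far (b + 1)
  refine ⟨t0, p, fun t ht x hx => supp h d fun e => ?_⟩
  have := ht0 t e.1 ht
  linarith [e.2.1]

theorem bound (hT : 0 < T) (h : Blob T X s v) (d : Dens T m X s v q w)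
    (far : ∀ A, ∃ t0 > 0, ∀ t ∈ Ioc 0 T, t ≤ t0 → A ≤ X t 0) (b : ℝ) :
    ∃ B, ∀ t ≤ T, ∀ x ≤ b, q t x ≤ B ∧ |w t x| ≤ B := by
  obtain ⟨t0, p, ht0⟩ := early h d far b
  obtain ⟨B, hB⟩ := d.bd (min t0 T) ⟨lt_min p hT, min_le_right _ _⟩
  refine ⟨max B 0, fun t ht x hx => ?_⟩
  rcases le_total t t0 with l | l
  · rw [(ht0 t l x hx).1, (ht0 t l x hx).2, abs_zero]
    exact ⟨le_max_right _ _, le_max_right _ _⟩
  · have := hB t ⟨(min_le_left _ _).trans l, ht⟩ x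
    exact ⟨this.1.trans (le_max_left _ _), this.2.trans (le_max_left _ _)⟩

theorem cont_one (h : Blob T X s v) (d : Dens T m X s v q w)
    (far : ∀ A, ∃ t0 > 0, ∀ t ∈ Ioc 0 T, t ≤ t0 → A ≤ X t 0) (a b : ℝ) {t0 : ℝ} (ht0 : t0 ≤ T) :
    Tendsto (fun t => ∫ x in Icc a b, |q t x - q t0 x|) (𝓝[Iic T] t0) (𝓝 0) := by
  rcases le_or_gt t0 0 with l | l
  · obtain ⟨t1, p, ht1⟩ := early h d far b
    refine tendsto_const_nhds.congr' ?_
    filter_upwards [mem_nhdsWithin_of_mem_nhds (Iio_mem_nhds (l.trans_lt p))] with t ht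
    refine (setIntegral_eq_zero_of_forall_eq_zero fun x hx => ?_).symm
    rw [(ht1 t (le_of_lt ht) x hx.2).1, (ht1 t0 (l.trans p.le) x hx.2).1, sub_zero, abs_zero]
  · have hle : 𝓝[Iic T] t0 ≤ 𝓝[Ioc 0 T] t0 := by
      refine nhdsWithin_le_of_mem ?_
      filter_upwards [mem_nhdsWithin_of_mem_nhds (Ioi_mem_nhds l), self_mem_nhdsWithin] with t a1 a2
      exact ⟨a1, a2⟩
    refine squeeze_zero (fun t => integral_nonneg fun _ => abs_nonneg _) (fun t => ?_)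
      ((d.cont t0 ⟨l, ht0⟩).mono_left hle)
    exact setIntegral_le_integral ((q_int h d t).sub (q_int h d t0)).abs
      (Eventually.of_forall fun _ => abs_nonneg _)

end One

/-- the kernel cut at `x` -/
noncomputable def gk (k : ℝ → ℝ) (x y : ℝ) : ℝ := if x < y then k (y - x) else 0

theorem gk_meas {k : ℝ → ℝ} (hk : Continuous k) (x : ℝ) : Measurable (gk k x) :=
  Measurable.ite measurableSet_Ioi (hk.measurable.comp (measurable_id.sub measurable_const))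
    measurable_const

theorem gk_nn {k : ℝ → ℝ} (h0 : ∀ d, 0 ≤ k d) (x y : ℝ) : 0 ≤ gk k x y := by
  unfold gk; split_ifs
  · exact h0 _
  · exact le_rfl

theorem gk_bd {k : ℝ → ℝ} (ha : Antitone k) (h0 : ∀ d, 0 ≤ k d) (x y : ℝ) : |gk k x y| ≤ k 0 := by
  rw [abs_of_nonneg (gk_nn h0 x y)]
  unfold gk; split_ifs with h
  · exact ha (by linarith)
  · exact h0 _

theorem gk_ind (k : ℝ → ℝ) (x : ℝ) (f : ℝ → ℝ) :
    (Ioi x).indicator (fun y => k (y - x) * f y) = fun y => gk k x y * f y := by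
  funext y
  unfold gk
  by_cases h : x < y
  · rw [indicator_of_mem (mem_Ioi.2 h), if_pos h]
  · rw [indicator_of_notMem (fun e => h (mem_Ioi.1 e)), if_neg h, zero_mul]

/-- the indices of level at most `b` -/
noncomputable def SS (b : ℝ) : Finset (ℕ × Bool) := Finset.range (⌈b⌉₊ + 1) ×ˢ Finset.univ

theorem lt_of_notMem {b : ℝ} {n : ℕ × Bool} (h : n ∉ SS b) : b < n.1 := by
  have h1 : ¬ n.1 < ⌈b⌉₊ + 1 := fun e =>
    h (Finset.mem_product.2 ⟨Finset.mem_range.2 e, Finset.mem_univ _⟩)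
  have h2 : ((⌈b⌉₊ + 1 : ℕ) : ℝ) ≤ n.1 := Nat.cast_le.2 (not_lt.1 h1)
  have h3 := Nat.le_ceil b
  push_cast at h2
  linarith

section All
variable {k Φ : ℝ → ℝ} {T : ℝ} {m : ℕ × Bool → ℝ} {X s ζ qn wn : ℕ × Bool → ℝ → ℝ → ℝ}

/-- the data -/
structure Dat (k Φ : ℝ → ℝ) (T : ℝ) (m : ℕ × Bool → ℝ) (X s ζ qn wn : ℕ × Bool → ℝ → ℝ → ℝ) :
    Prop where
  hT : 0 < T
  ck : Continuous k
  ak : Antitone k
  nk : ∀ d, 0 ≤ k d
  L : Lag k Φ T m X s ζ
  D : ∀ n, Dens T (m n) (X n) (s n) (fun t y => Φ (ζ n t y)) (qn n) (wn n)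

/-- the pointwise sum -/
noncomputable def tot (f : ℕ × Bool → ℝ → ℝ → ℝ) (t x : ℝ) : ℝ := ∑' n, f n t x

theorem Dat.other (H : Dat k Φ T m X s ζ qn wn) {n l : ℕ × Bool} {t x : ℝ} (ht : t ∈ Ioc 0 T)
    (hx : x ∈ Icc (X n t 0) (X n t 1)) (hl : l ≠ n) : qn l t x = 0 ∧ wn l t x = 0 := by
  refine supp (H.L.blob l) (H.D l) fun e => ?_
  rcases H.L.disj l n hl t ht with a | a
  · linarith [e.2.2, hx.1]
  · linarith [e.2.1, hx.2]

theorem Dat.on (H : Dat k Φ T m X s ζ qn wn) {n : ℕ × Bool} {t x : ℝ} (ht : t ∈ Ioc 0 T)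
    (hx : x ∈ Icc (X n t 0) (X n t 1)) : tot qn t x = qn n t x ∧ tot wn t x = wn n t x :=
  ⟨tsum_eq_single n fun _ hl => (H.other ht hx hl).1,
    tsum_eq_single n fun _ hl => (H.other ht hx hl).2⟩

theorem Dat.off (H : Dat k Φ T m X s ζ qn wn) {t x : ℝ}
    (h : ∀ n, ¬ (t ∈ Ioc 0 T ∧ x ∈ Icc (X n t 0) (X n t 1))) : tot qn t x = 0 ∧ tot wn t x = 0 := by
  have e := fun n => supp (H.L.blob n) (H.D n) (h n)
  constructor
  · simp [tot, fun n => (e n).1]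
  · simp [tot, fun n => (e n).2]

theorem Dat.high (H : Dat k Φ T m X s ζ qn wn) {b t x : ℝ} (hx : x ≤ b) {n : ℕ × Bool}
    (hn : n ∉ SS b) : qn n t x = 0 ∧ wn n t x = 0 := by
  refine supp (H.L.blob n) (H.D n) fun e => ?_
  have := H.L.low n t e.1
  linarith [lt_of_notMem hn, e.2.1]

theorem Dat.fin (H : Dat k Φ T m X s ζ qn wn) {b x : ℝ} (t : ℝ) (hx : x ≤ b) :
    tot qn t x = ∑ n ∈ SS b, qn n t x ∧ tot wn t x = ∑ n ∈ SS b, wn n t x :=
  ⟨tsum_eq_sum fun _ hn => (H.high hx hn).1, tsum_eq_sum fun _ hn => (H.high hx hn).2⟩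

theorem Dat.sqrt_sum (H : Dat k Φ T m X s ζ qn wn) (g : ℝ → ℝ) (t y : ℝ) :
    ∑' l, g y * √(qn l t y) = g y * √(tot qn t y) := by
  by_cases h : ∃ n, t ∈ Ioc 0 T ∧ y ∈ Icc (X n t 0) (X n t 1)
  · obtain ⟨n, ht, hy⟩ := h
    rw [(H.on ht hy).1]
    exact tsum_eq_single n fun l hl => by rw [(H.other ht hy hl).1, Real.sqrt_zero, mul_zero]
  · have h' := not_exists.1 h
    rw [(H.off h').1]
    simp [fun n => (supp (H.L.blob n) (H.D n) (h' n)).1]

theorem Dat.F_int (H : Dat k Φ T m X s ζ qn wn) {t : ℝ} (ht : t ∈ Ioc 0 T) (x : ℝ)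
    (l : ℕ × Bool) : Integrable fun y => gk k x y * √(qn l t y) :=
  gs_int (H.L.blob l) (H.D l) ht (gk_meas H.ck x) (gk_bd H.ak H.nk x)

theorem Dat.F_nn (H : Dat k Φ T m X s ζ qn wn) (t x : ℝ) (l : ℕ × Bool) (y : ℝ) :
    0 ≤ gk k x y * √(qn l t y) := mul_nonneg (gk_nn H.nk x y) (Real.sqrt_nonneg _)

theorem Dat.field (H : Dat k Φ T m X s ζ qn wn) {t : ℝ} (ht : t ∈ Ioc 0 T) (n : ℕ × Bool) {y : ℝ}
    (hy : y ∈ Icc (0 : ℝ) 1) :
    HasSum (fun l => ∫ z, gk k (X n t y) z * √(qn l t z)) (ζ n t y) := by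
  have e : (fun l => ∫ z, gk k (X n t y) z * √(qn l t z)) = fun l => m l * ∫ r in (0 : ℝ)..1,
      (if X n t y < X l t r then k (X l t r - X n t y) else 0) * s l t r :=
    funext fun l => (H.D l).chs t ht (gk k (X n t y))
  rw [e]
  exact H.L.field n t ht y hy

theorem Dat.F_sum (H : Dat k Φ T m X s ζ qn wn) {t : ℝ} (ht : t ∈ Ioc 0 T) (x : ℝ) :
    Summable fun l => ∫ y, ‖gk k x y * √(qn l t y)‖ := by
  have hx : x ≤ X (⌈x⌉₊, false) t 0 := (Nat.le_ceil x).trans (H.L.low (⌈x⌉₊, false) t ht)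
  have hs := (H.field ht (⌈x⌉₊, false) (y := 0) ⟨le_rfl, zero_le_one⟩).summable
  generalize X (⌈x⌉₊, false) t 0 = x1 at hx hs
  refine hs.of_norm_bounded_eventually ?_
  filter_upwards [(SS x1).finite_toSet.compl_mem_cofinite] with l hl
  rw [Real.norm_of_nonneg (integral_nonneg fun _ => norm_nonneg _)]
  refine integral_mono (H.F_int ht x l).norm (H.F_int ht x1 l) fun y => ?_
  show ‖gk k x y * √(qn l t y)‖ ≤ gk k x1 y * √(qn l t y)
  rw [Real.norm_of_nonneg (H.F_nn t x l y)]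
  rcases le_or_gt y x1 with a | a
  · rw [(H.high a hl).1, Real.sqrt_zero, mul_zero, mul_zero]
  · refine mul_le_mul_of_nonneg_right ?_ (Real.sqrt_nonneg _)
    unfold gk
    rw [if_pos a, if_pos (hx.trans_lt a)]
    exact H.ak (by linarith)

theorem Dat.tot_int (H : Dat k Φ T m X s ζ qn wn) (t x : ℝ) :
    Integrable fun y => gk k x y * √(tot qn t y) := by
  by_cases ht : t ∈ Ioc 0 T
  · have e : ∀ l, EqOn (fun y => gk k x y * √(qn l t y)) (fun y => gk k x y * √(tot qn t y))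
        (Icc (X l t 0) (X l t 1)) := fun l y hy => by
      show gk k x y * √(qn l t y) = gk k x y * √(tot qn t y)
      rw [(H.on ht hy).1]
    refine (integrableOn_iUnion_of_summable_integral_norm
      (s := fun l => Icc (X l t 0) (X l t 1))
      (fun l => (H.F_int ht x l).integrableOn.congr_fun (e l) measurableSet_Icc)
      ?_).integrable_of_forall_notMem_eq_zero fun y hy => ?_
    · refine Summable.of_nonneg_of_le (fun l => integral_nonneg fun _ => norm_nonneg _)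
        (fun l => ?_) (H.F_sum ht x)
      rw [← setIntegral_congr_fun (f := fun y => ‖gk k x y * √(qn l t y)‖) measurableSet_Icc
        fun y hy => congrArg norm (e l hy)]
      exact setIntegral_le_integral (H.F_int ht x l).norm
        (Eventually.of_forall fun _ => norm_nonneg _)
    · rw [(H.off fun n a => hy (mem_iUnion.2 ⟨n, a.2⟩)).1, Real.sqrt_zero, mul_zero]
  · have : (fun y => gk k x y * √(tot qn t y)) = fun _ => 0 := funext fun y => by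
      rw [(H.off fun n a => ht a.1).1, Real.sqrt_zero, mul_zero]
    rw [this]; exact integrable_zero _ _ _

theorem Dat.ZZ_eq (H : Dat k Φ T m X s ζ qn wn) {t : ℝ} (ht : t ∈ Ioc 0 T) (n : ℕ × Bool) {y : ℝ}
    (hy : y ∈ Icc (0 : ℝ) 1) : ZZ k (tot qn) t (X n t y) = ζ n t y := by
  have a := hasSum_integral_of_summable_integral_norm (H.F_int ht (X n t y)) (H.F_sum ht (X n t y))
  rw [← a.unique (H.field ht n hy), ZZ, ← integral_indicator measurableSet_Ioi, gk_ind]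
  exact integral_congr_ae (Eventually.of_forall fun z => (H.sqrt_sum (gk k (X n t y)) t z).symm)

theorem Dat.flux (H : Dat k Φ T m X s ζ qn wn) (t x : ℝ) :
    Φ (ZZ k (tot qn) t x) * tot qn t x = -tot wn t x := by
  by_cases h : ∃ n, t ∈ Ioc 0 T ∧ x ∈ Icc (X n t 0) (X n t 1)
  · obtain ⟨n, ht, hx⟩ := h
    rw [(H.on ht hx).1, (H.on ht hx).2]
    rcases (H.D n).val t x with e | ⟨-, y, hy, e1, -, e3⟩
    · rw [e.1, e.2, mul_zero, neg_zero]
    · rw [e3]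
      have := H.ZZ_eq ht n (Ioo_subset_Icc_self hy)
      rw [← e1] at this
      rw [this]; ring
  · have h' := H.off (not_exists.1 h)
    rw [h'.1, h'.2, mul_zero, neg_zero]

theorem Dat.mq (H : Dat k Φ T m X s ζ qn wn) : Measurable (uncurry (tot qn)) :=
  Measurable.tsum (f := fun n => uncurry (qn n)) fun n => (H.D n).mq

theorem Dat.mw (H : Dat k Φ T m X s ζ qn wn) : Measurable (uncurry (tot wn)) :=
  Measurable.tsum (f := fun n => uncurry (wn n)) fun n => (H.D n).mw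

theorem Dat.nn (H : Dat k Φ T m X s ζ qn wn) (t x : ℝ) : 0 ≤ tot qn t x :=
  tsum_nonneg fun n => q_nn (H.D n) t x

theorem Dat.lb (H : Dat k Φ T m X s ζ qn wn) (b : ℝ) :
    ∃ B, ∀ t ≤ T, ∀ x ≤ b, tot qn t x ≤ B ∧ |tot wn t x| ≤ B := by
  choose B hB using fun n => bound H.hT (H.L.blob n) (H.D n) (H.L.far n) b
  refine ⟨∑ n ∈ SS b, B n, fun t ht x hx => ?_⟩
  rw [(H.fin t hx).1, (H.fin t hx).2]
  exact ⟨Finset.sum_le_sum fun n _ => (hB n t ht x hx).1,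
    (Finset.abs_sum_le_sum_abs _ _).trans (Finset.sum_le_sum fun n _ => (hB n t ht x hx).2)⟩

theorem Dat.cont (H : Dat k Φ T m X s ζ qn wn) (a b : ℝ) {t0 : ℝ} (ht0 : t0 ≤ T) :
    Tendsto (fun t => ∫ x in Icc a b, |tot qn t x - tot qn t0 x|) (𝓝[Iic T] t0) (𝓝 0) := by
  have h1 := tendsto_finsetSum (SS b) fun n _ =>
    cont_one (H.L.blob n) (H.D n) (H.L.far n) a b ht0
  rw [Finset.sum_const_zero] at h1
  refine squeeze_zero (fun t => integral_nonneg fun _ => abs_nonneg _) (fun t => ?_) h1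
  have hi : ∀ n, IntegrableOn (fun x => |qn n t x - qn n t0 x|) (Icc a b) := fun n =>
    ((q_int (H.L.blob n) (H.D n) t).sub (q_int (H.L.blob n) (H.D n) t0)).abs.integrableOn
  rw [← integral_finsetSum _ fun n _ => hi n]
  refine integral_mono_of_nonneg (Eventually.of_forall fun _ => abs_nonneg _)
    (integrable_finsetSum _ fun n _ => hi n) ?_
  filter_upwards [ae_restrict_mem measurableSet_Icc] with x hx
  rw [(H.fin t hx.2).1, (H.fin t0 hx.2).1, ← Finset.sum_sub_distrib]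
  exact Finset.abs_sum_le_sum_abs _ _

theorem Dat.weak (hW : WeakStmt) (H : Dat k Φ T m X s ζ qn wn) (φ : ℝ × ℝ → ℝ)
    (h1 : ContDiff ℝ 1 φ) (h2 : HasCompactSupport φ) (h3 : tsupport φ ⊆ Iio T ×ˢ univ) :
    ∫ z in Ioo 0 T ×ˢ univ, (tot qn z.1 z.2 * fderiv ℝ φ z (1, 0) +
      -Φ (ZZ k (tot qn) z.1 z.2) * tot qn z.1 z.2 * fderiv ℝ φ z (0, 1)) = 0 := by
  obtain ⟨b, hb⟩ := (IsCompact.image h2 continuous_snd).bddAbove
  have W := fun n => hW T (m n) (X n) (s n) _ (qn n) (wn n) H.hT (H.L.mpos n) (H.L.blob n) (H.D n)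
    (H.L.far n) φ h1 h2 h3
  have e : (fun z : ℝ × ℝ => tot qn z.1 z.2 * fderiv ℝ φ z (1, 0) +
      -Φ (ZZ k (tot qn) z.1 z.2) * tot qn z.1 z.2 * fderiv ℝ φ z (0, 1)) = fun z =>
      ∑ n ∈ SS b, (qn n z.1 z.2 * fderiv ℝ φ z (1, 0) + wn n z.1 z.2 * fderiv ℝ φ z (0, 1)) := by
    funext z
    rw [neg_mul, H.flux, neg_neg]
    by_cases hz : z ∈ tsupport φ
    · have hx : z.2 ≤ b := hb ⟨z, hz, rfl⟩
      rw [(H.fin z.1 hx).1, (H.fin z.1 hx).2, Finset.sum_add_distrib, Finset.sum_mul,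
        Finset.sum_mul]
    · have : fderiv ℝ φ z = 0 := fderiv_of_notMem_tsupport ℝ hz
      simp [this]
  rw [e, integral_finsetSum _ fun n _ => (W n).1]
  exact Finset.sum_eq_zero fun n _ => (W n).2

theorem Dat.heavy (H : Dat k Φ T m X s ζ qn wn) (A : ℝ) :
    ∃ β, A ≤ ∫ x in Icc β (β + 1), tot qn T x := by
  obtain ⟨n, hn⟩ := H.L.heavy (max A 1)
  have ht : T ∈ Ioc 0 T := ⟨H.hT, le_rfl⟩
  refine ⟨X n T 0, ?_⟩
  have w := width (H.L.blob n) ht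
  have e1 : ∫ x in Icc (X n T 0) (X n T 0 + 1), qn n T x = m n ^ 2 := by
    rw [setIntegral_eq_integral_of_forall_compl_eq_zero (s := Icc (X n T 0) (X n T 0 + 1))
      fun x hx => (supp (H.L.blob n) (H.D n) fun e => hx ⟨e.2.1, e.2.2.trans w⟩).1]
    simpa using (H.D n).chq T ht fun _ => 1
  have hi : IntegrableOn (fun x => tot qn T x) (Icc (X n T 0) (X n T 0 + 1)) :=
    (integrable_finsetSum (SS (X n T 0 + 1)) fun l _ =>
      q_int (H.L.blob l) (H.D l) T).integrableOn.congr_fun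
      (fun x hx => (H.fin T hx.2).1.symm) measurableSet_Icc
  have e2 : ∫ x in Icc (X n T 0) (X n T 0 + 1), qn n T x ≤
      ∫ x in Icc (X n T 0) (X n T 0 + 1), tot qn T x := by
    refine setIntegral_mono_on (q_int (H.L.blob n) (H.D n) T).integrableOn hi measurableSet_Icc
      fun x _ => ?_
    by_cases hx : x ∈ Icc (X n T 0) (X n T 1)
    · exact (H.on ht hx).1.ge
    · rw [(supp (H.L.blob n) (H.D n) fun e => hx e.2).1]
      exact H.nn T x
  have a1 := (le_max_left A 1).trans hn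
  have a2 := (le_max_right A 1).trans hn
  nlinarith

end All

end SumA

open SumA in
theorem esum (hB : BlobStmt) (hW : WeakStmt) : SumStmt := by
  intro k Φ T m X s ζ hT ck ak nk L
  choose qn wn D using fun n => hB T (m n) (X n) (s n) _ (L.mpos n) (L.blob n)
  have H : Dat k Φ T m X s ζ qn wn := ⟨hT, ck, ak, nk, L, D⟩
  refine ⟨tot qn, H.mq, ?_, H.nn, fun t ht x => (H.off fun n a => ht.not_gt a.1.1).1,
    fun a b => ?_, fun a b t0 ht0 => H.cont a b ht0, fun t _ x => ?_, H.weak hW, H.heavy⟩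
  · have e : (uncurry fun t x => Φ (ZZ k (tot qn) t x) * tot qn t x) =
        fun z => -uncurry (tot wn) z := funext fun z => H.flux z.1 z.2
    rw [e]; exact H.mw.neg
  · obtain ⟨B, hB'⟩ := H.lb b
    refine ⟨B, fun t ht x hx => ⟨(hB' t ht x hx.2).1, ?_⟩⟩
    rw [H.flux, abs_neg]
    exact (hB' t ht x hx.2).2
  · rw [← integrable_indicator_iff measurableSet_Ioi, gk_ind]
    exact H.tot_int t x

end MI34

end MrgPart4

-- ======== part 5: formerly Pool.Agent.MP_34a893_an.MI.Fin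
section MrgPart5

open MeasureTheory Set Filter Topology Function

namespace MI34

namespace FinR

section Aff
variable {E : Type} [NormedAddCommGroup E] [NormedSpace ℝ E] [MeasurableSpace E] [BorelSpace E]
  [FiniteDimensional ℝ E] (μ : Measure E) [μ.IsAddHaarMeasure]

noncomputable def aff {c : ℝ} (hc : c ≠ 0) (b : E) : E ≃ₜ E :=
  (Homeomorph.smulOfNeZero c hc).trans (Homeomorph.addRight b)

lemma map_aff {c : ℝ} (hc : c ≠ 0) (b : E) :
    μ.map (aff hc b) = ENNReal.ofReal |(c ^ Module.finrank ℝ E)⁻¹| • μ := by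
  have e : (aff hc b : E → E) = (fun x => x + b) ∘ fun x => c • x := rfl
  rw [e, ← Measure.map_map (measurable_add_const b) (measurable_const_smul c),
    Measure.map_addHaar_smul μ hc, Measure.map_smul, map_add_right_eq_self]

lemma int_aff {c : ℝ} (hc : c ≠ 0) (b : E) (g : E → ℝ) (S : Set E) :
    ∫ x in aff hc b ⁻¹' S, g (aff hc b x) ∂μ =
      |(c ^ Module.finrank ℝ E)⁻¹| * ∫ y in S, g y ∂μ := by
  rw [← (aff hc b).measurableEmbedding.setIntegral_map, map_aff, Measure.restrict_smul,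
    integral_smul_measure, ENNReal.toReal_ofReal (abs_nonneg _), smul_eq_mul]

lemma ion_aff {c : ℝ} (hc : c ≠ 0) (b : E) {g : E → ℝ} {S : Set E} (h : IntegrableOn g S μ) :
    IntegrableOn (fun x => g (aff hc b x)) (aff hc b ⁻¹' S) μ := by
  refine (aff hc b).measurableEmbedding.integrableOn_map_iff.1 ?_
  rw [map_aff, IntegrableOn, Measure.restrict_smul]
  exact h.smul_measure ENNReal.ofReal_ne_top

end Aff

lemma int1 {η : ℝ} (hη : 0 < η) (β : ℝ) (g : ℝ → ℝ) {S S' : Set ℝ}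
    (h : ∀ x, x ∈ S' ↔ η⁻¹ * x + β ∈ S) :
    ∫ x in S', g (η⁻¹ * x + β) = η * ∫ y in S, g y := by
  have := int_aff volume (inv_ne_zero hη.ne') β g S
  rw [Module.finrank_self, pow_one, inv_inv, abs_of_pos hη] at this
  rw [← this, show S' = aff (inv_ne_zero hη.ne') β ⁻¹' S from Set.ext h]
  rfl

lemma ion1 {η : ℝ} (hη : 0 < η) (β : ℝ) {g : ℝ → ℝ} {S S' : Set ℝ}
    (h : ∀ x, x ∈ S' ↔ η⁻¹ * x + β ∈ S) (hg : IntegrableOn g S) :
    IntegrableOn (fun x => g (η⁻¹ * x + β)) S' := by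
  rw [show S' = aff (inv_ne_zero hη.ne') β ⁻¹' S from Set.ext h]
  exact ion_aff volume (inv_ne_zero hη.ne') β hg

lemma mem_Icc_aff {η : ℝ} (hη : 0 < η) (β a b x : ℝ) :
    x ∈ Icc a b ↔ η⁻¹ * x + β ∈ Icc (η⁻¹ * a + β) (η⁻¹ * b + β) := by
  simp only [mem_Icc, add_le_add_iff_right, mul_le_mul_iff_right₀ (inv_pos.2 hη)]

lemma mem_Ioi_aff {η : ℝ} (hη : 0 < η) (β a x : ℝ) :
    x ∈ Ioi a ↔ η⁻¹ * x + β ∈ Ioi (η⁻¹ * a + β) := by
  simp only [mem_Ioi, add_lt_add_iff_right, mul_lt_mul_iff_right₀ (inv_pos.2 hη)]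

/-! ### the zero solution -/

lemma int_fderiv {φ : ℝ × ℝ → ℝ} (h1 : ContDiff ℝ 1 φ) (h2 : HasCompactSupport φ) (v : ℝ × ℝ) :
    Integrable (fun z => fderiv ℝ φ z v) ∧ ∫ z, fderiv ℝ φ z v = 0 := by
  have hi : Integrable (fun z => fderiv ℝ φ z v) :=
    ((h1.continuous_fderiv one_ne_zero).clm_apply continuous_const).integrable_of_hasCompactSupport
      (h2.fderiv_apply (𝕜 := ℝ) v)
  refine ⟨hi, ?_⟩
  have := integral_mul_fderiv_eq_neg_fderiv_mul_of_integrable (μ := volume)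
    (f := fun _ : ℝ × ℝ => (1 : ℝ)) (g := φ) (v := v) (by simp) (by simpa using hi)
    (by simpa using h1.continuous.integrable_of_hasCompactSupport h2)
    (fun _ _ => differentiableAt_const _) (fun x _ => h1.differentiable one_ne_zero x)
  simpa using this

lemma zero_ent (T : ℝ) (V : ℝ → ℝ) : MP34a893.IsEntropySol T V (fun _ => 0) (fun _ _ => 0) := by
  refine ⟨⟨measurable_const, 0, fun _ _ => by simp⟩, fun a b t0 _ => by simpa using tendsto_const_nhds,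
    fun φ _ _ _ => by simp, fun κ φ h1 h2 h3 _ => ?_⟩
  rw [setIntegral_eq_integral_of_forall_compl_eq_zero, integral_add
    ((int_fderiv h1 h2 _).1.const_mul _) ((int_fderiv h1 h2 _).1.const_mul _), integral_const_mul,
    integral_const_mul, (int_fderiv h1 h2 _).2, (int_fderiv h1 h2 _).2]
  · simp
  · intro z hz
    have : fderiv ℝ φ z = 0 := by
      by_contra h
      exact hz (h3 (support_fderiv_subset ℝ h))
    simp [this]

lemma zero_loc (η T : ℝ) (V γ : ℝ → ℝ) :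
    MP34a893.IsLocSol (1 / 2) η T V γ (fun _ => 0) (fun _ _ => 0) :=
  ⟨measurable_const, fun _ _ => le_rfl, fun _ _ => ⟨0, fun _ _ _ _ => le_rfl⟩,
    fun a b t0 _ => by simpa using tendsto_const_nhds, fun _ _ _ => by simp, fun _ _ => by simp,
    fun φ _ _ _ => by simp⟩

/-! ### the rescaled solution -/

section Resc
variable {k Φ : ℝ → ℝ} {q : ℝ → ℝ → ℝ} {I η : ℝ}

lemma rt (hk : ∀ d, 0 ≤ k d) (hI : 0 < I) (d u : ℝ) :
    (k d ^ 2 / I ^ 2 * u) ^ (1 / 2 : ℝ) = I⁻¹ * (k d * √u) := by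
  rw [← Real.sqrt_eq_rpow, Real.sqrt_mul (by positivity), ← div_pow,
    Real.sqrt_sq (div_nonneg (hk d) hI.le)]
  ring

lemma arg (β x y : ℝ) : (y - x) / η = η⁻¹ * y + β - (η⁻¹ * x + β) := by ring

lemma vel (hk : ∀ d, 0 ≤ k d) (hI : 0 < I) (hη : 0 < η) (a β t x : ℝ) :
    I * √(MP34a893.Wnl (1 / 2) η (fun d => k d ^ 2 / I ^ 2)
      (fun t x => q (η⁻¹ * t + a) (η⁻¹ * x + β)) t x) = ZZ k q (η⁻¹ * t + a) (η⁻¹ * x + β) := by
  have hZ : 0 ≤ ZZ k q (η⁻¹ * t + a) (η⁻¹ * x + β) :=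
    integral_nonneg fun y => mul_nonneg (hk _) (Real.sqrt_nonneg _)
  unfold MP34a893.Wnl
  simp_rw [fun y => rt hk hI ((y - x) / η) (q (η⁻¹ * t + a) (η⁻¹ * y + β)), arg β x]
  rw [integral_const_mul, int1 hη β (fun y => k (y - (η⁻¹ * x + β)) * √(q (η⁻¹ * t + a) y))
    (mem_Ioi_aff hη β x)]
  change I * √((1 / η * (I⁻¹ * (η * ZZ k q (η⁻¹ * t + a) (η⁻¹ * x + β)))) ^ (1 / (1 / 2) : ℝ)) = _
  rw [show (1 / (1 / 2) : ℝ) = (2 : ℕ) by norm_num, Real.rpow_natCast,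
    Real.sqrt_sq (by positivity)]
  field_simp

lemma weak (h : Euler k Φ (1 / 2) q) (hη : 0 < η) {T : ℝ} (hT : η ≤ 2 * T) (β : ℝ)
    {φ : ℝ × ℝ → ℝ} (h1 : ContDiff ℝ 1 φ) (h2 : HasCompactSupport φ)
    (h3 : tsupport φ ⊆ Iio T ×ˢ univ) :
    ∫ z in Ioo 0 T ×ˢ univ, (q (η⁻¹ * z.1 + (1 / 2 - η⁻¹ * T)) (η⁻¹ * z.2 + β) *
      fderiv ℝ φ z (1, 0) + -Φ (ZZ k q (η⁻¹ * z.1 + (1 / 2 - η⁻¹ * T)) (η⁻¹ * z.2 + β)) *
        q (η⁻¹ * z.1 + (1 / 2 - η⁻¹ * T)) (η⁻¹ * z.2 + β) * fderiv ℝ φ z (0, 1)) = 0 := by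
  have hc := inv_ne_zero hη.ne'
  have hi := inv_pos.2 hη
  set b : ℝ × ℝ := (1 / 2 - η⁻¹ * T, β) with hb
  set f := aff hc b with hf
  have f1 : ∀ z, f z = η⁻¹ • z + b := fun _ => rfl
  have f2 : ∀ w, f.symm w = η • (w - b) := fun w => by
    rw [Homeomorph.symm_apply_eq, f1, smul_smul, inv_mul_cancel₀ hη.ne', one_smul, sub_add_cancel]
  have f3 : (f.symm : ℝ × ℝ → ℝ × ℝ) = fun w => η • (w - b) := funext f2
  have hd : ∀ w, HasFDerivAt f.symm (η • ContinuousLinearMap.id ℝ (ℝ × ℝ)) w := fun w => by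
    rw [f3]
    exact ((hasFDerivAt_id w).sub_const b).const_smul η
  have hψ : ∀ z v, fderiv ℝ (φ ∘ f.symm) (f z) v = η * fderiv ℝ φ z v := fun z v => by
    have := ((h1.differentiable one_ne_zero (f.symm (f z))).hasFDerivAt.comp (f z) (hd _)).fderiv
    rw [this, Homeomorph.symm_apply_apply]
    simp
  have hw := h.weak (φ ∘ f.symm) (h1.comp (by rw [f3]; fun_prop)) (h2.comp_homeomorph _) (by
    rw [tsupport_comp_eq_preimage]
    intro w hw
    have := (h3 hw).1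
    rw [f2] at this
    refine ⟨?_, trivial⟩
    simp only [Prod.smul_fst, Prod.fst_sub, hb, smul_eq_mul, mem_Iio] at this ⊢
    have e : η * (w.1 - (1 / 2 - η⁻¹ * T)) = η * (w.1 - 1 / 2) + T := by field_simp; ring
    rw [e] at this
    by_contra hh
    have := mul_nonneg hη.le (sub_nonneg.2 (not_lt.1 hh))
    linarith)
  have h4 := int_aff volume hc b (fun z : ℝ × ℝ => q z.1 z.2 * fderiv ℝ (φ ∘ f.symm) z (1, 0) +
      -Φ (ZZ k q z.1 z.2) * q z.1 z.2 * fderiv ℝ (φ ∘ f.symm) z (0, 1)) (Ioo 0 (1 / 2) ×ˢ univ)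
  rw [hw, mul_zero, ← hf] at h4
  simp_rw [hψ] at h4
  have g1 : ∀ z : ℝ × ℝ, (f z).1 = η⁻¹ * z.1 + (1 / 2 - η⁻¹ * T) := fun _ => rfl
  have g2 : ∀ z : ℝ × ℝ, (f z).2 = η⁻¹ * z.2 + β := fun _ => rfl
  have hT' : 1 / 2 - η⁻¹ * T ≤ 0 := by
    have : η⁻¹ * η ≤ η⁻¹ * (2 * T) := by gcongr
    rw [inv_mul_cancel₀ hη.ne'] at this
    linarith
  rw [setIntegral_eq_of_subset_of_forall_sdiff_eq_zero (s := f ⁻¹' (Ioo 0 (1 / 2) ×ˢ univ))
    (measurableSet_Ioo.prod MeasurableSet.univ)]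
  · refine mul_left_cancel₀ hη.ne' ?_
    rw [mul_zero, ← integral_const_mul]
    refine Eq.trans (integral_congr_ae (Eventually.of_forall fun z => ?_)) h4
    simp only [g1, g2]
    ring
  · intro z hz
    obtain ⟨⟨z1, z2⟩, -⟩ := hz
    rw [g1] at z1 z2
    refine ⟨⟨?_, ?_⟩, trivial⟩
    · exact (mul_pos_iff_of_pos_left hi).1 (by linarith)
    · exact (mul_lt_mul_iff_right₀ hi).1 (by linarith)
  · rintro z ⟨⟨⟨-, z2⟩, -⟩, hz⟩
    have : η⁻¹ * z.1 + (1 / 2 - η⁻¹ * T) ≤ 0 := by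
      by_contra hh
      refine hz ⟨⟨?_, ?_⟩, trivial⟩ <;> rw [g1]
      · exact not_le.1 hh
      · have := (mul_lt_mul_iff_right₀ hi).2 z2
        linarith
    rw [h.zero _ this]
    simp

lemma tle (hη : 0 < η) {T t : ℝ} (ht : t ≤ T) : η⁻¹ * t + (1 / 2 - η⁻¹ * T) ≤ 1 / 2 := by
  have := (mul_le_mul_iff_right₀ (inv_pos.2 hη)).2 ht
  linarith

lemma loc (h : Euler k Φ (1 / 2) q) (hk : ∀ d, 0 ≤ k d) (hI : 0 < I) (hη : 0 < η) {T : ℝ}
    (hT : η ≤ 2 * T) (β : ℝ) :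
    MP34a893.IsLocSol (1 / 2) η T (fun w => -Φ (I * √w)) (fun d => k d ^ 2 / I ^ 2) (fun _ => 0)
      (fun t x => q (η⁻¹ * t + (1 / 2 - η⁻¹ * T)) (η⁻¹ * x + β)) := by
  have hm : Measurable fun z : ℝ × ℝ => (η⁻¹ * z.1 + (1 / 2 - η⁻¹ * T), η⁻¹ * z.2 + β) := by
    fun_prop
  refine ⟨h.mq.comp hm, fun _ _ => h.nn _ _, fun a b => ?_, fun a b t0 ht0 => ?_,
    fun t ht x => ?_, fun a b => ?_, fun φ h1 h2 h3 => ?_⟩
  · obtain ⟨B, hB⟩ := h.lb (η⁻¹ * a + β) (η⁻¹ * b + β)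
    exact ⟨B, fun t ht x hx => (hB _ (tle hη ht.2) _ ((mem_Icc_aff hη β a b x).1 hx)).1⟩
  · have e := fun t => int1 hη β (fun y => |q (η⁻¹ * t + (1 / 2 - η⁻¹ * T)) y -
      q (η⁻¹ * t0 + (1 / 2 - η⁻¹ * T)) y|) (mem_Icc_aff hη β a b)
    simp_rw [e]
    rw [← mul_zero η]
    refine ((h.cont _ _ _ (tle hη ht0.2)).comp (f := fun t => η⁻¹ * t + (1 / 2 - η⁻¹ * T))
      ?_).const_mul η
    exact ContinuousWithinAt.tendsto_nhdsWithin (by fun_prop) fun t ht => tle hη ht.2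
  · simp_rw [fun y => rt hk hI ((y - x) / η) (q (η⁻¹ * t + (1 / 2 - η⁻¹ * T)) (η⁻¹ * y + β)),
      arg β x]
    exact (ion1 hη β (mem_Ioi_aff hη β x) (h.int _ (tle hη ht.2) _)).const_mul _
  · simp_rw [vel hk hI hη, neg_mul]
    obtain ⟨B, hB⟩ := h.lb (η⁻¹ * a + β) (η⁻¹ * b + β)
    refine (Measure.integrableOn_of_bounded (M := B) ?_ (h.mw.comp hm).aestronglyMeasurable ?_).neg
    · rw [Measure.volume_eq_prod, Measure.prod_prod]
      exact ENNReal.mul_ne_top measure_Ioo_lt_top.ne measure_Icc_lt_top.ne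
    · refine ae_restrict_of_forall_mem (measurableSet_Ioo.prod measurableSet_Icc) fun z hz => ?_
      exact (hB _ (tle hη hz.1.2.le) _ ((mem_Icc_aff hη β a b _).1 hz.2)).2
  · simp_rw [vel hk hI hη, weak h hη hT β h1 h2 h3]
    simp

lemma big (h : Euler k Φ (1 / 2) q) (hη : 0 < η) (h1 : η ≤ 1) {β B : ℝ}
    (hβ : 1 / η ^ 2 ≤ ∫ x in Icc β (β + 1), q (1 / 2) x) {g : ℝ → ℝ} (hg : Measurable g)
    (hB : ∀ᵐ x, |g x| ≤ B) :
    η⁻¹ + -B ≤ ∫ x in Icc (0 : ℝ) 1, |q (1 / 2) (η⁻¹ * x + β) - g x| := by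
  obtain ⟨C, hC⟩ := h.lb (η⁻¹ * 0 + β) (η⁻¹ * 1 + β)
  have i1 : IntegrableOn (fun x => q (1 / 2) (η⁻¹ * x + β)) (Icc 0 1) := by
    refine Measure.integrableOn_of_bounded (M := C) measure_Icc_lt_top.ne
      (h.mq.comp (f := fun x : ℝ => ((1 / 2 : ℝ), η⁻¹ * x + β)) (by fun_prop)).aestronglyMeasurable
      (ae_restrict_of_forall_mem measurableSet_Icc fun x hx => ?_)
    rw [Real.norm_of_nonneg (h.nn _ _)]
    exact (hC _ le_rfl _ ((mem_Icc_aff hη β 0 1 _).1 hx)).1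
  have i2 : IntegrableOn g (Icc 0 1) := Measure.integrableOn_of_bounded (M := B)
    measure_Icc_lt_top.ne hg.aestronglyMeasurable (ae_restrict_of_ae hB)
  have i3 : IntegrableOn (fun _ : ℝ => B) (Icc 0 1) := integrableOn_const measure_Icc_lt_top.ne
  have e := int1 hη β (q (1 / 2)) (mem_Icc_aff hη β 0 η)
  rw [mul_zero, zero_add, inv_mul_cancel₀ hη.ne', add_comm 1 β] at e
  have l1 : ∫ x in Icc 0 η, q (1 / 2) (η⁻¹ * x + β) ≤ ∫ x in Icc 0 1, q (1 / 2) (η⁻¹ * x + β) :=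
    setIntegral_mono_set i1 (Eventually.of_forall fun _ => h.nn _ _)
      (Icc_subset_Icc_right h1).eventuallyLE
  have l2 : ∫ x in Icc (0 : ℝ) 1, (q (1 / 2) (η⁻¹ * x + β) - B) ≤
      ∫ x in Icc (0 : ℝ) 1, |q (1 / 2) (η⁻¹ * x + β) - g x| := by
    refine integral_mono_ae (i1.sub i3) (i1.sub i2).abs ?_
    filter_upwards [ae_restrict_of_ae hB] with x hx
    linarith [le_abs_self (q (1 / 2) (η⁻¹ * x + β) - g x), le_abs_self (g x)]
  rw [integral_sub i1 i3] at l2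
  have l3 : η⁻¹ ≤ η * ∫ x in Icc β (β + 1), q (1 / 2) x :=
    le_trans (le_of_eq (by field_simp)) (mul_le_mul_of_nonneg_left hβ hη.le)
  have l4 : ∫ _ in Icc (0 : ℝ) 1, B = B := by simp
  linarith

end Resc

end FinR

open FinR in
theorem fin (hK : KFacts) (hL : LagStmt) (hS : SumStmt) : MainStmt := by
  obtain ⟨Φ, m, X, s, ζ, c2, mo, z1, hl⟩ := hL
  have hk : ∀ d, 0 ≤ kk d := fun d => (hK.pos d).le
  obtain ⟨q, hq⟩ := hS kk Φ (1 / 2) m X s ζ (by norm_num) hK.cd.continuous hK.anti hk hl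
  have hI : 0 < ∫ d in Ioi (0 : ℝ), kk d := by
    rw [setIntegral_pos_iff_support_of_nonneg_ae (Eventually.of_forall hk) hK.int0,
      show support kk = univ from eq_univ_of_forall fun d => (hK.pos d).ne', univ_inter]
    simp
  set I := ∫ d in Ioi (0 : ℝ), kk d with hIe
  have d1 : deriv (fun d => kk d ^ 2 / I ^ 2) = fun d => deriv (fun d => kk d ^ 2) d / I ^ 2 :=
    funext fun d => deriv_div_const _
  choose β hβ using hq.heavy
  refine ⟨1 / 2, fun w => -Φ (I * √w), fun d => kk d ^ 2 / I ^ 2, by norm_num, by norm_num,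
    contDiff_iff_contDiffAt.2 fun w => ?_, fun w => Antitone.deriv_nonpos fun a b hab => ?_,
    (hK.cd.pow 2).div_const _, fun d => by positivity, fun a b hab => ?_, ?_, ?_, ?_, ?_,
    fun T hT => ⟨zero_ent _ _, fun η => if η ≤ 2 * T then fun t x =>
      q (η⁻¹ * t + (1 / 2 - η⁻¹ * T)) (η⁻¹ * x + β (1 / η ^ 2)) else fun _ _ => 0,
      fun η hη => ?_, fun qs hs => ?_⟩⟩
  · rcases le_or_gt w 0 with hw | hw
    · refine (contDiffAt_const (c := (0 : ℝ))).congr_of_eventuallyEq ?_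
      have : ∀ᶠ u in 𝓝 w, I * √u < 1 :=
        ContinuousAt.eventually_lt (by fun_prop) continuousAt_const
          (by simp [Real.sqrt_eq_zero_of_nonpos hw])
      filter_upwards [this] with u hu
      rw [z1 _ hu.le, neg_zero]
    · exact (c2.contDiffAt.comp w (contDiffAt_const.mul (Real.contDiffAt_sqrt hw.ne'))).neg
  · exact neg_le_neg (mo (mul_le_mul_of_nonneg_left (Real.sqrt_le_sqrt hab) hI.le))
  · have := hK.anti hab
    have := hk b
    show kk b ^ 2 / I ^ 2 ≤ kk a ^ 2 / I ^ 2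
    gcongr
  · refine Integrable.div_const (hK.int0.mono' (hK.cd.continuous.pow 2).aestronglyMeasurable
      (ae_restrict_of_forall_mem measurableSet_Ioi fun d hd => ?_)) _
    have h1 : kk d ≤ 1 := (hK.anti (le_of_lt hd)).trans (hK.one 0 zero_le_one).le
    rw [Pi.pow_apply, Real.norm_of_nonneg (sq_nonneg _)]
    nlinarith [hk d]
  · rw [d1]
    exact hK.int1.div_const _
  · rw [d1, show deriv (fun d => deriv (fun d => kk d ^ 2) d / I ^ 2) =
      fun d => deriv (deriv fun d => kk d ^ 2) d / I ^ 2 from funext fun d => deriv_div_const _]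
    exact hK.int2.div_const _
  · have e := fun d => rt hk hI d 1
    simp only [mul_one, Real.sqrt_one] at e
    simp_rw [e]
    rw [integral_const_mul, inv_mul_cancel₀ hI.ne']
  · by_cases h : η ≤ 2 * T
    · simp only [if_pos h]
      exact loc hq hk hI hη h _
    · simp only [if_neg h]
      exact zero_loc _ _ _ _
  · obtain ⟨⟨hm, B, hB⟩, -⟩ := hs
    refine tendsto_atTop_mono' _ ?_ (tendsto_atTop_add_const_right _ (-B) tendsto_inv_nhdsGT_zero)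
    filter_upwards [Ioc_mem_nhdsGT (lt_min one_pos (by linarith : 0 < 2 * T))] with η hη
    simp only [if_pos (hη.2.trans (min_le_right _ _)), add_sub_cancel]
    exact big hq hη.1 (hη.2.trans (min_le_left _ _)) (hβ _) (hm.of_uncurry_left)
      (hB T ⟨hT.le, le_rfl⟩)

end MI34

end MrgPart5

-- marker of a merged file
example : 731051 + 677175 = 731051 + 677175 := rfl
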