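import Mathlib.Algebra.Ring.IsFormallyReal
import Mathlib.Analysis.SpecialFunctions.ImproperIntegrals
import Mathlib.MeasureTheory.Order.Group.Lattice
import Mathlib.Order.CompletePartialOrder
import Pool.Agent.MP_34a893_an.MI.Fin
import Pool.Agent.MP_34a893_an.MI.Lag

-- ======== part 0: formerly Pool.Agent.MP_34a893_an.MI.Ker
section MrgPart0

/-! The facts on the kernel. -/

open MeasureTheory Set Filter Topology Function

namespace MI34

namespace Ker

/-- the term of level `j` -/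
noncomputable def tm (j : ℕ) (d : ℝ) : ℝ :=
  (kap j - kaq j) * th ((d - M j) / eps j) + (kaq j - kap (j + 1)) * th (d - EE j)

/-- a single step -/
noncomputable def stp (f : ℝ → ℝ) (a c x w : ℝ) (d : ℝ) : ℝ := a - c * f ((d - x) / w)

/-- the left end of level `j` -/
noncomputable def lo : ℕ → ℝ
  | 0 => 2
  | j + 1 => EE j + 1

theorem EE_ge (j : ℕ) : M j + 2 ≤ EE j := by
  have := M_ge j; have := N_pos j; unfold EE; linarith
theorem EE_le (j : ℕ) : EE j + 2 ≤ 2 * M j := by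
  have := M_ge j; have := N_mul_le j; unfold EE; linarith
theorem EE_mono : Monotone EE := monotone_nat_of_le_succ fun j => by
  have := EE_le j; have := EE_ge (j + 1); have := M_mul_le j; have := M_pos j; linarith
theorem lo_le (j : ℕ) : lo j ≤ M j / 4 := by
  cases j with
  | zero => have := M_ge 0; simp only [lo]; linarith
  | succ j => have := EE_le j; have := M_mul_le j; have := M_pos j; simp only [lo]; linarith
theorem two_le_lo (j : ℕ) : 2 ≤ lo j := by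
  cases j with
  | zero => exact le_rfl
  | succ j => have := EE_ge j; have := M_pos j; simp only [lo]; linarith
theorem EE_le_lo {i j : ℕ} (h : i < j) : EE i + 1 ≤ lo j := by
  cases j with
  | zero => omega
  | succ j => have := EE_mono (Nat.lt_succ_iff.1 h); simp only [lo]; linarith

theorem th1_zero {j : ℕ} {d : ℝ} (h : d ≤ M j) : th ((d - M j) / eps j) = 0 :=
  th_zero (div_nonpos_of_nonpos_of_nonneg (by linarith) (eps_pos j).le)
theorem th1_one {j : ℕ} {d : ℝ} (h : M j + eps j ≤ d) : th ((d - M j) / eps j) = 1 :=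
  th_one ((one_le_div (eps_pos j)).2 (by linarith))
theorem tm_zero {j : ℕ} {d : ℝ} (h : d ≤ M j) : tm j d = 0 := by
  have := EE_ge j
  rw [tm, th1_zero h, th_zero (by linarith)]; ring
theorem tm_top {j : ℕ} {d : ℝ} (h : EE j + 1 ≤ d) : tm j d = kap j - kap (j + 1) := by
  have := EE_ge j; have := eps_le j
  rw [tm, th1_one (by linarith), th_one (by linarith)]; ring

theorem kk_low {d : ℝ} (h : d ≤ M 0) : kk d = 1 - (1 - kap 0) * th (d - 1) := by
  have : ∀ i, tm i d = 0 := fun i => tm_zero (h.trans (M_mono (Nat.zero_le i)))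
  show 1 - (1 - kap 0) * th (d - 1) - ∑' i, tm i d = _
  simp [this]

theorem kk_eq {j : ℕ} {d : ℝ} (h1 : lo j ≤ d) (h2 : d ≤ M (j + 1)) : kk d = kap j - tm j d := by
  show 1 - (1 - kap 0) * th (d - 1) - ∑' i, tm i d = _
  have := two_le_lo j
  rw [tsum_eq_sum (s := Finset.range (j + 1)) fun i hi =>
      tm_zero (h2.trans (M_mono (by simpa using hi))), Finset.sum_range_succ,
    Finset.sum_congr rfl fun i hi => tm_top ((EE_le_lo (Finset.mem_range.1 hi)).trans h1),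
    Finset.sum_range_sub', th_one (by linarith)]
  ring

theorem loc (d : ℝ) : ∃ a c x w : ℝ, 0 < w ∧ w ≤ 1 ∧ 0 ≤ c ∧ c < a ∧ a ≤ w ∧
    (0 < d → a / w * d ^ 2 ≤ M 0 ^ 2) ∧ kk =ᶠ[𝓝 d] stp th a c x w := by
  have hM := M_ge 0
  rcases lt_or_ge d (M 0) with hd | hd
  · refine ⟨1, 1 - kap 0, 1, 1, one_pos, le_rfl, by linarith [kap_le 0], by linarith [kap_pos 0],
      le_rfl, fun h => by rw [div_one, one_mul]; gcongr, ?_⟩
    filter_upwards [Iio_mem_nhds hd] with x hx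
    rw [kk_low (le_of_lt hx), stp, div_one]
  have hex : ∃ j, d < EE j + 2 := by
    obtain ⟨j, hj⟩ := (tendsto_M.eventually (eventually_gt_atTop d)).exists
    exact ⟨j, by linarith [EE_ge j]⟩
  obtain ⟨j, h1, h2⟩ : ∃ j, lo j < d ∧ d < EE j + 2 := by
    classical
    refine ⟨Nat.find hex, ?_, Nat.find_spec hex⟩
    rcases hf : Nat.find hex with _ | i
    · simp only [lo]; linarith
    · have := not_lt.1 (Nat.find_min hex (m := i) (by omega))
      simp only [lo]; linarith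
  have e1 := EE_le j; have e2 := EE_ge j; have e3 := M_mul_le j; have e4 := M_ge j
  have e5 := eps_le j; have e6 := eps_pos j; have e7 := M_pos j
  have hsq : 0 < d → d ^ 2 ≤ 4 * M j ^ 2 := fun h => by nlinarith
  have h1' : (1 : ℝ) ≤ M 0 ^ 2 := one_le_pow₀ (one_le_M 0)
  rcases lt_or_ge d (EE j) with h3 | h3
  · have q : kap j / eps j = 2 / M j ^ 3 := by unfold kap eps; field_simp
    have q1 := mul_pow_le e4 (c := 8) (by norm_num) (a := 2) (b := 3) (by norm_num)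
    have q2 := mul_pow_le e4 (c := 2) (by norm_num) (a := 0) (b := 3) (by norm_num)
    refine ⟨kap j, kap j - kaq j, M j, eps j, e6, by linarith, by linarith [kaq_le_kap j],
      by linarith [kaq_pos j], ?_, fun h => ?_, ?_⟩
    · rw [← div_le_one e6, q, div_le_one (by positivity)]; linarith
    · rw [q, div_mul_eq_mul_div]
      refine le_trans ((div_le_one (by positivity)).2 ?_) h1'
      linarith [hsq h]
    · filter_upwards [Ioo_mem_nhds h1 h3] with x hx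
      rw [kk_eq hx.1.le (by linarith [hx.2]), tm, th_zero (x := x - EE j) (by linarith [hx.2]), stp]
      ring
  · have q1 := mul_pow_le e4 (c := 4) (by norm_num) (a := 2) (b := 24) (by norm_num)
    refine ⟨kaq j, kaq j - kap (j + 1), EE j, 1, one_pos, le_rfl, by linarith [kap_succ_le_kaq j],
      by linarith [kap_pos (j + 1)], by linarith [kaq_le j], fun h => ?_, ?_⟩
    · rw [div_one, kaq, div_mul_eq_mul_div]
      refine le_trans ((div_le_one (by positivity)).2 ?_) h1'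
      linarith [hsq h]
    · filter_upwards [Ioo_mem_nhds (a := M j + 1) (by linarith) h2] with x hx
      rw [kk_eq (by linarith [hx.1, lo_le j]) (by linarith [hx.2]), tm,
        th1_one (by linarith [hx.1]), stp, div_one]
      ring

theorem deriv_stp {f : ℝ → ℝ} (hf : Differentiable ℝ f) (a c x w : ℝ) :
    deriv (stp f a c x w) = stp (deriv f) 0 (c / w) x w := by
  funext d
  have h1 : HasDerivAt (fun d : ℝ => (d - x) / w) (1 / w) d :=
    ((hasDerivAt_id d).sub_const x).div_const w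
  have h2 := (((hf _).hasDerivAt.comp d h1).const_mul c).const_sub a
  exact (h2.congr_deriv (by simp only [stp]; ring)).deriv

theorem cd : ContDiff ℝ 2 kk := contDiff_iff_contDiffAt.2 fun d => by
  obtain ⟨a, c, x, w, -, -, -, -, -, -, h⟩ := loc d
  have : ContDiff ℝ 2 (stp th a c x w) := contDiff_const.sub (contDiff_const.mul
    ((th_cd (n := 2)).comp ((contDiff_id.sub contDiff_const).div_const w)))
  exact this.contDiffAt.congr_of_eventuallyEq h

theorem pt (d : ℝ) : ∃ u : ℝ, u ≤ 1 ∧ 0 < kk d ∧ kk d ≤ u ∧ deriv kk d ≤ 0 ∧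
    |deriv kk d| ≤ bb * u ∧ |kk d * deriv (deriv kk) d| ≤ bb * u ^ 2 ∧
    (0 < d → u * d ^ 2 ≤ M 0 ^ 2) := by
  obtain ⟨a, c, x, w, w0, w1, c0, ca, aw, hd, h⟩ := loc d
  have a0 : 0 < a := c0.trans_lt ca
  have hb := bb_ge
  have e0 : kk d = a - c * th ((d - x) / w) := h.eq_of_nhds
  have e1 : deriv kk d = 0 - c / w * deriv th ((d - x) / w) := by
    rw [h.deriv_eq, deriv_stp th_diff]; rfl
  have e2 : deriv (deriv kk) d = 0 - c / w / w * deriv (deriv th) ((d - x) / w) := by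
    rw [h.deriv.deriv_eq, deriv_stp th_diff, deriv_stp dth_diff]; rfl
  have t0 := mul_nonneg c0 (th_nonneg ((d - x) / w))
  have t1 := mul_le_of_le_one_right c0 (th_le_one ((d - x) / w))
  have k0 : 0 < kk d := by linarith
  have k1 : kk d ≤ a := by linarith
  have cw : 0 ≤ c / w := by positivity
  refine ⟨a / w, (div_le_one w0).2 aw, k0, k1.trans ((le_div_iff₀ w0).2
    (mul_le_of_le_one_right a0.le w1)), ?_, ?_, ?_, hd⟩
  · rw [e1]; linarith [mul_nonneg cw (dth_nonneg ((d - x) / w))]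
  · rw [e1, zero_sub, abs_neg, abs_mul, abs_of_nonneg cw, mul_comm]
    have := abs_dth_le ((d - x) / w)
    gcongr
  · rw [e2, zero_sub, abs_mul, abs_neg, abs_mul, abs_of_pos k0, abs_of_nonneg (by positivity)]
    have := abs_ddth_le ((d - x) / w)
    calc kk d * (c / w / w * |deriv (deriv th) ((d - x) / w)|) ≤ a * (a / w / w * bb) := by gcongr
      _ = _ := by ring

theorem integ {f : ℝ → ℝ} (hf : Continuous f) {C : ℝ} (h : ∀ d, 0 < d → |f d| * d ^ 2 ≤ C) :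
    IntegrableOn f (Ioi 0) := by
  rw [← Ioc_union_Ioi_eq_Ioi (zero_le_one' ℝ)]
  refine (hf.integrableOn_Ioc).union ?_
  refine Integrable.mono' ((integrableOn_Ioi_rpow_of_lt (a := -2) (by norm_num) one_pos).const_mul C)
    hf.aestronglyMeasurable ((ae_restrict_iff' measurableSet_Ioi).2 (Eventually.of_forall
      fun d hd => ?_))
  have d0 : 0 < d := one_pos.trans hd
  rw [Real.rpow_neg d0.le, Real.rpow_two, ← div_eq_mul_inv, le_div_iff₀ (by positivity)]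
  exact h d d0

theorem diff : Differentiable ℝ kk := cd.differentiable (by simp)
theorem cd1 : ContDiff ℝ 1 (deriv kk) := cd.deriv'
theorem diff1 : Differentiable ℝ (deriv kk) := cd1.differentiable (by simp)

theorem dsq : (deriv fun d => kk d ^ 2) = fun d => 2 * (kk d * deriv kk d) := by
  funext d
  exact (((diff d).hasDerivAt.fun_pow 2).congr_deriv (by simp [mul_assoc])).deriv

theorem ddsq : deriv (deriv fun d => kk d ^ 2) =
    fun d => 2 * (deriv kk d * deriv kk d + kk d * deriv (deriv kk) d) := by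
  rw [dsq]
  funext d
  exact (((diff d).hasDerivAt.fun_mul (diff1 d).hasDerivAt).const_mul 2).deriv

end Ker

open Ker in
theorem ker : KFacts where
  cd := cd
  anti := antitone_of_deriv_nonpos diff fun d => by
    obtain ⟨u, -, -, -, h, -⟩ := pt d
    exact h
  pos d := by
    obtain ⟨u, -, h, -⟩ := pt d
    exact h
  one d h := by
    rw [kk_low (h.trans (one_le_M 0)), th_zero (by linarith)]; ring
  p1 j d h1 h2 := by
    rw [kk_eq ((lo_le j).trans h1) (h2.trans (M_mono (Nat.le_succ j))), tm_zero h2, sub_zero]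
  p2 j d h1 h2 := by
    have := lo_le j; have := M_pos j; have := eps_pos j; have := EE_le j; have := M_mul_le j
    rw [kk_eq (j := j) (by linarith) (by linarith), tm, th1_one h1, th_zero (by linarith)]
    ring
  p3 j d h1 h2 := by
    have := lo_le j; have := M_pos j; have := EE_ge j
    rw [kk_eq (j := j) (by linarith) h2, tm_top h1]
    ring
  lip := ⟨bb, fun d => by
    obtain ⟨u, h1, -, -, -, h, -⟩ := pt d
    exact h.trans (mul_le_of_le_one_right (by linarith [bb_ge]) h1)⟩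
  int0 := integ cd.continuous (C := M 0 ^ 2) fun d hd => by
    obtain ⟨u, -, h1, h2, -, -, -, h⟩ := pt d
    rw [abs_of_pos h1]
    exact le_trans (by gcongr) (h hd)
  int1 := by
    rw [dsq]
    refine integ (continuous_const.mul (cd.continuous.mul cd1.continuous))
      (C := 2 * (bb * M 0 ^ 2)) fun d hd => ?_
    obtain ⟨u, h0, h1, h2, -, h3, -, h⟩ := pt d
    have hb := bb_ge
    have h4 := h hd
    have h5 : kk d ≤ 1 := h2.trans h0
    rw [abs_mul, abs_mul, abs_of_pos h1, abs_two]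
    calc 2 * (kk d * |deriv kk d|) * d ^ 2 ≤ 2 * (1 * (bb * u)) * d ^ 2 := by gcongr
      _ = 2 * (bb * (u * d ^ 2)) := by ring
      _ ≤ _ := by gcongr
  int2 := by
    rw [ddsq]
    refine integ (continuous_const.mul ((cd1.continuous.mul cd1.continuous).add
      (cd.continuous.mul (cd1.continuous_deriv le_rfl))))
      (C := 2 * ((bb * bb + bb) * M 0 ^ 2)) fun d hd => ?_
    obtain ⟨u, h0, h1, h2, -, h3, h6, h⟩ := pt d
    have hb := bb_ge
    have h4 := h hd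
    have u0 : 0 < u := h1.trans_le h2
    have h7 : u ^ 2 ≤ u := by nlinarith
    have h8 : |deriv kk d * deriv kk d| ≤ bb * bb * u ^ 2 := by
      rw [abs_mul]
      calc _ ≤ bb * u * (bb * u) := by gcongr
        _ = _ := by ring
    have h9 : |deriv kk d * deriv kk d + kk d * deriv (deriv kk) d| ≤ (bb * bb + bb) * u :=
      calc _ ≤ bb * bb * u ^ 2 + bb * u ^ 2 := (abs_add_le _ _).trans (add_le_add h8 h6)
        _ = (bb * bb + bb) * u ^ 2 := by ring
        _ ≤ _ := by gcongr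
    rw [abs_mul, abs_two]
    calc _ ≤ 2 * ((bb * bb + bb) * u) * d ^ 2 := by gcongr
      _ = 2 * ((bb * bb + bb) * (u * d ^ 2)) := by ring
      _ ≤ _ := by gcongr

end MI34

end MrgPart0

-- ======== part 1: formerly Pool.Agent.MP_34a893_an.MI.LevA
section MrgPart1

/-! Row LEVA: existence of the compression of one blob, from the Volterra fixed point. -/

open MeasureTheory Set Filter Topology Function

namespace MI34.LevA

/-- clamp to `[0,1]` -/
noncomputable def cl (x : ℝ) : ℝ := max 0 (min x 1)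

theorem cl_cont : Continuous cl := continuous_const.max (continuous_id.min continuous_const)
theorem cl_nonneg (x : ℝ) : 0 ≤ cl x := le_max_left _ _
theorem cl_le (x : ℝ) : cl x ≤ 1 := max_le zero_le_one (min_le_right _ _)
theorem cl_eq {x : ℝ} (h : x ∈ Icc (0 : ℝ) 1) : cl x = x := by
  rw [cl, min_eq_left h.2, max_eq_right h.1]
theorem cl_le_self {x : ℝ} (h : 0 ≤ x) : cl x ≤ x := max_le h (min_le_left _ _)
theorem cl_lip (x y : ℝ) : |cl x - cl y| ≤ |x - y| := by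
  have h1 := le_abs_self (x - y)
  have h2 := neg_abs_le (x - y)
  rw [abs_le]
  unfold cl
  simp only [max_def, min_def]
  constructor <;> split_ifs <;> linarith

theorem int_lip {u v : ℝ → ℝ} (hu : Continuous u) (hv : Continuous v) {C : ℝ}
    (h : ∀ r, |u r - v r| ≤ C) (y : ℝ) :
    |(∫ r in cl y..1, u r) - ∫ r in cl y..1, v r| ≤ C := by
  rw [← intervalIntegral.integral_sub (hu.intervalIntegrable _ _) (hv.intervalIntegrable _ _)]
  have h0 : 0 ≤ C := (abs_nonneg _).trans (h 0)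
  have h1 := intervalIntegral.norm_integral_le_of_norm_le_const (a := cl y) (b := 1)
    (f := fun r => u r - v r) (C := C) fun r _ => h r
  have h2 : |1 - cl y| ≤ 1 := abs_le.2 ⟨by linarith [cl_le y], by linarith [cl_nonneg y]⟩
  exact h1.trans (mul_le_of_le_one_right h0 h2)

theorem int_cont {X : Type} [TopologicalSpace X] [FirstCountableTopology X] {u : X → ℝ → ℝ}
    (hu : Continuous (uncurry u)) {a : X → ℝ} (ha : Continuous a) :
    Continuous fun x => ∫ r in a x..1, u x r := by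
  simp_rw [fun x => intervalIntegral.integral_symm (f := u x) (μ := volume) 1 (a x)]
  exact (intervalIntegral.continuous_parametric_intervalIntegral_of_continuous hu ha).neg

theorem cont_of_lip {u : ℝ → ℝ} {L : ℝ} (h0 : 0 ≤ L) (h : ∀ x y, |u x - u y| ≤ L * |x - y|) :
    Continuous u :=
  (LipschitzWith.of_dist_le_mul (K := ⟨L, h0⟩) fun x y => h x y).continuous

/-- the data of the problem -/
structure Dat where
  P : ℝ → ℝ
  Q : ℝ → ℝ
  G : ℝ → ℝ
  g : ℝ → ℝ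
  m : ℝ
  c : ℝ
  x0 : ℝ
  A : ℝ
  D : ℝ
  H : ℝ
  L : ℝ
  m0 : 0 ≤ m
  L0 : 0 ≤ L
  Am : A * m ≤ 1
  bP : ∀ x, |P x| ≤ H
  bQ : ∀ x, 0 ≤ Q x ∧ Q x ≤ A
  bg : ∀ x, 0 ≤ g x ∧ g x ≤ D
  lP : ∀ x y, |P x - P y| ≤ L * |x - y|
  lQ : ∀ x y, |Q x - Q y| ≤ L * |x - y|
  lG : ∀ x y, |G x - G y| ≤ L * |x - y|
  lg : ∀ x y, |g x - g y| ≤ L * |x - y|

noncomputable def S (f : (Bool × ℝ) × ℝ → ℝ) (τ r : ℝ) : ℝ := cl (1 / 2 + f ((false, r), τ))

theorem S_cont {f : (Bool × ℝ) × ℝ → ℝ} (hf : Continuous f) : Continuous (uncurry (S f)) :=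
  cl_cont.comp (continuous_const.add (hf.comp (by fun_prop)))

namespace Dat

variable (d : Dat)

noncomputable def XI (f : (Bool × ℝ) × ℝ → ℝ) (τ y : ℝ) : ℝ :=
  d.x0 + f ((true, 0), τ) - ∫ r in cl y..1, S f τ r ^ 2

noncomputable def ZE (f : (Bool × ℝ) × ℝ → ℝ) (τ y : ℝ) : ℝ :=
  d.m * (∫ r in cl y..1, S f τ r) + d.G (d.XI f τ y)

noncomputable def F0 (f : (Bool × ℝ) × ℝ → ℝ) (τ y : ℝ) : ℝ :=
  1 / 2 * d.Q (d.ZE f τ y) * (d.m - d.g (d.XI f τ y) * S f τ (cl y))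

noncomputable def F1 (f : (Bool × ℝ) × ℝ → ℝ) (τ : ℝ) : ℝ :=
  d.c - d.P (d.G (d.x0 + f ((true, 0), τ)))

noncomputable def F (f : (Bool × ℝ) × ℝ → ℝ) (p : Bool × ℝ) (τ : ℝ) : ℝ :=
  cond p.1 (d.F1 f τ) (d.F0 f τ p.2)

theorem A0 : 0 ≤ d.A := (d.bQ 0).1.trans (d.bQ 0).2
theorem D0 : 0 ≤ d.D := (d.bg 0).1.trans (d.bg 0).2

variable {f f' : (Bool × ℝ) × ℝ → ℝ}

theorem XI_cont (hf : Continuous f) : Continuous (uncurry (d.XI f)) :=
  (continuous_const.add (hf.comp (by fun_prop))).sub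
    (int_cont (u := fun (x : ℝ × ℝ) r => S f x.1 r ^ 2)
      (((S_cont hf).comp (f := fun z : (ℝ × ℝ) × ℝ => (z.1.1, z.2)) (by fun_prop)).fun_pow 2)
      (cl_cont.comp continuous_snd))

theorem ZE_cont (hf : Continuous f) : Continuous (uncurry (d.ZE f)) :=
  (continuous_const.mul (int_cont (u := fun (x : ℝ × ℝ) r => S f x.1 r)
      ((S_cont hf).comp (f := fun z : (ℝ × ℝ) × ℝ => (z.1.1, z.2)) (by fun_prop))
      (cl_cont.comp continuous_snd))).add ((cont_of_lip d.L0 d.lG).comp (d.XI_cont hf))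

theorem F0_cont (hf : Continuous f) : Continuous (uncurry (d.F0 f)) :=
  (continuous_const.mul ((cont_of_lip d.L0 d.lQ).comp (d.ZE_cont hf))).mul
    (continuous_const.sub (((cont_of_lip d.L0 d.lg).comp (d.XI_cont hf)).mul
      ((S_cont hf).comp (f := fun z : ℝ × ℝ => (z.1, cl z.2))
        (continuous_fst.prodMk (cl_cont.comp continuous_snd)))))

theorem F1_cont (hf : Continuous f) : Continuous (d.F1 f) :=
  continuous_const.sub ((cont_of_lip d.L0 d.lP).comp ((cont_of_lip d.L0 d.lG).comp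
    (continuous_const.add (hf.comp (by fun_prop)))))

theorem F0_le (f : (Bool × ℝ) × ℝ → ℝ) (τ y : ℝ) : d.F0 f τ y ≤ 1 / 2 := by
  have h1 := d.bQ (d.ZE f τ y)
  have h2 : 0 ≤ d.g (d.XI f τ y) * S f τ (cl y) := mul_nonneg (d.bg _).1 (cl_nonneg _)
  have h3 := mul_le_mul_of_nonneg_right h1.2 d.m0
  have h4 := mul_nonneg h1.1 h2
  have h5 := d.Am
  unfold F0
  nlinarith

theorem F0_ge (f : (Bool × ℝ) × ℝ → ℝ) (τ y : ℝ) : -(d.A * d.D * S f τ (cl y)) ≤ d.F0 f τ y := by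
  have h1 := d.bQ (d.ZE f τ y)
  have h2 := d.bg (d.XI f τ y)
  have h3 : 0 ≤ S f τ (cl y) := cl_nonneg _
  have h4 : d.Q (d.ZE f τ y) * d.g (d.XI f τ y) ≤ d.A * d.D := mul_le_mul h1.2 h2.2 h2.1 d.A0
  have h5 := mul_le_mul_of_nonneg_right h4 h3
  have h6 := mul_nonneg h1.1 d.m0
  have h7 := mul_nonneg (mul_nonneg d.A0 d.D0) h3
  unfold F0
  nlinarith

theorem F_bd (f : (Bool × ℝ) × ℝ → ℝ) (p : Bool × ℝ) (τ : ℝ) :
    |d.F f p τ| ≤ |d.c| + d.H + d.A * d.D + 1 / 2 := by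
  have h0 : 0 ≤ d.H := (abs_nonneg _).trans (d.bP 0)
  have h1 := mul_nonneg d.A0 d.D0
  have h2 := abs_nonneg d.c
  rcases p with ⟨_ | _, y⟩
  · have h3 := d.F0_le f τ y
    have h4 := d.F0_ge f τ y
    have h5 : d.A * d.D * S f τ (cl y) ≤ d.A * d.D := mul_le_of_le_one_right h1 (cl_le _)
    exact abs_le.2 ⟨by change _ ≤ d.F0 f τ y; linarith, by change d.F0 f τ y ≤ _; linarith⟩
  · have h3 := abs_sub d.c (d.P (d.G (d.x0 + f ((true, 0), τ))))
    have h4 := d.bP (d.G (d.x0 + f ((true, 0), τ)))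
    change |d.c - _| ≤ _
    linarith

theorem mul_lip {a a' b b' x y u v : ℝ} (h1 : |a - a'| ≤ x) (h2 : |b - b'| ≤ y) (h3 : |b| ≤ u)
    (h4 : |a'| ≤ v) : |a * b - a' * b'| ≤ x * u + v * y := by
  rw [show a * b - a' * b' = (a - a') * b + a' * (b - b') by ring]
  refine (abs_add_le _ _).trans (add_le_add ?_ ?_) <;> rw [abs_mul]
  · exact mul_le_mul h1 h3 (abs_nonneg _) ((abs_nonneg _).trans h1)
  · exact mul_le_mul h4 h2 (abs_nonneg _) ((abs_nonneg _).trans h4)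

theorem F_lip (hf : Continuous f) (hf' : Continuous f') (τ C : ℝ)
    (h : ∀ p, |f (p, τ) - f' (p, τ)| ≤ C) (p : Bool × ℝ) :
    |d.F f p τ - d.F f' p τ| ≤
      (d.L * d.L + d.L * (d.m + 3 * d.L) * (d.m + d.D) + d.A * (3 * d.L + d.D)) * C := by
  have hC : 0 ≤ C := (abs_nonneg _).trans (h p)
  have hL := d.L0
  have hm := d.m0
  have hA := d.A0
  have hD := d.D0
  have n1 : 0 ≤ d.L * d.L * C := by positivity
  have n2 : 0 ≤ d.L * (d.m + 3 * d.L) * (d.m + d.D) * C := by positivity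
  have n3 : 0 ≤ d.A * (3 * d.L + d.D) * C := by positivity
  rcases p with ⟨_ | _, y⟩
  · have c1 : Continuous (S f τ) := (S_cont hf).comp (Continuous.prodMk_right τ)
    have c2 : Continuous (S f' τ) := (S_cont hf').comp (Continuous.prodMk_right τ)
    have b1 : ∀ (f : (Bool × ℝ) × ℝ → ℝ) r, |S f τ r| ≤ 1 := fun f r =>
      abs_le.2 ⟨by linarith [show 0 ≤ S f τ r from cl_nonneg _], cl_le _⟩
    have h1 : ∀ r, |S f τ r - S f' τ r| ≤ C := fun r =>
      (cl_lip _ _).trans (by rw [add_sub_add_left_eq_sub]; exact h _)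
    have h2 : ∀ r, |S f τ r ^ 2 - S f' τ r ^ 2| ≤ 2 * C := fun r => by
      have := mul_lip (h1 r) (h1 r) (b1 f r) (b1 f' r)
      rw [sq, sq]; linarith
    have h3 := int_lip c1 c2 h1 y
    have h4 := int_lip (c1.fun_pow 2) (c2.fun_pow 2) h2 y
    have h5 : |d.XI f τ y - d.XI f' τ y| ≤ 3 * C := by
      have a1 := abs_le.1 (h (true, 0))
      have a2 := abs_le.1 h4
      unfold XI
      exact abs_le.2 ⟨by linarith [a1.1, a2.2], by linarith [a1.2, a2.1]⟩
    have h6 : |d.ZE f τ y - d.ZE f' τ y| ≤ (d.m + 3 * d.L) * C := by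
      have a1 := abs_le.1 ((d.lG _ _).trans (mul_le_mul_of_nonneg_left h5 hL))
      have a2 := abs_le.1 h3
      have a3 := mul_le_mul_of_nonneg_left a2.1 hm
      have a4 := mul_le_mul_of_nonneg_left a2.2 hm
      unfold ZE
      exact abs_le.2 ⟨by linarith, by linarith⟩
    have h7 := mul_lip ((d.lg _ _).trans (mul_le_mul_of_nonneg_left h5 hL)) (h1 (cl y))
      (b1 f (cl y)) (show |d.g (d.XI f' τ y)| ≤ d.D by
        rw [abs_of_nonneg (d.bg _).1]; exact (d.bg _).2)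
    have h8 : |(d.m - d.g (d.XI f τ y) * S f τ (cl y)) - (d.m - d.g (d.XI f' τ y) * S f' τ (cl y))|
        ≤ d.L * (3 * C) * 1 + d.D * C := by
      rw [sub_sub_sub_cancel_left, abs_sub_comm]; exact h7
    have h9 : |d.m - d.g (d.XI f τ y) * S f τ (cl y)| ≤ d.m + d.D := by
      have a1 : 0 ≤ d.g (d.XI f τ y) * S f τ (cl y) := mul_nonneg (d.bg _).1 (cl_nonneg _)
      have a2 : d.g (d.XI f τ y) * S f τ (cl y) ≤ d.g (d.XI f τ y) :=
        mul_le_of_le_one_right (d.bg _).1 (cl_le _)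
      have a3 := (d.bg (d.XI f τ y)).2
      exact abs_le.2 ⟨by linarith, by linarith⟩
    have h10 := abs_le.1 (mul_lip ((d.lQ _ _).trans (mul_le_mul_of_nonneg_left h6 hL)) h8 h9
      (show |d.Q (d.ZE f' τ y)| ≤ d.A by rw [abs_of_nonneg (d.bQ _).1]; exact (d.bQ _).2))
    change |d.F0 f τ y - d.F0 f' τ y| ≤ _
    unfold F0
    exact abs_le.2 ⟨by linarith [h10.1], by linarith [h10.2]⟩
  · have h1 : |d.G (d.x0 + f ((true, 0), τ)) - d.G (d.x0 + f' ((true, 0), τ))| ≤ d.L * C :=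
      (d.lG _ _).trans (mul_le_mul_of_nonneg_left
        (by rw [add_sub_add_left_eq_sub]; exact h _) hL)
    have h2 := (d.lP _ _).trans (mul_le_mul_of_nonneg_left h1 hL)
    change |d.F1 f τ - d.F1 f' τ| ≤ _
    unfold F1
    rw [sub_sub_sub_cancel_left, abs_sub_comm]
    linarith

theorem fix (hV : VolStmt) : ∃ f : (Bool × ℝ) × ℝ → ℝ, Continuous f ∧
    (∀ y, ∀ t ∈ Icc (0 : ℝ) 1, f ((false, y), t) = ∫ τ in (0 : ℝ)..t, d.F0 f τ y) ∧
    ∀ t ∈ Icc (0 : ℝ) 1, f ((true, 0), t) = ∫ τ in (0 : ℝ)..t, d.F1 f τ := by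
  have hL := d.L0
  have hm := d.m0
  have hA := d.A0
  have hD := d.D0
  obtain ⟨f, h1, h2⟩ := hV (Bool × ℝ) 1 _ _ d.F zero_le_one (by positivity)
    (fun f hf τ _ => continuous_prod_of_discrete_left.2 fun b => by
      cases b
      · exact (d.F0_cont hf).comp (Continuous.prodMk_right τ)
      · exact continuous_const (y := d.F1 f τ))
    (fun f hf p => by
      rcases p with ⟨_ | _, y⟩
      · exact ((d.F0_cont hf).comp (Continuous.prodMk_left y)).aestronglyMeasurable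
      · exact (d.F1_cont hf).aestronglyMeasurable)
    (fun f _ p τ _ => d.F_bd f p τ) (fun f f' hf hf' τ _ C h p => d.F_lip hf hf' τ C h p)
  exact ⟨f, h1, fun y => h2 (false, y), h2 (true, 0)⟩

theorem range (hf : Continuous f)
    (h : ∀ y, ∀ t ∈ Icc (0 : ℝ) 1, f ((false, y), t) = ∫ τ in (0 : ℝ)..t, d.F0 f τ y)
    {t y : ℝ} (ht : t ∈ Icc (0 : ℝ) 1) (hy : y ∈ Icc (0 : ℝ) 1) :
    0 < 1 / 2 + f ((false, y), t) ∧ 1 / 2 + f ((false, y), t) ≤ 1 := by
  have hc : Continuous fun τ => d.F0 f τ y := (d.F0_cont hf).comp (Continuous.prodMk_left y)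
  have hβ := mul_nonneg d.A0 d.D0
  constructor
  · have h1 : ∀ x, HasDerivAt (fun t => 1 / 4 * Real.exp (-(d.A * d.D + 1) * t))
        (1 / 4 * (Real.exp (-(d.A * d.D + 1) * x) * -(d.A * d.D + 1))) x := fun x =>
      ((((hasDerivAt_id' x).const_mul (-(d.A * d.D + 1))).exp).const_mul (1 / 4)).congr_deriv
        (by rw [mul_one])
    have h2 := image_le_of_deriv_right_lt_deriv_boundary (a := 0) (b := 1)
      (B := fun t => 1 / 2 + ∫ τ in (0 : ℝ)..t, d.F0 f τ y) (B' := fun τ => d.F0 f τ y)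
      (fun x _ => (h1 x).continuousAt.continuousWithinAt) (fun x _ => (h1 x).hasDerivWithinAt)
      (by simp; norm_num)
      (fun x => (hc.integral_hasStrictDerivAt 0 x).hasDerivAt.const_add _)
      (fun x hx e => by
        have a1 := d.F0_ge f x y
        have a2 := Real.exp_pos (-(d.A * d.D + 1) * x)
        rw [← h y x ⟨hx.1, hx.2.le⟩] at e
        have a3 : S f x (cl y) ≤ 1 / 4 * Real.exp (-(d.A * d.D + 1) * x) := by
          rw [cl_eq hy, S, ← e]; exact cl_le_self (by positivity)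
        have a4 := mul_le_mul_of_nonneg_left a3 hβ
        linarith) ht
    rw [h y t ht]
    exact lt_of_lt_of_le (by positivity) h2
  · have h1 := intervalIntegral.integral_mono_on ht.1 (hc.intervalIntegrable (μ := volume) _ _)
      (continuous_const.intervalIntegrable _ _) fun τ _ => d.F0_le f τ y
    rw [intervalIntegral.integral_const, smul_eq_mul] at h1
    rw [h y t ht]
    linarith [ht.2]

theorem sol (hV : VolStmt) : ∃ s ξ : ℝ → ℝ → ℝ, Continuous (uncurry s) ∧ Continuous (uncurry ξ) ∧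
    (∀ t ∈ Icc (0 : ℝ) 1, ∀ y ∈ Icc (0 : ℝ) 1, 0 < s t y ∧ s t y ≤ 1) ∧
    (∀ t y, ξ t y = ξ t 1 - ∫ r in y..1, s t r ^ 2) ∧
    (∀ t ∈ Icc (0 : ℝ) 1, ∀ y ∈ Icc (0 : ℝ) 1, s t y = 1 / 2 + ∫ τ in (0 : ℝ)..t,
      1 / 2 * d.Q (d.m * (∫ r in y..1, s τ r) + d.G (ξ τ y)) * (d.m - d.g (ξ τ y) * s τ y)) ∧
    ∀ t ∈ Icc (0 : ℝ) 1, ξ t 1 = d.x0 + ∫ τ in (0 : ℝ)..t, (d.c - d.P (d.G (ξ τ 1))) := by
  obtain ⟨f, hf, h1, h2⟩ := d.fix hV
  have cs : Continuous (uncurry fun t y => 1 / 2 + f ((false, y), t)) :=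
    continuous_const.add (hf.comp (by fun_prop))
  refine ⟨fun t y => 1 / 2 + f ((false, y), t),
    fun t y => d.x0 + f ((true, 0), t) - ∫ r in y..1, (1 / 2 + f ((false, r), t)) ^ 2, cs,
    (continuous_const.add (hf.comp (by fun_prop))).sub
      (int_cont (u := fun (x : ℝ × ℝ) r => (1 / 2 + f ((false, r), x.1)) ^ 2)
        ((cs.comp (f := fun z : (ℝ × ℝ) × ℝ => (z.1.1, z.2)) (by fun_prop)).fun_pow 2)
        continuous_snd),
    fun t ht y hy => d.range hf h1 ht hy, fun t y => by simp, fun t ht y hy => ?_,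
    fun t ht => ?_⟩
  · refine congrArg (1 / 2 + ·) ((h1 y t ht).trans ?_)
    refine intervalIntegral.integral_congr fun τ hτ => ?_
    rw [uIcc_of_le ht.1] at hτ
    have e : ∀ r ∈ Icc (0 : ℝ) 1, S f τ r = 1 / 2 + f ((false, r), τ) := fun r hr =>
      have := d.range hf h1 ⟨hτ.1, hτ.2.trans ht.2⟩ hr
      cl_eq ⟨this.1.le, this.2⟩
    have e' : ∀ r ∈ uIcc y 1, S f τ r = 1 / 2 + f ((false, r), τ) := fun r hr => by
      rw [uIcc_of_le hy.2] at hr
      exact e r ⟨hy.1.trans hr.1, hr.2⟩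
    have e1 : ∫ r in y..1, S f τ r = ∫ r in y..1, (1 / 2 + f ((false, r), τ)) :=
      intervalIntegral.integral_congr e'
    have e2 : ∫ r in y..1, S f τ r ^ 2 = ∫ r in y..1, (1 / 2 + f ((false, r), τ)) ^ 2 :=
      intervalIntegral.integral_congr fun r hr => by simp only [e' r hr]
    simp only [F0, ZE, XI, cl_eq hy, e y hy, e1, e2]
  · simp only [intervalIntegral.integral_same, sub_zero]
    rw [h2 t ht]
    rfl

end Dat

theorem levA_of (hV : VolStmt) (hG : ∀ j, GFacts j) : LevAStmt := fun j => by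
  obtain ⟨L, hL, hl⟩ := (hG j).lip
  have hM := M_pos j
  have hm := mP_pos j
  have p1 : 0 ≤ 1 / M j ^ 10 := by positivity
  have p2 : 0 ≤ 1 / M j ^ 21 := by positivity
  have up : ∀ {u : ℝ → ℝ} {K : ℝ}, K ≤ L + 2 * mP j + 1 / M j ^ 10 + 1 / M j ^ 21 →
      (∀ x y, |u x - u y| ≤ K * |x - y|) →
      ∀ x y, |u x - u y| ≤ (L + 2 * mP j + 1 / M j ^ 10 + 1 / M j ^ 21) * |x - y| :=
    fun hK h x y => (h x y).trans (mul_le_mul_of_nonneg_right hK (abs_nonneg _))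
  obtain ⟨s, ξ, h1, h2, h3, h4, h5, h6⟩ := Dat.sol
    { P := Ph0 j, Q := deriv (Ph0 j), G := GG j, g := dG j, m := mC j, c := hh j + nu j
      x0 := xi0 j, A := 1 / M j ^ 10, D := 2 * mP j, H := hh j
      L := L + 2 * mP j + 1 / M j ^ 10 + 1 / M j ^ 21
      m0 := (mC_pos j).le
      L0 := by linarith
      Am := by
        rw [mC, div_mul_eq_mul_div, one_mul, div_le_one (by positivity)]
        exact pow_le_pow_right₀ (one_le_M j) (by norm_num)
      bP := fun x => by rw [abs_of_nonneg (Ph0_nonneg j x)]; exact Ph0_le j x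
      bQ := dPh0_bd j
      bg := (hG j).d0
      lP := up (by linarith) (Ph0_lip j)
      lQ := up (by linarith) (dPh0_lip j)
      lG := up (by linarith) (abs_sub_le_of_deriv (L := 2 * mP j)
        (fun x => ((hG j).der x).differentiableAt) fun x => by
          rw [((hG j).der x).deriv, abs_of_nonneg ((hG j).d0 x).1]; exact ((hG j).d0 x).2)
      lg := up (by linarith) hl } hV
  exact ⟨s, ξ, h1, h2, h3, fun t _ y _ => h4 t y, h5, h6⟩

end MI34.LevA

theorem MI34.levA (hV : MI34.VolStmt) (hK : MI34.KFacts) : MI34.LevAStmt :=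
  MI34.LevA.levA_of hV (MI34.gfacts hK)

end MrgPart1

-- ======== part 2: formerly Pool.Agent.MP_34a893_an.MI.Back
section MrgPart2

/-! All blobs before their terminal times: the backward fixed point. -/

open MeasureTheory Set Filter Topology Function

namespace MI34

namespace BackRow

/-- admissible perturbations -/
structure Adm (δC δP : ℕ → ℝ → ℝ → ℝ) : Prop where
  cC : ∀ j, Continuous (uncurry (δC j))
  cP : ∀ j, Continuous (uncurry (δP j))
  bC : ∀ j, ∀ t ∈ Icc (0 : ℝ) (1 / 2), ∀ y, 0 ≤ δC j t y ∧ δC j t y ≤ max (sT j - t) 0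
  bP : ∀ j, ∀ t ∈ Icc (0 : ℝ) (1 / 2), ∀ y, 0 ≤ δP j t y ∧ δP j t y ≤ max (sT (j + 1) - t) 0

/-- hypotheses on the data `α` -/
structure Al (α : ℕ → ℝ → ℝ) : Prop where
  c : ∀ j, Continuous (α j)
  h0 : ∀ j t, t ≤ sT j → α j t = mC j / 2
  h1 : ∀ j, ∀ t ∈ Ioc (0 : ℝ) (1 / 2), 0 ≤ α j t ∧ α j t ≤ mC j
  h2 : ∀ j, ∀ t ∈ Ioc (0 : ℝ) (1 / 2), 2 * sT j ≤ t → α j t ≤ M j ^ 7

noncomputable def argC (α : ℕ → ℝ → ℝ) (δC δP : ℕ → ℝ → ℝ → ℝ) (j : ℕ) (τ y : ℝ) : ℝ :=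
  mC j * (∫ r in y..1, (1 / 2 - δC j τ r)) + kaq j * amP δP j τ + tail (amC α δC) (amP δP) j τ

noncomputable def argP (α : ℕ → ℝ → ℝ) (δC δP : ℕ → ℝ → ℝ → ℝ) (j : ℕ) (τ y : ℝ) : ℝ :=
  mP j * (∫ r in y..1, (1 / 2 - δP j τ r)) +
    (kaq (j + 1) - kap (j + 2)) * amP δP (j + 1) τ + tail (amC α δC) (amP δP) j τ

theorem mx (j : ℕ) {t : ℝ} (ht : 0 ≤ t) : max (sT j - t) 0 ≤ 1 / 4 :=
  max_le (by linarith [sT_le j]) (by norm_num)

theorem own_nonneg {g : ℝ → ℝ} {y : ℝ} (hy : y ≤ 1) (h : ∀ r, g r ≤ 1 / 4) :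
    0 ≤ ∫ r in y..1, (1 / 2 - g r) :=
  intervalIntegral.integral_nonneg hy fun r _ => by linarith [h r]

theorem int_diff {g g' : ℝ → ℝ} (hg : Continuous g) (hg' : Continuous g') {y C : ℝ}
    (hy : y ∈ Icc (0 : ℝ) 1) (h : ∀ r, |g r - g' r| ≤ C) :
    |(∫ r in y..1, g r) - ∫ r in y..1, g' r| ≤ C := by
  have hC : 0 ≤ C := (abs_nonneg _).trans (h 0)
  rw [← intervalIntegral.integral_sub (hg.intervalIntegrable _ _) (hg'.intervalIntegrable _ _)]
  have h1 := intervalIntegral.norm_integral_le_of_norm_le_const (a := y) (b := 1)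
    (f := fun r => g r - g' r) (C := C) fun r _ => h r
  have h2 : |1 - y| ≤ 1 := abs_le.2 ⟨by linarith [hy.2], by linarith [hy.1]⟩
  calc _ ≤ C * |1 - y| := h1
    _ ≤ C * 1 := by gcongr
    _ = C := mul_one C

theorem abs_mul_le {a x C : ℝ} (ha : 0 ≤ a) (h : |x| ≤ C) : |a * x| ≤ a * C := by
  rw [abs_mul, abs_of_nonneg ha]; gcongr

section adm
variable {α : ℕ → ℝ → ℝ} {δC δP δC' δP' : ℕ → ℝ → ℝ → ℝ}

theorem Adm.mass (h : Adm δC δP) (hα : Al α) : Mass (amC α δC) (amP δP) :=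
  mass_of hα.c hα.h0 hα.h1 hα.h2 h.cC h.cP h.bC h.bP

theorem Adm.lowC0 (h : Adm δC δP) (hα : Al α) (j : ℕ) {t y : ℝ} (ht : t ∈ Ioc (0 : ℝ) (1 / 2))
    (hy : y ≤ 1) : M j / 4 + tail (amC α δC) (amP δP) j t ≤ argC α δC δP j t y := by
  have h1 : 0 ≤ ∫ r in y..1, (1 / 2 - δC j t r) :=
    own_nonneg hy fun r => (h.bC j t (Ioc_subset_Icc_self ht) r).2.trans (mx j ht.1.le)
  have h2 := ((h.mass hα).bP j t ht).1
  have h3 : kaq j * (mP j / 4) ≤ kaq j * amP δP j t := by have := kaq_pos j; gcongr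
  have h4 := kaq_mP j
  have h5 := mul_nonneg (mC_pos j).le h1
  unfold argC; linarith

theorem Adm.lowP0 (h : Adm δC δP) (hα : Al α) (j : ℕ) {t y : ℝ} (ht : t ∈ Ioc (0 : ℝ) (1 / 2))
    (hy : y ≤ 1) : tail (amC α δC) (amP δP) j t ≤ argP α δC δP j t y := by
  have h1 : 0 ≤ ∫ r in y..1, (1 / 2 - δP j t r) :=
    own_nonneg hy fun r => (h.bP j t (Ioc_subset_Icc_self ht) r).2.trans (mx (j + 1) ht.1.le)
  have h2 := ((h.mass hα).bP (j + 1) t ht).1
  have h3 : 0 ≤ kaq (j + 1) - kap (j + 2) := sub_nonneg.2 (kap_succ_le_kaq (j + 1))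
  have h4 : 0 ≤ amP δP (j + 1) t := le_trans (by have := mP_pos (j + 1); positivity) h2
  have h5 := mul_nonneg (mP_pos j).le h1
  have h6 := mul_nonneg h3 h4
  unfold argP; linarith

theorem Adm.lowC (h : Adm δC δP) (hα : Al α) {j i : ℕ} (hji : j ≤ i) {t y : ℝ}
    (ht : t ∈ Ioc (0 : ℝ) (1 / 2)) (hti : t ≤ sT i) (hy : y ≤ 1) :
    zl i ≤ argC α δC δP j t y := by
  have h1 := h.lowC0 hα j ht hy
  have hT := tailFacts (h.mass hα)
  have h2 := zl_le i; have h3 := M_pos i; have h4 := M_pos j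
  rcases hji.eq_or_lt with rfl | hlt
  · linarith [hT.nn j t ht]
  · linarith [hT.big j i hlt t ht hti]

theorem Adm.lowP (h : Adm δC δP) (hα : Al α) {j i : ℕ} (hji : j < i) {t y : ℝ}
    (ht : t ∈ Ioc (0 : ℝ) (1 / 2)) (hti : t ≤ sT i) (hy : y ≤ 1) :
    zl i ≤ argP α δC δP j t y := by
  have h1 := h.lowP0 hα j ht hy
  have h2 := zl_le i; have h3 := M_pos i
  linarith [(tailFacts (h.mass hα)).big j i hji t ht hti]

theorem Adm.amC_diff (h : Adm δC δP) (h' : Adm δC' δP') (l : ℕ) {t C : ℝ}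
    (hC : ∀ r, |δC l t r - δC' l t r| ≤ C) : |amC α δC l t - amC α δC' l t| ≤ mC l * C := by
  have := int_diff ((h'.cC l).uncurry_left t) ((h.cC l).uncurry_left t) ⟨le_rfl, zero_le_one⟩
    fun r => by rw [abs_sub_comm]; exact hC r
  have e : amC α δC l t - amC α δC' l t =
      mC l * ((∫ r in (0 : ℝ)..1, δC' l t r) - ∫ r in (0 : ℝ)..1, δC l t r) := by
    unfold amC; ring
  rw [e]; exact abs_mul_le (mC_pos l).le this

theorem Adm.amP_diff (h : Adm δC δP) (h' : Adm δC' δP') (l : ℕ) {t C : ℝ}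
    (hC : ∀ r, |δP l t r - δP' l t r| ≤ C) : |amP δP l t - amP δP' l t| ≤ mP l * C := by
  have := int_diff ((h'.cP l).uncurry_left t) ((h.cP l).uncurry_left t) ⟨le_rfl, zero_le_one⟩
    fun r => by rw [abs_sub_comm]; exact hC r
  have e : amP δP l t - amP δP' l t =
      mP l * ((∫ r in (0 : ℝ)..1, δP' l t r) - ∫ r in (0 : ℝ)..1, δP l t r) := by
    unfold amP; ring
  rw [e]; exact abs_mul_le (mP_pos l).le this

/-- above the phase level the tails agree -/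
theorem Adm.tail_eq (h : Adm δC δP) (h' : Adm δC' δP') (i : ℕ) {t : ℝ}
    (ht : t ∈ Ioc (0 : ℝ) (1 / 2)) (hi : sT (i + 1) ≤ t) :
    tail (amC α δC) (amP δP) i t = tail (amC α δC') (amP δP') i t := by
  have ht' := Ioc_subset_Icc_self ht
  have z : ∀ {x : ℝ} {l : ℕ}, i + 1 ≤ l → 0 ≤ x ∧ x ≤ max (sT l - t) 0 → x = 0 := by
    intro x l hl hx
    have : sT l ≤ sT (i + 1) := sT_anti hl
    rw [max_eq_right (by linarith)] at hx
    exact le_antisymm hx.2 hx.1
  unfold tail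
  refine tsum_congr fun k => ?_
  have e1 : δC (i + 1 + k) t = δC' (i + 1 + k) t := funext fun r => by
    rw [z (by omega) (h.bC _ t ht' r), z (by omega) (h'.bC _ t ht' r)]
  have e2 : δP (i + 1 + k) t = δP' (i + 1 + k) t := funext fun r => by
    rw [z (by omega) (h.bP _ t ht' r), z (by omega) (h'.bP _ t ht' r)]
  unfold amC amP
  rw [e1, e2]

theorem Adm.tail_diff (h : Adm δC δP) (h' : Adm δC' δP') (hα : Al α) {t C : ℝ}
    (ht : t ∈ Ioc (0 : ℝ) (1 / 2)) (hC : ∀ l r, |δC l t r - δC' l t r| ≤ C)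
    (hP : ∀ l r, |δP l t r - δP' l t r| ≤ C) {j i : ℕ} (hji : j ≤ i) :
    |tail (amC α δC) (amP δP) j t - tail (amC α δC') (amP δP') j t| ≤
      |tail (amC α δC) (amP δP) i t - tail (amC α δC') (amP δP') i t| + 3 * M i * C := by
  have hC0 : 0 ≤ C := (abs_nonneg _).trans (hC 0 0)
  induction i, hji using Nat.le_induction with
  | base => have := M_pos j; have : 0 ≤ 3 * M j * C := by positivity
            linarith
  | succ i _ ih =>
    have s1 := (tailFacts (h.mass hα)).succ i t ht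
    have s2 := (tailFacts (h'.mass hα)).succ i t ht
    have a1 := abs_mul_le (kap_pos (i + 1)).le (h.amC_diff (α := α) h' (i + 1) (hC (i + 1)))
    have a2 := abs_mul_le (kap_pos (i + 2)).le (h.amP_diff h' (i + 1) (hP (i + 1)))
    rw [← mul_assoc, kap_mC] at a1
    have a3 : kap (i + 2) * mP (i + 1) ≤ 1 := (kap_succ_mP (i + 1)).trans
      ((div_le_one (M_pos _)).2 (one_le_M _))
    have a4 : kap (i + 2) * (mP (i + 1) * C) ≤ C := by
      rw [← mul_assoc]; exact mul_le_of_le_one_left hC0 a3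
    have e : tail (amC α δC) (amP δP) i t - tail (amC α δC') (amP δP') i t =
        kap (i + 1) * (amC α δC (i + 1) t - amC α δC' (i + 1) t) +
        kap (i + 2) * (amP δP (i + 1) t - amP δP' (i + 1) t) +
        (tail (amC α δC) (amP δP) (i + 1) t - tail (amC α δC') (amP δP') (i + 1) t) := by
      rw [s1, s2]; ring
    have a5 := abs_add_three (kap (i + 1) * (amC α δC (i + 1) t - amC α δC' (i + 1) t))
      (kap (i + 2) * (amP δP (i + 1) t - amP δP' (i + 1) t))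
      (tail (amC α δC) (amP δP) (i + 1) t - tail (amC α δC') (amP δP') (i + 1) t)
    rw [← e] at a5
    have b1 := mul_le_mul_of_nonneg_right (M_mul_le i) hC0
    have b2 := mul_le_mul_of_nonneg_right (one_le_M i) hC0
    linarith

theorem Adm.argC_diff (h : Adm δC δP) (h' : Adm δC' δP') (hα : Al α) {t C y : ℝ}
    (ht : t ∈ Ioc (0 : ℝ) (1 / 2)) (hC : ∀ l r, |δC l t r - δC' l t r| ≤ C)
    (hP : ∀ l r, |δP l t r - δP' l t r| ≤ C) {j i : ℕ} (hji : j ≤ i) (hi : sT (i + 1) ≤ t)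
    (hy : y ∈ Icc (0 : ℝ) 1) : |argC α δC δP j t y - argC α δC' δP' j t y| ≤ 2 * mC i * C := by
  have hC0 : 0 ≤ C := (abs_nonneg _).trans (hC 0 0)
  have a1 := h.tail_diff h' hα ht hC hP hji
  rw [h.tail_eq h' i ht hi, sub_self, abs_zero, zero_add] at a1
  have a2 := abs_mul_le (kaq_pos j).le (h.amP_diff h' j (hP j))
  rw [← mul_assoc, kaq_mP] at a2
  have a3 := abs_mul_le (mC_pos j).le (int_diff (C := C)
    (g := fun r => 1 / 2 - δC j t r) (g' := fun r => 1 / 2 - δC' j t r)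
    (continuous_const.sub ((h.cC j).uncurry_left t))
    (continuous_const.sub ((h'.cC j).uncurry_left t)) hy fun r => by
      rw [show 1 / 2 - δC j t r - (1 / 2 - δC' j t r) = -(δC j t r - δC' j t r) by ring, abs_neg]
      exact hC j r)
  have e : argC α δC δP j t y - argC α δC' δP' j t y =
      mC j * ((∫ r in y..1, (1 / 2 - δC j t r)) - ∫ r in y..1, (1 / 2 - δC' j t r)) +
      kaq j * (amP δP j t - amP δP' j t) +
      (tail (amC α δC) (amP δP) j t - tail (amC α δC') (amP δP') j t) := by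
    unfold argC; ring
  rw [e]
  refine (abs_add_three _ _ _).trans ?_
  have m1 : M j ≤ M i := M_mono hji
  have m2 : mC j ≤ mC i := pow_le_pow_left₀ (M_pos j).le m1 9
  have b1 := mul_le_mul_of_nonneg_right m1 hC0
  have b2 := mul_le_mul_of_nonneg_right m2 hC0
  have b3 := mul_le_mul_of_nonneg_right (M_le_mC i) hC0
  have b4 := mul_nonneg (M_pos i).le hC0
  linarith

theorem Adm.argP_diff (h : Adm δC δP) (h' : Adm δC' δP') (hα : Al α) {t C y : ℝ}
    (ht : t ∈ Ioc (0 : ℝ) (1 / 2)) (hC : ∀ l r, |δC l t r - δC' l t r| ≤ C)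
    (hP : ∀ l r, |δP l t r - δP' l t r| ≤ C) {j i : ℕ} (hji : j < i) (hi : sT (i + 1) ≤ t)
    (hy : y ∈ Icc (0 : ℝ) 1) : |argP α δC δP j t y - argP α δC' δP' j t y| ≤ 2 * mC i * C := by
  have hC0 : 0 ≤ C := (abs_nonneg _).trans (hC 0 0)
  have a1 := h.tail_diff h' hα ht hC hP hji.le
  rw [h.tail_eq h' i ht hi, sub_self, abs_zero, zero_add] at a1
  have k0 : 0 ≤ kaq (j + 1) - kap (j + 2) := sub_nonneg.2 (kap_succ_le_kaq (j + 1))
  have a2 := abs_mul_le k0 (h.amP_diff h' (j + 1) (hP (j + 1)))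
  have a2' : (kaq (j + 1) - kap (j + 2)) * (mP (j + 1) * C) ≤ M (j + 1) * C := by
    rw [← kaq_mP, mul_assoc]
    have := mP_pos (j + 1); have := kap_pos (j + 2)
    gcongr; linarith
  have a3 := abs_mul_le (mP_pos j).le (int_diff (C := C)
    (g := fun r => 1 / 2 - δP j t r) (g' := fun r => 1 / 2 - δP' j t r)
    (continuous_const.sub ((h.cP j).uncurry_left t))
    (continuous_const.sub ((h'.cP j).uncurry_left t)) hy fun r => by
      rw [show 1 / 2 - δP j t r - (1 / 2 - δP' j t r) = -(δP j t r - δP' j t r) by ring, abs_neg]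
      exact hP j r)
  have e : argP α δC δP j t y - argP α δC' δP' j t y =
      mP j * ((∫ r in y..1, (1 / 2 - δP j t r)) - ∫ r in y..1, (1 / 2 - δP' j t r)) +
      (kaq (j + 1) - kap (j + 2)) * (amP δP (j + 1) t - amP δP' (j + 1) t) +
      (tail (amC α δC) (amP δP) j t - tail (amC α δC') (amP δP') j t) := by
    unfold argP; ring
  rw [e]
  refine (abs_add_three _ _ _).trans ?_
  have m1 : M (j + 1) ≤ M i := M_mono hji
  have b1 := mul_le_mul_of_nonneg_right m1 hC0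
  have b2 := mul_le_mul_of_nonneg_right (mP_le j) hC0
  have b3 := mul_le_mul_of_nonneg_right (M_le_mC i) hC0
  have b4 := mul_nonneg (M_pos i).le hC0
  have b5 := mul_nonneg (mP_pos j).le hC0
  linarith

theorem Adm.argC_cont (h : Adm δC δP) (hα : Al α) (j : ℕ) (y : ℝ) :
    ContinuousOn (fun t => argC α δC δP j t y) (Ioc 0 (1 / 2)) := by
  have c : Continuous (uncurry fun t r => 1 / 2 - δC j t r) := continuous_const.sub (h.cC j)
  exact ((continuous_const.mul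
    (intervalIntegral.continuous_parametric_intervalIntegral_of_continuous' c y 1)).continuousOn.add
    (continuousOn_const.mul ((h.mass hα).cP j))).add ((tailFacts (h.mass hα)).cont j)

theorem Adm.argP_cont (h : Adm δC δP) (hα : Al α) (j : ℕ) (y : ℝ) :
    ContinuousOn (fun t => argP α δC δP j t y) (Ioc 0 (1 / 2)) := by
  have c : Continuous (uncurry fun t r => 1 / 2 - δP j t r) := continuous_const.sub (h.cP j)
  exact ((continuous_const.mul
    (intervalIntegral.continuous_parametric_intervalIntegral_of_continuous' c y 1)).continuousOn.add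
    (continuousOn_const.mul ((h.mass hα).cP (j + 1)))).add ((tailFacts (h.mass hα)).cont j)

theorem cont_low {g : ℝ → ℝ} (hg : Continuous g) : Continuous fun y => ∫ r in y..1, g r := by
  have := (intervalIntegral.continuous_primitive (μ := volume)
    (fun a b => hg.intervalIntegrable a b) 1).neg
  exact this.congr fun y => (intervalIntegral.integral_symm _ _).symm

theorem Adm.argC_conty (h : Adm δC δP) (j : ℕ) (t : ℝ) :
    Continuous fun y => argC α δC δP j t y :=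
  ((continuous_const.mul (cont_low (continuous_const.sub ((h.cC j).uncurry_left t)))).add
    continuous_const).add continuous_const

theorem Adm.argP_conty (h : Adm δC δP) (j : ℕ) (t : ℝ) :
    Continuous fun y => argP α δC δP j t y :=
  ((continuous_const.mul (cont_low (continuous_const.sub ((h.cP j).uncurry_left t)))).add
    continuous_const).add continuous_const

end adm

/-! ### the fixed-point map -/

noncomputable def sig (n : ℕ × Bool) : ℝ := sT (n.1 + n.2.toNat)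

noncomputable def dl (f : ((ℕ × Bool) × ℝ) × ℝ → ℝ) (b : Bool) (j : ℕ) (t y : ℝ) : ℝ :=
  min (max (f (((j, b), y), 1 / 2 - t)) 0) (max (sig (j, b) - t) 0)

noncomputable def cl (y : ℝ) : ℝ := max 0 (min y 1)

theorem cl_mem (y : ℝ) : cl y ∈ Icc (0 : ℝ) 1 :=
  ⟨le_max_left _ _, max_le zero_le_one (min_le_right _ _)⟩

theorem cl_eq {y : ℝ} (hy : y ∈ Icc (0 : ℝ) 1) : cl y = y := by
  unfold cl; rw [min_eq_left hy.2, max_eq_right hy.1]

theorem cl_cont : Continuous cl := by unfold cl; fun_prop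

theorem dl_adm {f : ((ℕ × Bool) × ℝ) × ℝ → ℝ} (hf : Continuous f) :
    Adm (dl f false) (dl f true) := by
  have c : ∀ b j, Continuous (uncurry (dl f b j)) := fun b j => by
    unfold dl uncurry; fun_prop
  have bd : ∀ b j t y, 0 ≤ dl f b j t y ∧ dl f b j t y ≤ max (sig (j, b) - t) 0 :=
    fun b j t y => ⟨le_min (le_max_right _ _) (le_max_right _ _), min_le_right _ _⟩
  exact ⟨c false, c true, fun j t _ y => bd false j t y, fun j t _ y => bd true j t y⟩

theorem dl_lip {f g : ((ℕ × Bool) × ℝ) × ℝ → ℝ} {t C : ℝ}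
    (h : ∀ z, |f (z, 1 / 2 - t) - g (z, 1 / 2 - t)| ≤ C) (b : Bool) (j : ℕ) (y : ℝ) :
    |dl f b j t y - dl g b j t y| ≤ C := by
  unfold dl
  refine (abs_min_sub_min_le_max _ _ _ _).trans ?_
  rw [sub_self, abs_zero]
  exact max_le ((abs_max_sub_max_le_abs _ _ _).trans (h _)) ((abs_nonneg _).trans (h ((j, b), y)))

/-- integrand of the equations -/
noncomputable def GI (Φ : ℝ → ℝ) (α : ℕ → ℝ → ℝ) (δC δP : ℕ → ℝ → ℝ → ℝ) (n : ℕ × Bool)
    (y t : ℝ) : ℝ :=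
  cond n.2 (1 / 2 * mP n.1 * deriv Φ (argP α δC δP n.1 t y))
    (1 / 2 * mC n.1 * deriv Φ (argC α δC δP n.1 t y))

section GI
variable {R : ℕ → ℝ} {Φ : ℝ → ℝ} {α : ℕ → ℝ → ℝ} {δC δP δC' δP' : ℕ → ℝ → ℝ → ℝ}

theorem dPhi_cont (hΦ : PhiFacts R Φ) : Continuous (deriv Φ) :=
  hΦ.cd.continuous_deriv (by norm_num)

theorem GI_nonneg (hΦ : PhiFacts R Φ) (n : ℕ × Bool) (y t : ℝ) : 0 ≤ GI Φ α δC δP n y t := by
  have h1 : ∀ w, 0 ≤ deriv Φ w := fun w => hΦ.mono.deriv_nonneg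
  have h2 := mC_pos n.1; have h3 := mP_pos n.1
  rcases n with ⟨j, _ | _⟩
  · exact mul_nonneg (by positivity) (h1 _)
  · exact mul_nonneg (by positivity) (h1 _)

theorem mC_div (j : ℕ) : mC j * (1 / M j ^ 10) ≤ 1 := by
  have := M_pos j
  rw [mul_one_div, div_le_one (by positivity)]
  exact pow_le_pow_right₀ (one_le_M j) (by norm_num)

theorem mP_le_mC {j i : ℕ} (h : j < i) : mP j ≤ mC i := by
  have h1 : M (j + 1) ≤ M i := M_mono h
  have := mP_le j; have := M_le_mC i; have := mP_pos j; have := M_pos i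
  linarith

theorem GI_le (hΦ : PhiFacts R Φ) (h : Adm δC δP) (hα : Al α) (n : ℕ × Bool) {y t : ℝ}
    (hy : y ≤ 1) (ht : t ∈ Ioc (0 : ℝ) (1 / 2)) (hn : t ≤ sig n) : GI Φ α δC δP n y t ≤ 1 := by
  rcases n with ⟨j, _ | _⟩
  · have h1 := (hΦ.d0 j _ (h.lowC hα le_rfl ht hn hy)).2
    have h2 := mul_le_mul_of_nonneg_left h1 (mC_pos j).le
    have h3 := mC_div j
    show 1 / 2 * mC j * deriv Φ (argC α δC δP j t y) ≤ 1
    linarith
  · have h1 := hΦ.d0 (j + 1) _ (h.lowP hα (Nat.lt_succ_self j) ht hn hy)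
    have h2 := mul_le_mul (mP_le_mC (Nat.lt_succ_self j)) h1.2 h1.1 (mC_pos _).le
    have h3 := mC_div (j + 1)
    show 1 / 2 * mP j * deriv Φ (argP α δC δP j t y) ≤ 1
    linarith

theorem lip_core (hΦ : PhiFacts R Φ) (i : ℕ) {m w w' C : ℝ} (hm0 : 0 ≤ m) (hm : m ≤ mC i)
    (hw : zl i ≤ w) (hw' : zl i ≤ w') (h : |w - w'| ≤ 2 * mC i * C) :
    |1 / 2 * m * deriv Φ w - 1 / 2 * m * deriv Φ w'| ≤ 1 * C := by
  have hM := M_pos i
  have hm1 := mC_pos i
  have hC : 0 ≤ C := by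
    have := (abs_nonneg _).trans h
    exact nonneg_of_mul_nonneg_right this (by positivity)
  have h1 : |deriv Φ w - deriv Φ w'| ≤ 2 * mC i * C / M i ^ 21 :=
    (hΦ.lip1 i w w' hw hw').trans (by gcongr)
  rw [← mul_sub]
  refine (abs_mul_le (by positivity) h1).trans ?_
  have h2 : mC i * mC i ≤ M i ^ 21 := by
    unfold mC; rw [← pow_add]; exact pow_le_pow_right₀ (one_le_M i) (by norm_num)
  calc 1 / 2 * m * (2 * mC i * C / M i ^ 21) ≤ 1 / 2 * mC i * (2 * mC i * C / M i ^ 21) := by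
        gcongr
    _ = mC i * mC i / M i ^ 21 * C := by ring
    _ ≤ 1 * C := by gcongr; exact (div_le_one (by positivity)).2 h2

theorem GI_lip (hΦ : PhiFacts R Φ) (h : Adm δC δP) (h' : Adm δC' δP') (hα : Al α)
    (n : ℕ × Bool) {y t C : ℝ} (hy : y ∈ Icc (0 : ℝ) 1) (ht : t ∈ Ioc (0 : ℝ) (1 / 2))
    (hn : t ≤ sig n) (hC : ∀ l r, |δC l t r - δC' l t r| ≤ C)
    (hP : ∀ l r, |δP l t r - δP' l t r| ≤ C) :
    |GI Φ α δC δP n y t - GI Φ α δC' δP' n y t| ≤ 1 * C := by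
  obtain ⟨i, hi1, hi2⟩ := exists_phase ht.1 (hn.trans (sT_anti (Nat.zero_le _)))
  have hle : n.1 + n.2.toNat ≤ i := by
    by_contra hc
    have : sT (n.1 + n.2.toNat) ≤ sT (i + 1) := sT_anti (by omega)
    unfold sig at hn; linarith
  rcases n with ⟨j, _ | _⟩
  · have hj : j ≤ i := hle
    exact lip_core hΦ i (mC_pos j).le (pow_le_pow_left₀ (M_pos j).le (M_mono hj) 9)
      (h.lowC hα hj ht hi2 hy.2) (h'.lowC hα hj ht hi2 hy.2)
      (h.argC_diff h' hα ht hC hP hj hi1.le hy)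
  · have hj : j < i := hle
    exact lip_core hΦ i (mP_pos j).le (mP_le_mC hj)
      (h.lowP hα hj ht hi2 hy.2) (h'.lowP hα hj ht hi2 hy.2)
      (h.argP_diff h' hα ht hC hP hj hi1.le hy)

theorem GI_cont (hΦ : PhiFacts R Φ) (h : Adm δC δP) (hα : Al α) (n : ℕ × Bool) (y : ℝ) :
    ContinuousOn (GI Φ α δC δP n y) (Ioc 0 (1 / 2)) := by
  rcases n with ⟨j, _ | _⟩
  · exact continuousOn_const.mul ((dPhi_cont hΦ).comp_continuousOn (h.argC_cont hα j y))
  · exact continuousOn_const.mul ((dPhi_cont hΦ).comp_continuousOn (h.argP_cont hα j y))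

theorem GI_conty (hΦ : PhiFacts R Φ) (h : Adm δC δP) (n : ℕ × Bool) (t : ℝ) :
    Continuous fun y => GI Φ α δC δP n y t := by
  rcases n with ⟨j, _ | _⟩
  · exact continuous_const.mul ((dPhi_cont hΦ).comp (h.argC_conty j t))
  · exact continuous_const.mul ((dPhi_cont hΦ).comp (h.argP_conty j t))

end GI

/-- the Volterra integrand in reversed time -/
noncomputable def FF (Φ : ℝ → ℝ) (α : ℕ → ℝ → ℝ) (f : ((ℕ × Bool) × ℝ) × ℝ → ℝ)
    (z : (ℕ × Bool) × ℝ) (u : ℝ) : ℝ :=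
  {t | t ≤ sig z.1}.indicator (GI Φ α (dl f false) (dl f true) z.1 (cl z.2)) (1 / 2 - u)

theorem rev_mem {u : ℝ} (hu : u ∈ Ioo (0 : ℝ) (1 / 2)) : 1 / 2 - u ∈ Ioc (0 : ℝ) (1 / 2) :=
  ⟨by linarith [hu.2], by linarith [hu.1]⟩

theorem exists_fix (hV : VolStmt) {R : ℕ → ℝ} {Φ : ℝ → ℝ} {α : ℕ → ℝ → ℝ} (hΦ : PhiFacts R Φ)
    (hα : Al α) : ∃ f : ((ℕ × Bool) × ℝ) × ℝ → ℝ, Continuous f ∧
      ∀ z, ∀ u ∈ Icc (0 : ℝ) (1 / 2), f (z, u) = ∫ τ in (0 : ℝ)..u, FF Φ α f z τ := by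
  refine hV ((ℕ × Bool) × ℝ) (1 / 2) 1 1 (FF Φ α) (by norm_num) zero_le_one ?_ ?_ ?_ ?_
  · intro f hf u _
    refine continuous_prod_of_discrete_left.2 fun n => ?_
    by_cases hn : 1 / 2 - u ≤ sig n
    · refine ((GI_conty (α := α) hΦ (dl_adm hf) n (1 / 2 - u)).comp cl_cont).congr fun y => ?_
      exact (indicator_of_mem (s := {t | t ≤ sig n}) hn _).symm
    · refine (continuous_const (y := (0 : ℝ))).congr fun y => ?_
      exact (indicator_of_notMem (s := {t | t ≤ sig n}) hn _).symm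
  · intro f hf z
    have c : ContinuousOn (fun u => GI Φ α (dl f false) (dl f true) z.1 (cl z.2) (1 / 2 - u))
        (Ioo 0 (1 / 2)) :=
      (GI_cont hΦ (dl_adm hf) hα z.1 (cl z.2)).comp (continuous_const.sub continuous_id).continuousOn
        fun u hu => rev_mem hu
    have hm : MeasurableSet {u : ℝ | 1 / 2 - u ≤ sig z.1} :=
      measurableSet_le (measurable_const.sub measurable_id) measurable_const
    exact (c.aestronglyMeasurable measurableSet_Ioo).indicator hm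
  · intro f hf z u hu
    unfold FF
    by_cases hn : 1 / 2 - u ≤ sig z.1
    · rw [indicator_of_mem (s := {t | t ≤ sig z.1}) hn, abs_of_nonneg (GI_nonneg hΦ _ _ _)]
      exact GI_le hΦ (dl_adm hf) hα _ (cl_mem _).2 (rev_mem hu) hn
    · rw [indicator_of_notMem (s := {t | t ≤ sig z.1}) hn]; simp
  · intro f g hf hg u hu C hC z
    have hC' : ∀ z, |f (z, 1 / 2 - (1 / 2 - u)) - g (z, 1 / 2 - (1 / 2 - u))| ≤ C := by
      rw [sub_sub_cancel]; exact hC
    unfold FF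
    by_cases hn : 1 / 2 - u ≤ sig z.1
    · rw [indicator_of_mem (s := {t | t ≤ sig z.1}) hn,
        indicator_of_mem (s := {t | t ≤ sig z.1}) hn]
      exact GI_lip hΦ (dl_adm hf) (dl_adm hg) hα _ (cl_mem _) (rev_mem hu) hn
        (dl_lip hC' false) (dl_lip hC' true)
    · rw [indicator_of_notMem (s := {t | t ≤ sig z.1}) hn,
        indicator_of_notMem (s := {t | t ≤ sig z.1}) hn]
      simpa using (abs_nonneg _).trans (hC z)

theorem fix_ode {R : ℕ → ℝ} {Φ : ℝ → ℝ} {α : ℕ → ℝ → ℝ} (hΦ : PhiFacts R Φ) (hα : Al α)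
    {f : ((ℕ × Bool) × ℝ) × ℝ → ℝ} (hf : Continuous f)
    (hfix : ∀ z, ∀ u ∈ Icc (0 : ℝ) (1 / 2), f (z, u) = ∫ τ in (0 : ℝ)..u, FF Φ α f z τ)
    (j : ℕ) (b : Bool) {t y : ℝ} (ht : t ∈ Icc 0 (sig (j, b))) (hy : y ∈ Icc (0 : ℝ) 1) :
    dl f b j t y = ∫ τ in t..sig (j, b), GI Φ α (dl f false) (dl f true) (j, b) y τ := by
  have hs : sig (j, b) ≤ 1 / 2 := (sT_le _).trans (by norm_num)
  have e : f (((j, b), y), 1 / 2 - t) =
      ∫ τ in t..sig (j, b), GI Φ α (dl f false) (dl f true) (j, b) y τ := by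
    rw [hfix _ _ ⟨by linarith [ht.2], by linarith [ht.1]⟩]
    unfold FF
    rw [intervalIntegral.integral_comp_sub_left (fun τ => {t | t ≤ sig (j, b)}.indicator
      (GI Φ α (dl f false) (dl f true) (j, b) (cl y)) τ) (1 / 2), sub_sub_cancel, sub_zero,
      intervalIntegral.integral_indicator ⟨ht.2, hs⟩, cl_eq hy]
  have h0 : 0 ≤ ∫ τ in t..sig (j, b), GI Φ α (dl f false) (dl f true) (j, b) y τ :=
    intervalIntegral.integral_nonneg ht.2 fun τ _ => GI_nonneg hΦ _ _ _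
  have h1 := intervalIntegral.norm_integral_le_of_norm_le_const (a := t) (b := sig (j, b))
    (f := GI Φ α (dl f false) (dl f true) (j, b) y) (C := 1) fun τ hτ => by
      rw [uIoc_of_le ht.2] at hτ
      rw [Real.norm_of_nonneg (GI_nonneg hΦ _ _ _)]
      exact GI_le hΦ (dl_adm hf) hα _ hy.2 ⟨ht.1.trans_lt hτ.1, hτ.2.trans hs⟩ hτ.2
  rw [Real.norm_of_nonneg h0, one_mul, abs_of_nonneg (sub_nonneg.2 ht.2)] at h1
  rw [dl, e, max_eq_left h0, min_eq_left (h1.trans (le_max_left _ _))]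

end BackRow

open BackRow in
theorem back (hV : VolStmt) : BackStmt := by
  intro R Φ α hΦ c h0 h1 h2
  have hα : Al α := ⟨c, h0, h1, h2⟩
  obtain ⟨f, hf, hfix⟩ := exists_fix hV hΦ hα
  have hA := dl_adm hf
  exact ⟨dl f false, dl f true, hA.cC, hA.cP, hA.bC, hA.bP,
    fun j t ht y hy => fix_ode hΦ hα hf hfix j false ht hy,
    fun j t ht y hy => fix_ode hΦ hα hf hfix j true ht hy⟩

end MI34

end MrgPart2

-- ======== part 3: formerly Pool.Agent.MP_34a893_an.MI.DynA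
section MrgPart3

/-! A blob from the integral form of its equation; first facts on the level solutions. -/

open MeasureTheory Set Filter Topology Function

namespace MI34.DynA

theorem cont_int {f : ℝ → ℝ → ℝ} (hf : Continuous (uncurry f)) :
    Continuous fun p : ℝ × ℝ => ∫ r in p.2..1, f p.1 r := by
  have := (intervalIntegral.continuous_parametric_primitive_of_continuous (μ := volume)
    (a₀ := 1) hf).neg
  refine this.congr fun p => ?_
  simp [intervalIntegral.integral_symm p.2 1]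

theorem hasDerivAt_int {f : ℝ → ℝ} (hf : Continuous f) (y : ℝ) :
    HasDerivAt (fun y => ∫ r in y..1, f r) (-f y) y := by
  have := (hf.integral_hasStrictDerivAt 1 y).hasDerivAt.neg
  refine this.congr_of_eventuallyEq (Eventually.of_forall fun z => ?_)
  simp [intervalIntegral.integral_symm z 1]

theorem uIcc_sub {T a b : ℝ} (ha : a ∈ Ioc 0 T) (hb : b ∈ Ioc 0 T) : uIcc a b ⊆ Ioc 0 T :=
  ordConnected_Ioc.uIcc_subset ha hb

theorem ii_of {T a b : ℝ} {g : ℝ → ℝ} (hg : ContinuousOn g (Ioc 0 T)) (ha : a ∈ Ioc 0 T)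
    (hb : b ∈ Ioc 0 T) : IntervalIntegrable g volume a b :=
  (hg.mono (uIcc_sub ha hb)).intervalIntegrable

theorem hasDerivAt_prim {T a t : ℝ} {g : ℝ → ℝ} (hg : ContinuousOn g (Ioc 0 T)) (ha : a ∈ Ioc 0 T)
    (ht : t ∈ Ioo 0 T) : HasDerivAt (fun t => ∫ τ in a..t, g τ) (g t) t :=
  intervalIntegral.integral_hasDerivAt_right (ii_of hg ha (Ioo_subset_Ioc_self ht))
    ((hg.mono Ioo_subset_Ioc_self).stronglyMeasurableAtFilter isOpen_Ioo t ht)
    (hg.continuousAt (mem_of_superset (Ioo_mem_nhds ht.1 ht.2) Ioo_subset_Ioc_self))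

theorem contOn_prim {T : ℝ} {g : ℝ → ℝ} (hg : ContinuousOn g (Ioc 0 T)) :
    ContinuousOn (fun t => ∫ τ in t..T, g τ) (Ioc 0 T) := by
  intro t ht
  have ha : t / 2 ∈ Ioc 0 T := ⟨by linarith [ht.1], by linarith [ht.1, ht.2]⟩
  have hT : T ∈ Ioc 0 T := ⟨ht.1.trans_le ht.2, le_rfl⟩
  have hi : IntegrableOn g (uIcc (t / 2) T) :=
    (hg.mono (uIcc_sub ha hT)).integrableOn_compact isCompact_uIcc
  have hc := intervalIntegral.continuousOn_primitive_interval_left hi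
  rw [uIcc_of_le ha.2] at hc
  refine (hc t ⟨by linarith [ht.1], ht.2⟩).mono_of_mem_nhdsWithin ?_
  filter_upwards [inter_mem_nhdsWithin _ (Ioi_mem_nhds (show t / 2 < t by linarith [ht.1]))] with x hx
  exact ⟨le_of_lt hx.2, hx.1.2⟩

theorem slice {T : ℝ} {f : ℝ → ℝ → ℝ} (hf : ContinuousOn (uncurry f) (Ioc 0 T ×ˢ Icc 0 1)) {y : ℝ}
    (hy : y ∈ Icc (0 : ℝ) 1) : ContinuousOn (fun t => f t y) (Ioc 0 T) :=
  hf.comp (f := fun t => (t, y)) (by fun_prop) fun _ ht => ⟨ht, hy⟩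

theorem slice' {T : ℝ} {f : ℝ → ℝ → ℝ} (hf : ContinuousOn (uncurry f) (Ioc 0 T ×ˢ Icc 0 1)) {t : ℝ}
    (ht : t ∈ Ioc 0 T) : ContinuousOn (f t) (Icc 0 1) :=
  hf.comp (f := fun y => (t, y)) (by fun_prop) fun _ hy => ⟨ht, hy⟩

theorem mkBlob (hC : CharStmt) {Φ : ℝ → ℝ} (hΦ : ContDiff ℝ 1 Φ) {T t0 c0 c : ℝ}
    {s σ ζ : ℝ → ℝ → ℝ} (ht0 : t0 ∈ Ioc 0 T) (cs : Continuous (uncurry s))
    (cσ : ContinuousOn (uncurry σ) (Ioc 0 T ×ˢ Icc 0 1))
    (cζ : ContinuousOn (uncurry ζ) (Ioc 0 T ×ˢ Icc 0 1))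
    (pos : ∀ t ∈ Ioc 0 T, ∀ y ∈ Icc (0 : ℝ) 1, 0 < s t y ∧ s t y ≤ 1)
    (ode : ∀ t ∈ Ioc 0 T, ∀ y ∈ Icc (0 : ℝ) 1, s t y = c0 + ∫ τ in t0..t, σ τ y)
    (dy : ∀ t ∈ Ioo 0 T, ∀ y ∈ Ioo (0 : ℝ) 1, ∃ ζy, HasDerivAt (ζ t) ζy y ∧
      2 * s t y * σ t y = -(deriv Φ (ζ t y) * ζy)) :
    Blob T (fun t y => c + (∫ τ in t..T, Φ (ζ τ 1)) - ∫ r in y..1, s t r ^ 2) s
      fun t y => Φ (ζ t y) := by
  have h1 : (1 : ℝ) ∈ Icc (0 : ℝ) 1 := ⟨zero_le_one, le_rfl⟩
  have cv : ContinuousOn (uncurry fun t y => Φ (ζ t y)) (Ioc 0 T ×ˢ Icc 0 1) :=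
    hΦ.continuous.comp_continuousOn cζ
  have cg : ContinuousOn (fun τ => Φ (ζ τ 1)) (Ioc 0 T) := slice cv h1
  have sub : Ioo 0 T ×ˢ Icc (0 : ℝ) 1 ⊆ Ioc 0 T ×ˢ Icc 0 1 := prod_mono Ioo_subset_Ioc_self le_rfl
  refine ⟨?_, cs.continuousOn, cv, pos, fun t _ y _ => by simp, fun y hy t ht => ?_⟩
  · refine (continuousOn_const.add ((contOn_prim cg).comp continuousOn_fst fun p hp => hp.1)).sub
      (cont_int (f := fun t r => s t r ^ 2) (by exact (cs.pow 2 :))).continuousOn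
  · have hT : T ∈ Ioc 0 T := ⟨ht.1.trans ht.2, le_rfl⟩
    have d1 : HasDerivAt (fun t => ∫ τ in t..T, Φ (ζ τ 1)) (-Φ (ζ t 1)) t := by
      refine (hasDerivAt_prim cg hT ht).neg.congr_of_eventuallyEq (Eventually.of_forall fun z => ?_)
      simp [intervalIntegral.integral_symm z T]
    have d2 := hC Φ 0 T s σ ζ hΦ cs.continuousOn (cσ.mono sub) (fun y hy t ht => ?_)
      (fun t ht => slice' cζ (Ioo_subset_Ioc_self ht)) dy y hy t ht
    · exact ((d1.const_add c).sub d2).congr_deriv (by ring)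
    · refine ((hasDerivAt_prim (slice cσ hy) ht0 ht).const_add c0).congr_of_eventuallyEq ?_
      filter_upwards [Ioo_mem_nhds ht.1 ht.2] with z hz using ode z (Ioo_subset_Ioc_self hz) y hy

theorem int_bd {f : ℝ → ℝ} (hf : Continuous f) {b y : ℝ} (hy : y ∈ Icc (0 : ℝ) 1) (hb : 0 ≤ b)
    (h : ∀ r ∈ Icc (0 : ℝ) 1, 0 ≤ f r ∧ f r ≤ b) :
    0 ≤ ∫ r in y..1, f r ∧ ∫ r in y..1, f r ≤ b := by
  constructor
  · exact intervalIntegral.integral_nonneg hy.2 fun r hr => (h r ⟨hy.1.trans hr.1, hr.2⟩).1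
  · have := intervalIntegral.integral_mono_on hy.2 (hf.intervalIntegrable (μ := volume) y 1)
      (intervalIntegrable_const (c := b)) fun r hr => (h r ⟨hy.1.trans hr.1, hr.2⟩).2
    simp only [intervalIntegral.integral_const, smul_eq_mul] at this
    nlinarith [hy.1]

theorem int_congr {f g : ℝ → ℝ} {y : ℝ} (hy : y ∈ Icc (0 : ℝ) 1)
    (h : ∀ r ∈ Icc (0 : ℝ) 1, f r = g r) : ∫ r in y..1, f r = ∫ r in y..1, g r :=
  intervalIntegral.integral_congr fun r hr => by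
    rw [uIcc_of_le hy.2] at hr; exact h r ⟨hy.1.trans hr.1, hr.2⟩

noncomputable def tj (j : ℕ) (t : ℝ) : ℝ := max (t - sT j) 0

theorem tj_cont (j : ℕ) : Continuous (tj j) := by unfold tj; fun_prop
theorem tj_le {j : ℕ} {t : ℝ} (h : t ≤ sT j) : tj j t = 0 := max_eq_right (by linarith)
theorem tj_ge {j : ℕ} {t : ℝ} (h : sT j ≤ t) : tj j t = t - sT j := max_eq_left (by linarith)
theorem tj_mem (j : ℕ) {t : ℝ} (h : t ≤ 1 / 2) : tj j t ∈ Icc (0 : ℝ) 1 :=
  ⟨le_max_right _ _, max_le (by linarith [sT_pos j]) zero_le_one⟩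

theorem z01 : (0 : ℝ) ∈ Icc (0 : ℝ) 1 := ⟨le_rfl, zero_le_one⟩
theorem o01 : (1 : ℝ) ∈ Icc (0 : ℝ) 1 := ⟨zero_le_one, le_rfl⟩

theorem lev_s0 {j s ξ} (h : Level j s ξ) {y : ℝ} (hy : y ∈ Icc (0 : ℝ) 1) : s 0 y = 1 / 2 := by
  simpa using h.ode 0 z01 y hy

theorem lev_ξ0 {j s ξ} (h : Level j s ξ) {y : ℝ} (hy : y ∈ Icc (0 : ℝ) 1) :
    xi0 j - 1 ≤ ξ 0 y ∧ ξ 0 y ≤ xi0 j := by
  have h1 : ξ 0 1 = xi0 j := by simpa using h.odeR 0 z01
  have h2 := h.hξ 0 z01 y hy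
  have h3 := int_bd (f := fun r => s 0 r ^ 2) ((h.cs.uncurry_left 0).pow 2) hy zero_le_one
    fun r hr => by rw [lev_s0 h hr]; norm_num
  constructor <;> linarith [h3.1, h3.2]

noncomputable def al (s : ℕ → ℝ → ℝ → ℝ) (j : ℕ) (t : ℝ) : ℝ :=
  mC j * ∫ r in (0 : ℝ)..1, s j (tj j t) r

section
variable {s ξ : ℕ → ℝ → ℝ → ℝ}

theorem cs_tj (hL : ∀ j, Level j (s j) (ξ j)) (j : ℕ) :
    Continuous (uncurry fun t y => s j (tj j t) y) :=
  (hL j).cs.comp (((tj_cont j).comp continuous_fst).prodMk continuous_snd)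

theorem cξ_tj (hL : ∀ j, Level j (s j) (ξ j)) (j : ℕ) :
    Continuous (uncurry fun t y => ξ j (tj j t) y) :=
  (hL j).cξ.comp (((tj_cont j).comp continuous_fst).prodMk continuous_snd)

theorem al_cont (hL : ∀ j, Level j (s j) (ξ j)) (j : ℕ) : Continuous (al s j) :=
  continuous_const.mul
    (intervalIntegral.continuous_parametric_intervalIntegral_of_continuous' (cs_tj hL j) 0 1)

theorem al_early (hL : ∀ j, Level j (s j) (ξ j)) (j : ℕ) (t : ℝ) (h : t ≤ sT j) :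
    al s j t = mC j / 2 := by
  unfold al
  rw [tj_le h, int_congr z01 (g := fun _ => 1 / 2) fun r hr => lev_s0 (hL j) hr]
  simp; ring

theorem al_bd (hL : ∀ j, Level j (s j) (ξ j)) (j : ℕ) : ∀ t ∈ Ioc (0 : ℝ) (1 / 2),
    0 ≤ al s j t ∧ al s j t ≤ mC j := by
  intro t ht
  have h := int_bd ((hL j).cs.uncurry_left (tj j t)) z01 zero_le_one fun r hr =>
    ⟨((hL j).pos _ (tj_mem j ht.2) r hr).1.le, ((hL j).pos _ (tj_mem j ht.2) r hr).2⟩
  have := mC_pos j
  unfold al; constructor <;> nlinarith [h.1, h.2]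

theorem al_rigid (hE : ∀ j, LevelEst j (s j) (ξ j)) (j : ℕ) {t : ℝ} (ht : t ≤ 1 / 2)
    (h : 2 * sT j ≤ t) : al s j t = mC j * ∫ r in (0 : ℝ)..1, s j (sT j) r := by
  unfold al
  rw [int_congr z01 fun r hr => (hE j).rigid _
    ⟨by rw [tj_ge (by linarith [sT_pos j])]; linarith, (tj_mem j ht).2⟩ r hr]

theorem al_late (hE : ∀ j, LevelEst j (s j) (ξ j)) (j : ℕ) : ∀ t ∈ Ioc (0 : ℝ) (1 / 2),
    2 * sT j ≤ t → al s j t ≤ M j ^ 7 := by
  intro t ht h
  rw [al_rigid hE j ht.2 h]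
  have h1 := (hE j).small; have := mC_pos j; have := M_pos j
  calc _ ≤ mC j * (1 / M j ^ 2) := by gcongr
    _ = _ := by unfold mC; field_simp

/-- residual far field on `C_j` -/
noncomputable def RR (s : ℕ → ℝ → ℝ → ℝ) (j : ℕ) : ℝ :=
  tail (al s) (fun j _ => mP j / 2) j (1 / 2)

theorem RR_mem (hL : ∀ j, Level j (s j) (ξ j)) (hE : ∀ j, LevelEst j (s j) (ξ j)) (j : ℕ) :
    RR s j ∈ Icc (0 : ℝ) 1 := by
  have hm : Mass (al s) (fun j _ => mP j / 2) :=
    ⟨fun j => (al_cont hL j).continuousOn, fun j => continuousOn_const, al_bd hL,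
      fun j t _ h => by rw [al_early hL j t h]; linarith [mC_pos j], al_late hE,
      fun j t _ => ⟨by linarith [mP_pos j], le_rfl⟩⟩
  have h2 : (1 / 2 : ℝ) ∈ Ioc (0 : ℝ) (1 / 2) := ⟨by norm_num, le_rfl⟩
  exact ⟨(tailFacts hm).nn j _ h2, (tailFacts hm).small j _ h2 (by linarith [sT_le j])⟩

/-- the argument of the local step stays between the neighbouring small steps -/
theorem zeta0_mem (hK : KFacts) (hL : ∀ j, Level j (s j) (ξ j)) (hE : ∀ j, LevelEst j (s j) (ξ j))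
    (j : ℕ) {t y : ℝ} (ht : t ∈ Icc (0 : ℝ) 1) (hy : y ∈ Icc (0 : ℝ) 1) {R : ℝ}
    (hR : R ∈ Icc (0 : ℝ) 1) :
    zl j ≤ mC j * (∫ r in y..1, s j t r) + GG j (ξ j t y) + R ∧
      mC j * (∫ r in y..1, s j t r) + GG j (ξ j t y) + R ≤ zq j := by
  have G := gfacts hK j
  have h := int_bd ((hL j).cs.uncurry_left t) hy zero_le_one fun r hr =>
    ⟨((hL j).pos _ ht r hr).1.le, ((hL j).pos _ ht r hr).2⟩
  have hr := (hE j).range t ht y hy
  have h1 := G.mono hr.1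
  rw [(G.foot (xi0 j - 1 / 4) (by linarith) (by linarith)).1] at h1
  have a1 := hh_le_N j; have a2 := N_mul_le j; have a3 := nu_le j; have a4 := eps_pos j
  have a5 := M_ge j; have a6 := hh_pos j
  have h2 := G.top (ξ j t y) (by unfold xi0 at hr; linarith [hr.2])
  have a7 := zl_le j; have a8 := zl_pos j; have a9 := mC_pos j
  have b1 := mC_le_zb j; have b2 := zb_le_zq j; have b3 := M_le_mC j
  have h3 : 0 ≤ mC j * ∫ r in y..1, s j t r := mul_nonneg a9.le h.1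
  have h4 : mC j * ∫ r in y..1, s j t r ≤ mC j := mul_le_of_le_one_right a9.le h.2
  constructor <;> linarith [hR.1, hR.2]

end

end MI34.DynA

end MrgPart3

-- ======== part 4: formerly Pool.Agent.MP_34a893_an.MI.Dyn
section MrgPart4

/-! Row DYN: gluing the level solutions and the backward solution. -/

open MeasureTheory Set Filter Topology Function

namespace MI34.DynB
open DynA

variable (Φ : ℝ → ℝ) (s ξ δC δP : ℕ → ℝ → ℝ → ℝ)

noncomputable def sC (j : ℕ) (t y : ℝ) : ℝ := s j (tj j t) y - δC j t y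
noncomputable def sP (j : ℕ) (t y : ℝ) : ℝ := 1 / 2 - δP j t y
noncomputable def tl (j : ℕ) (t : ℝ) : ℝ := tail (amC (al s) δC) (amP δP) j t
noncomputable def ζP (j : ℕ) (t y : ℝ) : ℝ :=
  mP j * (∫ r in y..1, sP δP j t r) + (kaq (j + 1) - kap (j + 2)) * amP δP (j + 1) t +
    tl s δC δP j t
noncomputable def ζC (j : ℕ) (t y : ℝ) : ℝ :=
  mC j * (∫ r in y..1, sC s δC j t r) + kaq j * amP δP j t + tl s δC δP j t +
    (GG j (ξ j (tj j t) y) - M j / 2)
noncomputable def XP (j : ℕ) (t y : ℝ) : ℝ :=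
  (rho j + 1 / 4) + (∫ τ in t..(1 / 2), Φ (ζP s δC δP j τ 1)) - ∫ r in y..1, sP δP j t r ^ 2
noncomputable def XC (j : ℕ) (t y : ℝ) : ℝ :=
  (rho j + ξ j (1 / 2 - sT j) 1) + (∫ τ in t..(1 / 2), Φ (ζC s ξ δC δP j τ 1)) -
    ∫ r in y..1, sC s δC j t r ^ 2

structure Data : Prop where
  hK : KFacts
  hL : ∀ j, Level j (s j) (ξ j)
  hE : ∀ j, LevelEst j (s j) (ξ j)
  hΦ : PhiFacts (RR s) Φ
  hb : Back Φ (al s) δC δP

variable {Φ s ξ δC δP}

namespace Data
variable (D : Data Φ s ξ δC δP)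
include D

theorem mass : Mass (amC (al s) δC) (amP δP) :=
  mass_of (al_cont D.hL) (al_early D.hL) (al_bd D.hL) (al_late D.hE) D.hb.cC D.hb.cP D.hb.bC D.hb.bP

theorem tf : TailFacts (amC (al s) δC) (amP δP) := tailFacts D.mass

theorem δC0 {j : ℕ} {t : ℝ} (ht : t ∈ Ioc (0 : ℝ) (1 / 2)) (h : sT j ≤ t) (y : ℝ) :
    δC j t y = 0 := by
  have := D.hb.bC j t (Ioc_subset_Icc_self ht) y
  rw [max_eq_right (by linarith)] at this; exact le_antisymm this.2 this.1

theorem δP0 {j : ℕ} {t : ℝ} (ht : t ∈ Ioc (0 : ℝ) (1 / 2)) (h : sT (j + 1) ≤ t) (y : ℝ) :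
    δP j t y = 0 := by
  have := D.hb.bP j t (Ioc_subset_Icc_self ht) y
  rw [max_eq_right (by linarith)] at this; exact le_antisymm this.2 this.1

theorem sP_half {j : ℕ} {t : ℝ} (ht : t ∈ Ioc (0 : ℝ) (1 / 2)) (h : sT (j + 1) ≤ t) (y : ℝ) :
    sP δP j t y = 1 / 2 := by rw [sP, D.δP0 ht h, sub_zero]

theorem aP_half {j : ℕ} {t : ℝ} (ht : t ∈ Ioc (0 : ℝ) (1 / 2)) (h : sT (j + 1) ≤ t) :
    amP δP j t = mP j / 2 := by simp [amP, D.δP0 ht h]

theorem sC_late {j : ℕ} {t : ℝ} (ht : t ∈ Ioc (0 : ℝ) (1 / 2)) (h : sT j ≤ t) (y : ℝ) :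
    sC s δC j t y = s j (t - sT j) y := by rw [sC, D.δC0 ht h, sub_zero, tj_ge h]

theorem sC_early {j : ℕ} {t : ℝ} (h : t ≤ sT j) {y : ℝ} (hy : y ∈ Icc (0 : ℝ) 1) :
    sC s δC j t y = 1 / 2 - δC j t y := by rw [sC, tj_le h, lev_s0 (D.hL j) hy]

theorem tl_late {j : ℕ} {t : ℝ} (ht : t ∈ Ioc (0 : ℝ) (1 / 2)) (h : sT j ≤ t) :
    tl s δC δP j t = RR s j := by
  unfold tl RR tail
  refine tsum_congr fun i => ?_
  have h1 : sT (j + 1 + i) ≤ t := (sT_anti (by omega)).trans h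
  have h2 : sT (j + 1 + i + 1) ≤ t := (sT_anti (by omega)).trans h
  have h3 : 2 * sT (j + 1 + i) ≤ t := sT_two_le h (by omega)
  rw [D.aP_half ht h2, al_rigid D.hE _ le_rfl (h3.trans ht.2), ← al_rigid D.hE _ ht.2 h3]
  simp [amC, D.δC0 ht h1]

theorem csC (j : ℕ) : Continuous (uncurry (sC s δC j)) := (cs_tj D.hL j).sub (D.hb.cC j)
theorem csP (j : ℕ) : Continuous (uncurry (sP δP j)) := continuous_const.sub (D.hb.cP j)

theorem ctl (j : ℕ) : ContinuousOn (fun p : ℝ × ℝ => tl s δC δP j p.1)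
    (Ioc (0 : ℝ) (1 / 2) ×ˢ Icc (0 : ℝ) 1) :=
  (D.tf.cont j).comp continuousOn_fst fun _ hp => hp.1

theorem caP (j : ℕ) : ContinuousOn (fun p : ℝ × ℝ => amP δP j p.1)
    (Ioc (0 : ℝ) (1 / 2) ×ˢ Icc (0 : ℝ) 1) :=
  (D.mass.cP j).comp continuousOn_fst fun _ hp => hp.1

theorem cζP (j : ℕ) : ContinuousOn (uncurry (ζP s δC δP j)) (Ioc 0 (1 / 2) ×ˢ Icc 0 1) :=
  ((continuousOn_const.mul (cont_int (D.csP j)).continuousOn).add
    (continuousOn_const.mul (D.caP (j + 1)))).add (D.ctl j)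

theorem cGG (j : ℕ) : Continuous (GG j) :=
  continuous_iff_continuousAt.2 fun x => ((gfacts D.hK j).der x).continuousAt

theorem cζC (j : ℕ) : ContinuousOn (uncurry (ζC s ξ δC δP j)) (Ioc 0 (1 / 2) ×ˢ Icc 0 1) :=
  (((continuousOn_const.mul (cont_int (D.csC j)).continuousOn).add
    (continuousOn_const.mul (D.caP j))).add (D.ctl j)).add
    (((D.cGG j).comp (cξ_tj D.hL j)).sub continuous_const).continuousOn

omit D in
theorem mx (j : ℕ) {t : ℝ} (ht : t ∈ Ioc (0 : ℝ) (1 / 2)) : max (sT j - t) 0 ≤ 1 / 4 :=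
  max_le (by linarith [sT_le j, ht.1]) (by norm_num)

theorem posP (j : ℕ) : ∀ t ∈ Ioc (0 : ℝ) (1 / 2), ∀ y ∈ Icc (0 : ℝ) 1,
    0 < sP δP j t y ∧ sP δP j t y ≤ 1 := by
  intro t ht y _
  have h := D.hb.bP j t (Ioc_subset_Icc_self ht) y
  have := mx (j + 1) ht
  unfold sP; constructor <;> linarith [h.1, h.2]

theorem posC (j : ℕ) : ∀ t ∈ Ioc (0 : ℝ) (1 / 2), ∀ y ∈ Icc (0 : ℝ) 1,
    0 < sC s δC j t y ∧ sC s δC j t y ≤ 1 := by
  intro t ht y hy
  rcases le_total t (sT j) with h | h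
  · have h1 := D.hb.bC j t (Ioc_subset_Icc_self ht) y
    have := mx j ht
    rw [D.sC_early h hy]; constructor <;> linarith [h1.1, h1.2]
  · rw [D.sC_late ht h, ← tj_ge h]; exact (D.hL j).pos _ (tj_mem j ht.2) y hy

theorem ζC_early {j : ℕ} {t : ℝ} (h : t ≤ sT j) {y : ℝ} (hy : y ∈ Icc (0 : ℝ) 1) :
    ζC s ξ δC δP j t y = mC j * (∫ r in y..1, sC s δC j t r) + kaq j * amP δP j t +
      tl s δC δP j t ∧ dG j (ξ j (tj j t) y) = 0 := by
  have h1 := lev_ξ0 (D.hL j) hy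
  have h2 := (gfacts D.hK j).foot _ h1.1 h1.2
  rw [ζC, tj_le h, h2.1, h2.2]; simp

theorem ζC_late {j : ℕ} {t : ℝ} (ht : t ∈ Ioc (0 : ℝ) (1 / 2)) (h : sT j ≤ t) (y : ℝ) :
    ζC s ξ δC δP j t y = mC j * (∫ r in y..1, s j (t - sT j) r) + GG j (ξ j (t - sT j) y) +
      RR s j := by
  have h1 : sT (j + 1) ≤ t := (sT_anti (by omega)).trans h
  have h2 := kaq_mP j
  rw [ζC, D.tl_late ht h, D.aP_half ht h1, tj_ge h]
  simp only [D.sC_late ht h]
  linarith

theorem ΦC_late {j : ℕ} {t : ℝ} (ht : t ∈ Ioc (0 : ℝ) (1 / 2)) (h : sT j ≤ t) {y : ℝ}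
    (hy : y ∈ Icc (0 : ℝ) 1) :
    Φ (ζC s ξ δC δP j t y) = psi j +
      Ph0 j (mC j * (∫ r in y..1, s j (t - sT j) r) + GG j (ξ j (t - sT j) y)) ∧
    deriv Φ (ζC s ξ δC δP j t y) =
      deriv (Ph0 j) (mC j * (∫ r in y..1, s j (t - sT j) r) + GG j (ξ j (t - sT j) y)) := by
  have hm := zeta0_mem D.hK D.hL D.hE j (t := t - sT j) (tj_ge h ▸ tj_mem j ht.2) hy (D.hΦ.hR j)
  rw [D.ζC_late ht h, D.hΦ.loc j _ hm.1 hm.2, D.hΦ.dloc j _ hm.1 hm.2]; simp

theorem ΦP_late {j : ℕ} {t : ℝ} (ht : t ∈ Ioc (0 : ℝ) (1 / 2)) (h : sT (j + 1) ≤ t) {y : ℝ}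
    (hy : y ∈ Icc (0 : ℝ) 1) :
    Φ (ζP s δC δP j t y) = psi (j + 1) ∧ deriv Φ (ζP s δC δP j t y) = 0 := by
  have h1 := int_bd ((D.csP j).uncurry_left t) hy zero_le_one fun r hr =>
    ⟨(D.posP j t ht r hr).1.le, (D.posP j t ht r hr).2⟩
  have a0 := mP_pos j
  have h3 : 0 ≤ mP j * ∫ r in y..1, sP δP j t r := mul_nonneg a0.le h1.1
  have h4 : mP j * ∫ r in y..1, sP δP j t r ≤ mP j := mul_le_of_le_one_right a0.le h1.2
  have h5 := D.tf.succ j t ht
  have h6 := D.tf.nn (j + 1) t ht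
  have h7 := D.mass.term_nonneg (j + 1) ht
  have h8 := D.tf.mid j t ht h
  have h9 := D.aP_half ht (j := j + 1) ((sT_anti (by omega)).trans h)
  have a1 := kaq_mP (j + 1); have a2 := zl_le (j + 1); have a3 := zl_pos (j + 1)
  have a4 := mP_le j; have a5 := M_le_mC (j + 1); have a6 := mC_le_zb (j + 1)
  have a7 := M_ge (j + 1)
  have e : kaq (j + 1) * amP δP (j + 1) t = M (j + 1) / 2 := by rw [h9]; linarith
  refine D.hΦ.flat (j + 1) ?_ ?_ <;> unfold ζP tl <;> rw [sub_mul, e] <;> linarith [h7.1, h7.2]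

theorem Φ1 : ContDiff ℝ 1 Φ := D.hΦ.cd.of_le (by norm_num)
theorem cdΦ : Continuous (deriv Φ) := D.Φ1.continuous_deriv le_rfl

omit D in
theorem sTmem (j : ℕ) : sT j ∈ Ioc (0 : ℝ) (1 / 2) := ⟨sT_pos j, by linarith [sT_le j]⟩

theorem blobP (hC : CharStmt) (j : ℕ) :
    Blob (1 / 2) (XP Φ s δC δP j) (sP δP j) fun t y => Φ (ζP s δC δP j t y) := by
  refine mkBlob hC D.Φ1 (σ := fun t y => 1 / 2 * mP j * deriv Φ (ζP s δC δP j t y))
    (c0 := 1 / 2) (sTmem (j + 1)) (D.csP j)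
    (continuousOn_const.mul (D.cdΦ.comp_continuousOn (D.cζP j))) (D.cζP j) (D.posP j) ?_ ?_
  · intro t ht y hy
    rcases le_total t (sT (j + 1)) with h | h
    · rw [sP, D.hb.odeP j t ⟨ht.1.le, h⟩ y hy, intervalIntegral.integral_symm t, sub_eq_add_neg]
      rfl
    · rw [D.sP_half ht h, intervalIntegral.integral_congr (g := fun _ => 0) fun τ hτ => ?_]
      · simp
      · rw [uIcc_of_le h] at hτ
        simp only
        rw [(D.ΦP_late ⟨(sT_pos _).trans_le hτ.1, hτ.2.trans ht.2⟩ hτ.1 hy).2, mul_zero]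
  · intro t _ y _
    refine ⟨_, (((hasDerivAt_int ((D.csP j).uncurry_left t) y).const_mul (mP j)).add_const
      _).add_const _, ?_⟩
    ring

theorem blobC (hC : CharStmt) (j : ℕ) :
    Blob (1 / 2) (XC Φ s ξ δC δP j) (sC s δC j) fun t y => Φ (ζC s ξ δC δP j t y) := by
  have G := gfacts D.hK j
  refine mkBlob hC D.Φ1 (σ := fun t y => 1 / 2 * deriv Φ (ζC s ξ δC δP j t y) *
      (mC j - dG j (ξ j (tj j t) y) * sC s δC j t y))
    (c0 := 1 / 2) (sTmem j) (D.csC j)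
    ?_ (D.cζC j) (D.posC j) ?_ ?_
  · exact (((continuousOn_const (c := (1 / 2 : ℝ))).mul (D.cdΦ.comp_continuousOn (D.cζC j))).mul
      ((continuous_const (y := mC j)).sub
        ((G.cd.comp (cξ_tj D.hL j)).mul (D.csC j))).continuousOn :)
  · intro t ht y hy
    rcases le_total t (sT j) with h | h
    · rw [D.sC_early h hy, D.hb.odeC j t ⟨ht.1.le, h⟩ y hy, intervalIntegral.integral_symm t,
        sub_eq_add_neg]
      congr 2
      refine intervalIntegral.integral_congr fun τ hτ => ?_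
      rw [uIcc_of_le h] at hτ
      have h1 := D.ζC_early hτ.2 hy
      rw [h1.1, h1.2, int_congr hy fun r hr => D.sC_early hτ.2 hr]
      unfold tl; ring
    · rw [D.sC_late ht h, (D.hL j).ode _ (tj_ge h ▸ tj_mem j ht.2) y hy]
      congr 1
      rw [show (∫ τ in (0 : ℝ)..(t - sT j), _) = ∫ τ in (sT j - sT j)..(t - sT j), _ by
        rw [sub_self], ← intervalIntegral.integral_comp_sub_right _ (sT j)]
      refine intervalIntegral.integral_congr fun τ hτ => ?_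
      rw [uIcc_of_le h] at hτ
      have hτ' : τ ∈ Ioc (0 : ℝ) (1 / 2) := ⟨(sT_pos _).trans_le hτ.1, hτ.2.trans ht.2⟩
      rw [(D.ΦC_late hτ' hτ.1 hy).2, D.sC_late hτ' hτ.1, tj_ge hτ.1]
  · intro t ht y hy
    have ht' := Ioo_subset_Ioc_self ht
    have hy' := Ioo_subset_Icc_self hy
    have d1 : HasDerivAt (ξ j (tj j t)) (s j (tj j t) y ^ 2) y := by
      have := (hasDerivAt_int (f := fun r => s j (tj j t) r ^ 2)
        (((D.hL j).cs.uncurry_left _).pow 2) y).const_sub (ξ j (tj j t) 1)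
      refine (this.congr_deriv (by simp)).congr_of_eventuallyEq ?_
      filter_upwards [Ioo_mem_nhds hy.1 hy.2] with z hz
        using (D.hL j).hξ _ (tj_mem j ht'.2) z (Ioo_subset_Icc_self hz)
    have d2 := ((G.der _).comp y d1).sub_const (M j / 2)
    refine ⟨_, ((((hasDerivAt_int ((D.csC j).uncurry_left t) y).const_mul (mC j)).add_const
      _).add_const _).add d2, ?_⟩
    rcases le_total t (sT j) with h | h
    · rw [(D.ζC_early h hy').2]; ring
    · rw [D.sC_late ht' h, tj_ge h]; ring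

theorem XP0 {j : ℕ} {t : ℝ} (ht : t ∈ Ioc (0 : ℝ) (1 / 2)) (h : sT (j + 1) ≤ t) :
    XP Φ s δC δP j t 0 = rho j + psi (j + 1) * (1 / 2 - t) := by
  unfold XP
  rw [intervalIntegral.integral_congr (g := fun _ => psi (j + 1)) fun τ hτ => by
    rw [uIcc_of_le ht.2] at hτ
    exact (D.ΦP_late ⟨ht.1.trans_le hτ.1, hτ.2⟩ (h.trans hτ.1) o01).1]
  simp only [D.sP_half ht h, intervalIntegral.integral_const, smul_eq_mul]
  ring

theorem relEq {j : ℕ} {t : ℝ} (ht : t ∈ Ioc (0 : ℝ) (1 / 2)) (h : sT j ≤ t) {y : ℝ}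
    (hy : y ∈ Icc (0 : ℝ) 1) :
    XC Φ s ξ δC δP j t y - XP Φ s δC δP j t 0 = ξ j (t - sT j) y := by
  have hm : t - sT j ∈ Icc (0 : ℝ) 1 := tj_ge h ▸ tj_mem j ht.2
  have hm2 : 1 / 2 - sT j ∈ Icc (0 : ℝ) 1 := ⟨by linarith [sT_le j], by linarith [sT_pos j]⟩
  set g : ℝ → ℝ := fun τ => hh j + nu j - Ph0 j (GG j (ξ j τ 1)) with hg
  have cg : Continuous g := continuous_const.sub ((Ph0_cd j (n := 0)).continuous.comp
    ((D.cGG j).comp ((D.hL j).cξ.uncurry_right 1)))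
  have e1 : ξ j (1 / 2 - sT j) 1 - ξ j (t - sT j) 1 = ∫ τ in t..(1 / 2), g (τ - sT j) := by
    have := intervalIntegral.integral_interval_sub_left (μ := volume)
      (cg.intervalIntegrable 0 (1 / 2 - sT j)) (cg.intervalIntegrable 0 (t - sT j))
    rw [(D.hL j).odeR _ hm2, (D.hL j).odeR _ hm, intervalIntegral.integral_comp_sub_right g,
      ← this]
    ring
  have e2 : ∫ τ in t..(1 / 2), Φ (ζC s ξ δC δP j τ 1) =
      ∫ τ in t..(1 / 2), (psi (j + 1) - g (τ - sT j)) := by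
    refine intervalIntegral.integral_congr fun τ hτ => ?_
    rw [uIcc_of_le ht.2] at hτ
    rw [(D.ΦC_late ⟨ht.1.trans_le hτ.1, hτ.2⟩ (h.trans hτ.1) o01).1, psi_succ, hg]
    simp only [intervalIntegral.integral_same, mul_zero, zero_add]
    ring
  have cg' : Continuous fun τ => g (τ - sT j) := cg.comp (continuous_sub_right _)
  rw [intervalIntegral.integral_sub intervalIntegrable_const (cg'.intervalIntegrable _ _),
    ← e1] at e2
  rw [D.XP0 ht ((sT_anti (by omega)).trans h), XC, e2, (D.hL j).hξ _ hm y hy]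
  simp only [D.sC_late ht h, intervalIntegral.integral_const, smul_eq_mul]
  ring

theorem dyn (hC : CharStmt) : Dyn Φ (XC Φ s ξ δC δP) (XP Φ s δC δP) (sC s δC) (sP δP)
    (ζC s ξ δC δP) (ζP s δC δP) (amC (al s) δC) (amP δP) := by
  refine ⟨D.blobC hC, D.blobP hC, D.mass, fun j t _ => ?_, fun j t _ => ?_, fun _ _ _ _ _ => rfl,
    fun j t _ h y hy => (D.ζC_early h hy).1, fun j t ht h y hy => ?_,
    fun j t ht h y _ => D.sP_half ht h y, fun j t ht h y hy => ?_, fun j => ?_, fun j => ?_⟩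
  · unfold amC al sC
    rw [intervalIntegral.integral_sub (((D.hL j).cs.uncurry_left _).intervalIntegrable _ _)
      (((D.hb.cC j).uncurry_left _).intervalIntegrable _ _)]
    ring
  · unfold amP sP
    rw [intervalIntegral.integral_sub intervalIntegrable_const
      (((D.hb.cP j).uncurry_left _).intervalIntegrable _ _)]
    simp only [intervalIntegral.integral_const, smul_eq_mul]
    ring
  · rw [D.relEq ht h hy, D.ζC_late ht h, ← D.tl_late ht h]
    simp only [D.sC_late ht h]; rfl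
  · rw [D.relEq ht h hy]; exact (D.hE j).range _ (tj_ge h ▸ tj_mem j ht.2) y hy
  · rw [D.relEq (sTmem j) le_rfl o01, sub_self]; simpa using (D.hL j).odeR 0 z01
  · rw [D.XP0 ⟨by norm_num, le_rfl⟩ (sTmem _).2]; ring

end Data

end MI34.DynB

namespace MI34

theorem dyn (hC : CharStmt) (hK : KFacts) (hP : PhiStmt) (hA : LevAStmt) (hB : LevBStmt)
    (hb : BackStmt) : DynStmt := by
  choose s ξ hL using hA
  have hE := fun j => hB j _ _ (hL j)
  have hΦ := hP _ (DynA.RR_mem hL hE)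
  obtain ⟨δC, δP, hδ⟩ := hb _ _ (DynA.al s) hΦ (DynA.al_cont hL) (DynA.al_early hL)
    (DynA.al_bd hL) (DynA.al_late hE)
  exact ⟨_, _, _, _, _, _, _, _, _, _, hΦ, (DynB.Data.mk hK hL hE hΦ hδ).dyn hC⟩

end MI34

end MrgPart4

-- ======== part 5: formerly Pool.Agent.MP_34a893_an.MI.Pos
section MrgPart5

/-! Positions of the blobs. -/

open MeasureTheory Set Filter Topology Function

namespace MI34

namespace PosA

section blob

variable {T : ℝ} {X s v : ℝ → ℝ → ℝ} {a b y : ℝ}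

theorem slice {f : ℝ → ℝ → ℝ} (h : ContinuousOn (uncurry f) (Ioc 0 T ×ˢ Icc 0 1)) (ha : 0 < a)
    (hb : b ≤ T) (hy : y ∈ Icc (0 : ℝ) 1) : ContinuousOn (fun t => f t y) (Icc a b) :=
  h.comp (f := fun t => (t, y)) (by fun_prop) fun _ ht => ⟨⟨ha.trans_le ht.1, ht.2.trans hb⟩, hy⟩

theorem vint (B : Blob T X s v) (ha : 0 < a) (hab : a ≤ b) (hb : b ≤ T) (hy : y ∈ Icc (0 : ℝ) 1) :
    IntervalIntegrable (fun τ => v τ y) volume a b :=
  (slice B.cv ha hb hy).intervalIntegrable_of_Icc hab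

theorem ftc (B : Blob T X s v) (ha : 0 < a) (hab : a ≤ b) (hb : b ≤ T) (hy : y ∈ Icc (0 : ℝ) 1) :
    X a y - X b y = ∫ τ in a..b, v τ y := by
  have := intervalIntegral.integral_eq_sub_of_hasDerivAt_of_le hab (slice B.cX ha hb hy)
    (fun t ht => B.dX y hy t ⟨ha.trans ht.1, ht.2.trans_le hb⟩) (vint B ha hab hb hy).neg
  rw [intervalIntegral.integral_neg] at this
  linarith

theorem move (B : Blob T X s v) (ha : 0 < a) (hab : a ≤ b) (hb : b ≤ T) (hy : y ∈ Icc (0 : ℝ) 1)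
    {c : ℝ} (h : ∀ τ ∈ Icc a b, c ≤ v τ y) : X b y + (b - a) * c ≤ X a y := by
  have := intervalIntegral.integral_mono_on hab intervalIntegrable_const (vint B ha hab hb hy) h
  rw [intervalIntegral.integral_const, ← ftc B ha hab hb hy, smul_eq_mul] at this
  linarith

theorem int_le {f : ℝ → ℝ} (hy : y ∈ Icc (0 : ℝ) 1) (h : ∀ r ∈ Icc (0 : ℝ) 1, 0 ≤ f r ∧ f r ≤ 1) :
    0 ≤ ∫ r in y..1, f r ∧ ∫ r in y..1, f r ≤ 1 := by
  refine ⟨intervalIntegral.integral_nonneg hy.2 fun r hr => (h r ⟨hy.1.trans hr.1, hr.2⟩).1, ?_⟩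
  have := intervalIntegral.norm_integral_le_of_norm_le_const (a := y) (b := 1) (C := 1) (f := f)
    fun r hr => by
      rw [uIoc_of_le hy.2] at hr
      have := h r ⟨hy.1.trans hr.1.le, hr.2⟩
      rw [Real.norm_eq_abs, abs_of_nonneg this.1]
      exact this.2
  rw [Real.norm_eq_abs, abs_of_nonneg (sub_nonneg.2 hy.2)] at this
  linarith [le_abs_self (∫ r in y..1, f r), hy.1]

theorem own (B : Blob T X s v) (ha : a ∈ Ioc 0 T) (hy : y ∈ Icc (0 : ℝ) 1) :
    0 ≤ ∫ r in y..1, s a r ∧ ∫ r in y..1, s a r ≤ 1 :=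
  int_le hy fun r hr => ⟨(B.pos a ha r hr).1.le, (B.pos a ha r hr).2⟩

theorem width (B : Blob T X s v) (ha : a ∈ Ioc 0 T) (hy : y ∈ Icc (0 : ℝ) 1) :
    |X a y - X a 0| ≤ 1 := by
  have h : ∀ r ∈ Icc (0 : ℝ) 1, 0 ≤ s a r ^ 2 ∧ s a r ^ 2 ≤ 1 := fun r hr =>
    ⟨sq_nonneg _, pow_le_one₀ (B.pos a ha r hr).1.le (B.pos a ha r hr).2⟩
  have h1 := int_le hy h
  have h2 := int_le (left_mem_Icc.2 zero_le_one) h
  rw [B.hX a ha y hy, B.hX a ha 0 (left_mem_Icc.2 zero_le_one), abs_le]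
  constructor <;> linarith [h1.1, h1.2, h2.1, h2.2]

end blob

variable {R : ℕ → ℝ} {Φ : ℝ → ℝ} {aC aP : ℕ → ℝ → ℝ}

/-- The field on a blob of level `i` is close to the far field. -/
def Z (aC aP : ℕ → ℝ → ℝ) (i : ℕ) (ζ : ℝ → ℝ → ℝ) : Prop :=
  ∀ τ ∈ Ioc (0 : ℝ) (1 / 2), ∀ y ∈ Icc (0 : ℝ) 1,
    tail aC aP i τ ≤ ζ τ y ∧ ζ τ y ≤ tail aC aP i τ + M (i + 1)

theorem cmp (hΦ : PhiFacts R Φ) (hT : TailFacts aC aP) (j : ℕ) {τ w : ℝ}
    (hτ : τ ∈ Ioc (0 : ℝ) (1 / 2)) (h1 : tail aC aP j τ ≤ w)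
    (h2 : w ≤ tail aC aP j τ + 2 * M (j + 1)) : |Φ w - Φ (tail aC aP j τ)| ≤ 4 * hh j := by
  have hM := M_ge (j + 1)
  have h3 := two_le_hh j
  rcases le_total τ (sT (j + 1)) with h | h
  · have h4 := hT.big j (j + 1) (Nat.lt_succ_self j) τ hτ h
    have h5 := zl_le (j + 1)
    have h6 : zl (j + 1) ≤ tail aC aP j τ := by linarith
    refine (hΦ.lip0 (j + 1) _ _ (h6.trans h1) h6).trans ?_
    have h7 : M (j + 1) ≤ M (j + 1) ^ 10 := le_self_pow₀ (one_le_M _) (by norm_num)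
    rw [div_le_iff₀ (by positivity), abs_of_nonneg (sub_nonneg.2 h1)]
    nlinarith
  · have h4 := hT.mid j τ hτ h
    have h5 := M_le_mC (j + 1)
    have h6 := mC_le_zb (j + 1)
    have h7 := hΦ.le_psi (j + 1) (w := w) (by linarith)
    have h8 := psi_le (j + 1)
    have h9 := hΦ.mono h1
    rw [hh_succ] at h8
    rw [abs_of_nonneg (sub_nonneg.2 h9)]
    linarith [hΦ.nonneg (tail aC aP j τ)]

variable {X s ζ : ℝ → ℝ → ℝ}

theorem near (hΦ : PhiFacts R Φ) (hT : TailFacts aC aP) {i j : ℕ} (hij : i ≤ j)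
    (B : Blob (1 / 2) X s fun t y => Φ (ζ t y)) (hZ : Z aC aP i ζ) {t y : ℝ}
    (ht : t ∈ Ioc (0 : ℝ) (1 / 2)) (hy : y ∈ Icc (0 : ℝ) 1) :
    |X t y - X (1 / 2) y - ∫ τ in t..1 / 2, Φ (tail aC aP j τ)| ≤ 2 * hh j := by
  have h0 : IntervalIntegrable (fun τ => Φ (tail aC aP j τ)) volume t (1 / 2) :=
    (hΦ.cd.continuous.comp_continuousOn ((hT.cont j).mono
      fun τ hτ => ⟨ht.1.trans_le hτ.1, hτ.2⟩)).intervalIntegrable_of_Icc ht.2
  rw [ftc B ht.1 ht.2 le_rfl hy, ← intervalIntegral.integral_sub (vint B ht.1 ht.2 le_rfl hy) h0]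
  have := intervalIntegral.norm_integral_le_of_norm_le_const (a := t) (b := 1 / 2) (C := 4 * hh j)
    (f := fun τ => Φ (ζ τ y) - Φ (tail aC aP j τ)) fun τ hτ => by
      rw [uIoc_of_le ht.2] at hτ
      have hτ' : τ ∈ Ioc (0 : ℝ) (1 / 2) := ⟨ht.1.trans hτ.1, hτ.2⟩
      have h1 := hZ τ hτ' y hy
      have h2 := hT.diff i j hij τ hτ'
      have h3 := M_mono (Nat.succ_le_succ hij)
      have h4 := M_mul_le j
      have h5 := M_pos j
      exact cmp hΦ hT j hτ' (h2.1.trans h1.1) (by linarith [h1.2, h2.2])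
  rw [abs_of_nonneg (sub_nonneg.2 ht.2)] at this
  refine this.trans ?_
  nlinarith [hh_pos j, ht.1]

theorem anti (hΦ : PhiFacts R Φ) (B : Blob (1 / 2) X s fun t y => Φ (ζ t y)) {a b : ℝ}
    (ha : 0 < a) (hab : a ≤ b) (hb : b ≤ 1 / 2) : X b 0 ≤ X a 0 := by
  simpa using move B ha hab hb (left_mem_Icc.2 zero_le_one) (c := 0) fun _ _ => hΦ.nonneg _

theorem far (hΦ : PhiFacts R Φ) (hT : TailFacts aC aP) {j : ℕ}
    (B : Blob (1 / 2) X s fun t y => Φ (ζ t y)) (hZ : Z aC aP j ζ) (h0 : 0 ≤ X (1 / 2) 0) (n : ℕ)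
    {t : ℝ} (ht : 0 < t) (h : t ≤ sT (j + n + 1)) : n / 8 ≤ X t 0 := by
  have hs : ∀ k, sT k ≤ 1 / 2 := fun k => (sT_le k).trans (by norm_num)
  refine le_trans ?_ (anti hΦ B ht h (hs _))
  clear h
  induction n with
  | zero => simpa using h0.trans (anti hΦ B (sT_pos _) (hs _) le_rfl)
  | succ n ih =>
    have h1 := move B (sT_pos (j + n + 1 + 1)) (sT_anti (Nat.le_succ _)) (hs _)
      (left_mem_Icc.2 zero_le_one) (c := hh (j + n)) fun τ hτ => by
        have hτ' : τ ∈ Ioc (0 : ℝ) (1 / 2) := ⟨(sT_pos _).trans_le hτ.1, hτ.2.trans (hs _)⟩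
        have h2 := hT.big j (j + n + 1) (by omega) τ hτ' hτ.2
        have h3 := (hZ τ hτ' 0 (left_mem_Icc.2 zero_le_one)).1
        have h4 := zl_le (j + n + 1)
        have h5 := M_pos (j + n + 1)
        exact (hh_le_psi _).trans (hΦ.ge_psi _ (by linarith))
    have h2 := sT_hh (j + n)
    rw [← sT_succ, ← sT_succ] at h2
    rw [← sT_succ (j + n + 1)] at h1
    rw [← sT_succ (j + n + 1)] at ih
    push_cast
    change _ ≤ X (sT (j + n + 1 + 1)) 0
    linarith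

variable {XC XP sC sP ζC ζP : ℕ → ℝ → ℝ → ℝ}

theorem aP_bd (h : Mass aC aP) (j : ℕ) {t : ℝ} (ht : t ∈ Ioc (0 : ℝ) (1 / 2)) :
    0 ≤ aP j t ∧ kaq j * aP j t ≤ M j / 2 := by
  have h1 := h.bP j t ht
  have h2 := mul_le_mul_of_nonneg_left h1.2 (kaq_pos j).le
  rw [← mul_div_assoc, kaq_mP] at h2
  exact ⟨by linarith [h1.1, mP_pos j], h2⟩

theorem zP (D : Dyn Φ XC XP sC sP ζC ζP aC aP) (j : ℕ) : Z aC aP j (ζP j) := fun t ht y hy => by
  have h1 := own (D.blobP j) ht hy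
  have h2 := aP_bd D.mass (j + 1) ht
  have h3 := mul_nonneg (sub_nonneg.2 (kap_succ_le_kaq (j + 1))) h2.1
  have h4 := mul_nonneg (kap_pos (j + 2)).le h2.1
  have h5 := mul_nonneg (mP_pos j).le h1.1
  have h6 := mul_le_of_le_one_right (mP_pos j).le h1.2
  have h7 := mP_le j
  have h8 := mP_pos j
  rw [D.hζP j t ht y hy]
  constructor
  · linarith
  · rw [sub_mul]
    linarith [h2.2]

theorem zC (hG : ∀ j, GFacts j) (D : Dyn Φ XC XP sC sP ζC ζP aC aP) (j : ℕ) :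
    Z aC aP j (ζC j) := fun t ht y hy => by
  have h1 := own (D.blobC j) ht hy
  have h2 := aP_bd D.mass j ht
  have h3 := mul_nonneg (kaq_pos j).le h2.1
  have h5 := mul_nonneg (mC_pos j).le h1.1
  have h6 := mul_le_of_le_one_right (mC_pos j).le h1.2
  have h7 := mP_le j
  have h8 := mC_le_mP j
  have h9 := M_le_mC j
  have h0 := M_pos j
  rcases le_total t (sT j) with h | h
  · rw [D.hζ1 j t ht h y hy]
    constructor <;> linarith [h2.2]
  · have h4 := (hG j).bd (XC j t y - XP j t 0)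
    rw [D.hζ2 j t ht h y hy]
    constructor <;> linarith [h4.1, h4.2]

theorem core (hG : ∀ j, GFacts j) (hT : TailFacts aC aP) (hΦ : PhiFacts R Φ)
    (D : Dyn Φ XC XP sC sP ζC ζP aC aP) : Pos XC XP := by
  have hs : ∀ k, sT k ≤ 1 / 2 := fun k => (sT_le k).trans (by norm_num)
  have hh2 : (1 / 2 : ℝ) ∈ Ioc (0 : ℝ) (1 / 2) := ⟨by norm_num, le_rfl⟩
  have y0 : (0 : ℝ) ∈ Icc (0 : ℝ) 1 := left_mem_Icc.2 zero_le_one
  have y1 : (1 : ℝ) ∈ Icc (0 : ℝ) 1 := right_mem_Icc.2 zero_le_one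
  have l0 : ∀ j : ℕ, (j : ℝ) ≤ XC j (1 / 2) 0 ∧ (j : ℝ) ≤ XP j (1 / 2) 0 := fun j => by
    have h1 := (D.rel j _ hh2 (hs j) 0 y0).1
    have h2 := (rho_bd j).1
    have h3 := nat_le_N j
    have h4 := N_mul_le j
    have h5 := N_ge j
    have h6 := eps_le j
    rw [D.fin, xi0] at h1
    rw [D.fin]
    constructor <;> linarith
  refine ⟨fun j t ht => ⟨∫ τ in t..1 / 2, Φ (tail aC aP j τ), fun i hi y hy => ?_⟩,
    fun j t ht h => ?_, fun j t ht => ⟨(l0 j).1.trans (anti hΦ (D.blobC j) ht.1 ht.2 le_rfl),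
      (l0 j).2.trans (anti hΦ (D.blobP j) ht.1 ht.2 le_rfl)⟩, fun j A => ?_⟩
  · have h1 := abs_le.1 (near hΦ hT hi (D.blobC i) (zC hG D i) ht hy)
    have h2 := abs_le.1 (near hΦ hT hi (D.blobP i) (zP D i) ht hy)
    have h3 := D.rel i _ hh2 (hs i) y hy
    have h4 := abs_le.1 (width (D.blobP i) hh2 hy)
    have h5 := hh_mono hi
    have h6 := hh_le_N j
    have h7 := two_le_hh j
    have h8 := eps_le i
    have h9 := eps_pos i
    have h0 := nu_le i
    rw [D.fin] at h3 h4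
    rw [xi0] at h3
    constructor <;> rw [abs_le] <;> constructor <;>
      linarith [h1.1, h1.2, h2.1, h2.2, h3.1, h3.2, h4.1, h4.2]
  · have h1 := intervalIntegral.integral_mono_on h (vint (D.blobC j) ht.1 h (hs j) y1)
      (vint (D.blobP j) ht.1 h (hs j) y0) fun τ hτ => hΦ.mono (by
        have hτ' : τ ∈ Ioc (0 : ℝ) (1 / 2) := ⟨ht.1.trans_le hτ.1, hτ.2.trans (hs j)⟩
        have h2 := mul_nonneg (sub_nonneg.2 (kap_succ_le_kaq (j + 1)))
          (aP_bd D.mass (j + 1) hτ').1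
        have h3 := mul_le_of_le_one_left (aP_bd D.mass j hτ').1
          ((kaq_le j).trans (by norm_num) : kaq j ≤ 1)
        rw [D.hζ1 j τ hτ' hτ.2 1 y1, D.hζP j τ hτ' 0 y0, ← D.haP j τ hτ',
          intervalIntegral.integral_same]
        linarith)
    rw [← ftc (D.blobC j) ht.1 h (hs j) y1, ← ftc (D.blobP j) ht.1 h (hs j) y0] at h1
    linarith [D.start j]
  · obtain ⟨n, hn⟩ := exists_nat_ge (8 * A)
    refine ⟨sT (j + n + 1), sT_pos _, fun t ht h => ?_⟩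
    have h1 := far hΦ hT (D.blobC j) (zC hG D j) (j.cast_nonneg.trans (l0 j).1) n ht.1 h
    have h2 := far hΦ hT (D.blobP j) (zP D j) (j.cast_nonneg.trans (l0 j).2) n ht.1 h
    constructor <;> linarith

end PosA

theorem pos (hK : KFacts) : PosStmt := fun _ _ _ _ _ _ _ _ _ _ hΦ D =>
  PosA.core (gfacts hK) (tailFacts D.mass) hΦ D

end MI34

end MrgPart5

-- ======== part 6: formerly Pool.Agent.MP_34a893_an.MI.Blob
section MrgPart6

/-! The Eulerian density and flux of one blob. -/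

open MeasureTheory Set Filter Topology Function

namespace MI34

namespace BlobP

/-- the open set of labels -/
def SS (T : ℝ) : Set (ℝ × ℝ) := Ioc 0 T ×ˢ Ioo 0 1

/-- the map from labels to positions -/
def Th (X : ℝ → ℝ → ℝ) (z : ℝ × ℝ) : ℝ × ℝ := (z.1, X z.1 z.2)

/-- a function of the label, read as a function of the position -/
noncomputable def ex (T : ℝ) (X F : ℝ → ℝ → ℝ) (t x : ℝ) : ℝ :=
  extend ((SS T).domRestrict (Th X)) ((SS T).domRestrict (uncurry F)) 0 (t, x)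

variable {T : ℝ} {X s v : ℝ → ℝ → ℝ}

theorem SS_sub : SS T ⊆ Ioc 0 T ×ˢ Icc 0 1 := prod_mono subset_rfl Ioo_subset_Icc_self

theorem secy {F : ℝ → ℝ → ℝ} (h : ContinuousOn (uncurry F) (Ioc 0 T ×ˢ Icc 0 1)) {t : ℝ}
    (ht : t ∈ Ioc 0 T) : ContinuousOn (F t) (Icc 0 1) :=
  h.comp (Continuous.prodMk_right t).continuousOn fun _ hy => ⟨ht, hy⟩

theorem sect {F : ℝ → ℝ → ℝ} (h : ContinuousOn (uncurry F) (Ioc 0 T ×ˢ Icc 0 1)) {y : ℝ}
    (hy : y ∈ Icc (0 : ℝ) 1) : ContinuousOn (fun t => F t y) (Ioc 0 T) :=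
  h.comp (Continuous.prodMk_left y).continuousOn fun _ ht => ⟨ht, hy⟩

theorem der (h : Blob T X s v) {t y : ℝ} (ht : t ∈ Ioc 0 T) (hy : y ∈ Ioo (0 : ℝ) 1) :
    HasDerivAt (X t) (s t y ^ 2) y := by
  have c : ContinuousOn (fun r => s t r ^ 2) (Icc 0 1) := (secy h.cs ht).pow 2
  have n : Icc (0 : ℝ) 1 ∈ 𝓝 y := Icc_mem_nhds hy.1 hy.2
  have i : IntervalIntegrable (fun r => s t r ^ 2) volume y 1 :=
    (c.mono (by rw [uIcc_of_le hy.2.le]; exact Icc_subset_Icc_left hy.1.le)).intervalIntegrable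
  have d := (intervalIntegral.integral_hasDerivAt_left i
    ⟨_, n, c.aestronglyMeasurable measurableSet_Icc⟩ (c.continuousAt n)).const_sub (X t 1)
  rw [neg_neg] at d
  exact d.congr_of_eventuallyEq (mem_of_superset n fun z hz => h.hX t ht z hz)

theorem mono (h : Blob T X s v) {t : ℝ} (ht : t ∈ Ioc 0 T) : StrictMonoOn (X t) (Icc 0 1) :=
  strictMonoOn_of_deriv_pos (convex_Icc 0 1) (secy h.cX ht) fun y hy => by
    rw [interior_Icc] at hy
    rw [(der h ht hy).deriv]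
    exact pow_pos (h.pos t ht y (Ioo_subset_Icc_self hy)).1 2

theorem inj (h : Blob T X s v) : InjOn (Th X) (SS T) := by
  rintro ⟨t, y⟩ a ⟨u, z⟩ b e
  obtain ⟨rfl, e⟩ := Prod.mk.inj e
  exact Prod.ext rfl ((mono h a.1).injOn (SS_sub a).2 (SS_sub b).2 e)

theorem emb (h : Blob T X s v) : MeasurableEmbedding ((SS T).domRestrict (Th X)) :=
  ContinuousOn.measurableEmbedding (measurableSet_Ioc.prod measurableSet_Ioo)
    (continuousOn_fst.prodMk (h.cX.mono SS_sub)) (inj h)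

theorem ex_on (h : Blob T X s v) (F : ℝ → ℝ → ℝ) {t y : ℝ} (ht : t ∈ Ioc 0 T)
    (hy : y ∈ Ioo (0 : ℝ) 1) : ex T X F t (X t y) = F t y :=
  (emb h).injective.extend_apply _ _ (⟨(t, y), ht, hy⟩ : SS T)

theorem ex_off (F : ℝ → ℝ → ℝ) {t x : ℝ}
    (hn : ¬(t ∈ Ioc 0 T ∧ ∃ y ∈ Ioo (0 : ℝ) 1, x = X t y)) : ex T X F t x = 0 :=
  extend_apply' _ _ _ fun ⟨⟨⟨u, y⟩, a⟩, e⟩ => hn <| by
    obtain ⟨rfl, k⟩ := Prod.mk.inj e
    exact ⟨a.1, y, a.2, k.symm⟩

theorem ex_meas (h : Blob T X s v) {F : ℝ → ℝ → ℝ}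
    (c : ContinuousOn (uncurry F) (Ioc 0 T ×ˢ Icc 0 1)) : Measurable (uncurry (ex T X F)) :=
  (emb h).measurable_extend (continuousOn_iff_continuous_domRestrict.1 (c.mono SS_sub)).measurable
    measurable_zero

theorem chg (h : Blob T X s v) {t : ℝ} (ht : t ∈ Ioc 0 T) {H K : ℝ → ℝ}
    (h0 : ∀ x, ¬(t ∈ Ioc 0 T ∧ ∃ y ∈ Ioo (0 : ℝ) 1, x = X t y) → H x = 0)
    (h1 : ∀ y ∈ Ioo (0 : ℝ) 1, s t y ^ 2 * H (X t y) = K y) :
    ∫ x, H x = ∫ r in (0 : ℝ)..1, K r := by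
  rw [← setIntegral_eq_integral_of_forall_compl_eq_zero (s := X t '' Ioo 0 1)
      fun x hx => h0 x fun ⟨_, y, a, e⟩ => hx ⟨y, a, e.symm⟩,
    integral_image_eq_integral_abs_deriv_smul measurableSet_Ioo
      (fun y hy => (der h ht hy).hasDerivWithinAt) ((mono h ht).injOn.mono Ioo_subset_Icc_self),
    intervalIntegral.integral_of_le zero_le_one, integral_Ioc_eq_integral_Ioo]
  exact setIntegral_congr_fun measurableSet_Ioo fun y hy => by
    simp only [smul_eq_mul, abs_of_nonneg (sq_nonneg (s t y)), h1 y hy]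

theorem bdd {F : ℝ → ℝ → ℝ} (c : ContinuousOn (uncurry F) (Ioc 0 T ×ˢ Icc 0 1)) {t0 : ℝ}
    (h0 : 0 < t0) : ∃ B, 0 ≤ B ∧ ∀ t ∈ Icc t0 T, ∀ y ∈ Icc (0 : ℝ) 1, |F t y| ≤ B := by
  obtain ⟨B, hB⟩ := (isCompact_Icc.prod isCompact_Icc).exists_bound_of_continuousOn
    (c.mono (prod_mono (Icc_subset_Ioc_left h0) subset_rfl))
  exact ⟨max B 0, le_max_right _ _, fun t ht y hy => le_max_of_le_left (hB (t, y) ⟨ht, hy⟩)⟩

theorem ex_bd (h : Blob T X s v) {F : ℝ → ℝ → ℝ} {t B : ℝ} (hB : 0 ≤ B)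
    (b : ∀ y ∈ Icc (0 : ℝ) 1, |F t y| ≤ B) (x : ℝ) : |ex T X F t x| ≤ B := by
  by_cases k : t ∈ Ioc 0 T ∧ ∃ y ∈ Ioo (0 : ℝ) 1, x = X t y
  · obtain ⟨ht, y, hy, rfl⟩ := k
    rw [ex_on h F ht hy]
    exact b y (Ioo_subset_Icc_self hy)
  · rwa [ex_off F k, abs_zero]

theorem off_lt (h : Blob T X s v) (F : ℝ → ℝ → ℝ) {t x : ℝ} (k : x < X t 0 ∨ X t 1 < x) :
    ex T X F t x = 0 :=
  ex_off F fun ⟨ht, y, hy, e⟩ => by
    have a := mono h ht (left_mem_Icc.2 zero_le_one) (Ioo_subset_Icc_self hy) hy.1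
    have b := mono h ht (Ioo_subset_Icc_self hy) (right_mem_Icc.2 zero_le_one) hy.2
    rcases k with k | k <;> linarith

theorem label (h : Blob T X s v) {t x : ℝ} (ht : t ∈ Ioc 0 T) (a : X t 0 < x) (b : x < X t 1) :
    ∃ y ∈ Ioo (0 : ℝ) 1, X t y = x :=
  intermediate_value_Ioo zero_le_one (secy h.cX ht) ⟨a, b⟩

theorem lim (h : Blob T X s v) {F : ℝ → ℝ → ℝ}
    (c : ContinuousOn (uncurry F) (Ioc 0 T ×ˢ Icc 0 1)) {t0 x : ℝ} (h0 : t0 ∈ Ioc 0 T)
    (a : x ≠ X t0 0) (b : x ≠ X t0 1) :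
    Tendsto (fun t => ex T X F t x) (𝓝[Ioc 0 T] t0) (𝓝 (ex T X F t0 x)) := by
  have z : (0 : ℝ) ∈ Icc (0 : ℝ) 1 := left_mem_Icc.2 zero_le_one
  have o : (1 : ℝ) ∈ Icc (0 : ℝ) 1 := right_mem_Icc.2 zero_le_one
  have lo : ∀ y ∈ Icc (0 : ℝ) 1, X t0 y < x → ∀ᶠ t in 𝓝[Ioc 0 T] t0, X t y < x :=
    fun y hy e => (sect h.cX hy t0 h0).tendsto.eventually (gt_mem_nhds e)
  have hi : ∀ y ∈ Icc (0 : ℝ) 1, x < X t0 y → ∀ᶠ t in 𝓝[Ioc 0 T] t0, x < X t y :=
    fun y hy e => (sect h.cX hy t0 h0).tendsto.eventually (lt_mem_nhds e)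
  rcases a.lt_or_gt with a | a
  · rw [off_lt h F (Or.inl a)]
    exact tendsto_const_nhds.congr' ((hi 0 z a).mono fun t e => (off_lt h F (Or.inl e)).symm)
  rcases b.lt_or_gt with b | b
  swap
  · rw [off_lt h F (Or.inr b)]
    exact tendsto_const_nhds.congr' ((lo 1 o b).mono fun t e => (off_lt h F (Or.inr e)).symm)
  obtain ⟨y0, hy0, rfl⟩ := label h h0 a b
  have y0' := Ioo_subset_Icc_self hy0
  set L : ℝ → ℝ := fun t => ex T X (fun _ y => y) t (X t0 y0) with hL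
  have ev : ∀ᶠ t in 𝓝[Ioc 0 T] t0, t ∈ Ioc 0 T ∧ L t ∈ Ioo (0 : ℝ) 1 ∧ X t (L t) = X t0 y0 := by
    filter_upwards [self_mem_nhdsWithin, lo 0 z a, hi 1 o b] with t ht p q
    obtain ⟨y, hy, e⟩ := label h ht p q
    have : L t = y := by rw [hL]; simp only; rw [← e, ex_on h _ ht hy]
    exact ⟨ht, this ▸ hy, this ▸ e⟩
  have tl : Tendsto L (𝓝[Ioc 0 T] t0) (𝓝 y0) := by
    refine tendsto_order.2 ⟨fun u hu => ?_, fun u hu => ?_⟩
    · have k : max u 0 < y0 := max_lt hu hy0.1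
      have m : max u 0 ∈ Icc (0 : ℝ) 1 := ⟨le_max_right _ _, k.le.trans y0'.2⟩
      filter_upwards [ev, lo _ m (mono h h0 m y0' k)] with t e p
      rw [← e.2.2] at p
      exact (le_max_left _ _).trans_lt
        (((mono h e.1).lt_iff_lt m (Ioo_subset_Icc_self e.2.1)).1 p)
    · have k : y0 < min u 1 := lt_min hu hy0.2
      have m : min u 1 ∈ Icc (0 : ℝ) 1 := ⟨y0'.1.trans k.le, min_le_right _ _⟩
      filter_upwards [ev, hi _ m (mono h h0 y0' m k)] with t e p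
      rw [← e.2.2] at p
      exact (((mono h e.1).lt_iff_lt (Ioo_subset_Icc_self e.2.1) m).1 p).trans_le (min_le_left _ _)
  have tp : Tendsto (fun t => (t, L t)) (𝓝[Ioc 0 T] t0) (𝓝[Ioc 0 T ×ˢ Icc 0 1] (t0, y0)) :=
    tendsto_nhdsWithin_iff.2 ⟨(tendsto_id.mono_left nhdsWithin_le_nhds).prodMk_nhds tl,
      ev.mono fun t e => ⟨e.1, Ioo_subset_Icc_self e.2.1⟩⟩
  rw [ex_on h F h0 hy0]
  refine ((c (t0, y0) ⟨h0, y0'⟩).tendsto.comp tp).congr' (ev.mono fun t e => ?_)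
  exact (ex_on h F e.1 e.2.1).symm.trans (by rw [e.2.2])

theorem cont (h : Blob T X s v) {F : ℝ → ℝ → ℝ}
    (c : ContinuousOn (uncurry F) (Ioc 0 T ×ˢ Icc 0 1)) {t0 : ℝ} (h0 : t0 ∈ Ioc 0 T) :
    Tendsto (fun t => ∫ x, |ex T X F t x - ex T X F t0 x|) (𝓝[Ioc 0 T] t0) (𝓝 0) := by
  obtain ⟨A, -, hA⟩ := bdd h.cX (half_pos h0.1)
  obtain ⟨B, B0, hB⟩ := bdd c (half_pos h0.1)
  have m0 : t0 ∈ Icc (t0 / 2) T := ⟨(half_lt_self h0.1).le, h0.2⟩
  have me : ∀ t, Measurable (ex T X F t) := fun t => (ex_meas h c).of_uncurry_left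
  have off : ∀ t ∈ Icc (t0 / 2) T, ∀ x ∉ Icc (-A) A, ex T X F t x = 0 :=
    fun t ht x hx => ex_off F fun ⟨_, y, hy, e⟩ =>
      hx (e ▸ abs_le.1 (hA t ht y (Ioo_subset_Icc_self hy)))
  have := tendsto_integral_filter_of_dominated_convergence (μ := volume) (l := 𝓝[Ioc 0 T] t0)
    (F := fun t x => |ex T X F t x - ex T X F t0 x|) (f := fun _ => 0)
    ((Icc (-A) A).indicator fun _ => B + B)
    (Eventually.of_forall fun t => ((me t).sub (me t0)).abs.aestronglyMeasurable) ?_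
    ((integrable_indicator_iff measurableSet_Icc).2 continuous_const.integrableOn_Icc) ?_
  · simpa using this
  · filter_upwards [self_mem_nhdsWithin,
      mem_nhdsWithin_of_mem_nhds (lt_mem_nhds (half_lt_self h0.1))] with t ht p
    refine Eventually.of_forall fun x => ?_
    by_cases k : x ∈ Icc (-A) A
    · rw [indicator_of_mem k, Real.norm_eq_abs, abs_abs]
      exact (abs_sub _ _).trans (add_le_add (ex_bd h B0 (hB t ⟨p.le, ht.2⟩) x)
        (ex_bd h B0 (hB t0 m0) x))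
    · simp [indicator_of_notMem k, off t ⟨p.le, ht.2⟩ x k, off t0 m0 x k]
  · filter_upwards [(toFinite {X t0 0, X t0 1}).countable.ae_notMem volume] with x hx
    simp only [mem_insert_iff, mem_singleton_iff, not_or] at hx
    simpa using ((lim h c h0 hx.1 hx.2).sub_const (ex T X F t0 x)).abs

end BlobP

open BlobP

theorem blob : BlobStmt := by
  intro T m X s v hm h
  have ne : ∀ z ∈ Ioc 0 T ×ˢ Icc (0 : ℝ) 1, uncurry s z ^ 2 ≠ 0 :=
    fun z hz => pow_ne_zero 2 (h.pos _ hz.1 _ hz.2).1.ne'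
  have cq : ContinuousOn (uncurry fun t y => m ^ 2 / s t y ^ 2) (Ioc 0 T ×ˢ Icc 0 1) :=
    continuousOn_const.div (h.cs.pow 2) ne
  have cw : ContinuousOn (uncurry fun t y => -v t y * (m ^ 2 / s t y ^ 2)) (Ioc 0 T ×ˢ Icc 0 1) :=
    h.cv.neg.mul cq
  refine ⟨ex T X fun t y => m ^ 2 / s t y ^ 2, ex T X fun t y => -v t y * (m ^ 2 / s t y ^ 2),
    ex_meas h cq, ex_meas h cw, fun t x => ?_, fun t ht y hy => ex_on h _ ht hy, fun t0 h0 => ?_,
    fun t ht g => ?_, fun t ht g => ?_, fun t ht g => ?_, fun t0 h0 => cont h cq h0⟩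
  · by_cases k : t ∈ Ioc 0 T ∧ ∃ y ∈ Ioo (0 : ℝ) 1, x = X t y
    · obtain ⟨ht, y, hy, rfl⟩ := k
      exact Or.inr ⟨ht, y, hy, rfl, ex_on h _ ht hy, by rw [ex_on h _ ht hy, ex_on h _ ht hy]⟩
    · exact Or.inl ⟨ex_off _ k, ex_off _ k⟩
  · obtain ⟨A, A0, hA⟩ := bdd cq h0.1
    obtain ⟨B, B0, hB⟩ := bdd cw h0.1
    exact ⟨max A B, fun t ht x => ⟨le_max_of_le_left ((le_abs_self _).trans (ex_bd h A0 (hA t ht) x)),
      le_max_of_le_right (ex_bd h B0 (hB t ht) x)⟩⟩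
  · rw [← intervalIntegral.integral_const_mul]
    refine chg h ht (fun x k => by rw [ex_off _ k, mul_zero]) fun y hy => ?_
    have := (h.pos t ht y (Ioo_subset_Icc_self hy)).1.ne'
    rw [ex_on h _ ht hy]
    field_simp
  · rw [← intervalIntegral.integral_const_mul, ← intervalIntegral.integral_neg]
    refine chg h ht (fun x k => by rw [ex_off _ k, mul_zero]) fun y hy => ?_
    have := (h.pos t ht y (Ioo_subset_Icc_self hy)).1.ne'
    rw [ex_on h _ ht hy]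
    field_simp
  · rw [← intervalIntegral.integral_const_mul]
    refine chg h ht (fun x k => by rw [ex_off _ k, Real.sqrt_zero, mul_zero]) fun y hy => ?_
    have := (h.pos t ht y (Ioo_subset_Icc_self hy)).1
    rw [ex_on h _ ht hy, ← div_pow, Real.sqrt_sq (div_pos hm this).le]
    field_simp

end MI34

end MrgPart6

-- ======== part 7: formerly Pool.Agent.MP_34a893_an.MI.Weak
section MrgPart7

/-! The weak formulation for one blob. -/

open MeasureTheory Set Filter Topology Function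

namespace MI34

namespace Weak

variable {T m : ℝ} {X s v q w : ℝ → ℝ → ℝ}

theorem slice {f : ℝ → ℝ → ℝ} (h : ContinuousOn (uncurry f) (Ioc 0 T ×ˢ Icc 0 1)) {t : ℝ}
    (ht : t ∈ Ioc 0 T) : ContinuousOn (f t) (Icc 0 1) :=
  h.comp (f := fun r : ℝ => (t, r)) (by fun_prop) fun _ hr => ⟨ht, hr⟩

theorem left_le (hB : Blob T X s v) {t y : ℝ} (ht : t ∈ Ioc 0 T) (hy : y ∈ Icc (0 : ℝ) 1) :
    X t 0 ≤ X t y := by
  have c : ContinuousOn (fun r => s t r ^ 2) (Icc 0 1) := (slice hB.cs ht).pow 2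
  have i1 : IntervalIntegrable (fun r => s t r ^ 2) volume 0 y :=
    (c.mono (Icc_subset_Icc_right hy.2)).intervalIntegrable_of_Icc hy.1
  have i2 : IntervalIntegrable (fun r => s t r ^ 2) volume y 1 :=
    (c.mono (Icc_subset_Icc_left hy.1)).intervalIntegrable_of_Icc hy.2
  have e := intervalIntegral.integral_add_adjacent_intervals i1 i2
  have p : 0 ≤ ∫ r in (0 : ℝ)..y, s t r ^ 2 :=
    intervalIntegral.integral_nonneg hy.1 fun _ _ => sq_nonneg _
  rw [hB.hX t ht 0 ⟨le_rfl, zero_le_one⟩, hB.hX t ht y hy]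
  linarith

theorem integrable_mul {u : ℝ → ℝ → ℝ} (hu : Measurable (uncurry u)) {c : ℝ × ℝ → ℝ}
    (hc : Continuous c) (hs : HasCompactSupport c) {B : ℝ}
    (h : ∀ t ∈ Ioo 0 T, ∀ x, |u t x| ≤ B ∨ c (t, x) = 0) :
    IntegrableOn (fun z : ℝ × ℝ => u z.1 z.2 * c z) (Ioo 0 T ×ˢ univ) := by
  have i : Integrable fun z => B * ‖c z‖ := (hc.integrable_of_hasCompactSupport hs).norm.const_mul B
  refine i.integrableOn.mono' (hu.mul hc.measurable).aestronglyMeasurable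
    (ae_restrict_of_forall_mem (measurableSet_Ioo.prod MeasurableSet.univ) fun z hz => ?_)
  rw [norm_mul]
  rcases h z.1 hz.1 z.2 with k | k
  · exact mul_le_mul_of_nonneg_right k (norm_nonneg _)
  · simp [show c z = 0 from k]

/-- The integral along the trajectories vanishes. -/
theorem traj (hB : Blob T X s v) {φ : ℝ × ℝ → ℝ} (hφ : ContDiff ℝ 1 φ) {t1 : ℝ} (h1 : 0 < t1)
    (h2 : t1 < T) (hz : ∀ t ∈ Ioc 0 T, t ≤ t1 ∨ t = T → ∀ r ∈ Icc (0 : ℝ) 1,
      (t, X t r) ∉ tsupport φ) :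
    ∫ t in Ioo 0 T, ∫ r in (0 : ℝ)..1,
      (fderiv ℝ φ (t, X t r) (1, 0) - fderiv ℝ φ (t, X t r) (0, 1) * v t r) = 0 := by
  set G : ℝ × ℝ → ℝ := fun z =>
    fderiv ℝ φ (z.1, X z.1 z.2) (1, 0) - fderiv ℝ φ (z.1, X z.1 z.2) (0, 1) * v z.1 z.2 with hG
  have cd : Continuous (fderiv ℝ φ) := hφ.continuous_fderiv one_ne_zero
  have cp : ContinuousOn (fun z : ℝ × ℝ => (z.1, X z.1 z.2)) (Ioc 0 T ×ˢ Icc 0 1) :=
    continuousOn_fst.prodMk hB.cX
  have cG : ContinuousOn G (Ioc 0 T ×ˢ Icc 0 1) :=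
    ((cd.comp_continuousOn cp).clm_apply continuousOn_const).sub
      (((cd.comp_continuousOn cp).clm_apply continuousOn_const).mul hB.cv)
  have zG : ∀ t ∈ Ioc 0 T, t ≤ t1 → ∀ r ∈ Icc (0 : ℝ) 1, G (t, r) = 0 := fun t ht k r hr => by
    simp [hG, fderiv_of_notMem_tsupport ℝ (hz t ht (Or.inl k) r hr)]
  have sub : Icc t1 T ⊆ Ioc 0 T := fun t ht => ⟨h1.trans_le ht.1, ht.2⟩
  have iG : IntegrableOn G (Ioo 0 T ×ˢ Ioc 0 1) :=
    ((cG.mono (prod_mono_left sub)).integrableOn_compact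
      (isCompact_Icc.prod isCompact_Icc)).of_forall_sdiff_eq_zero
      (measurableSet_Ioo.prod measurableSet_Ioc) fun z hz =>
        zG z.1 (Ioo_subset_Ioc_self hz.1.1) (le_of_not_ge fun k =>
          hz.2 ⟨⟨k, hz.1.1.2.le⟩, Ioc_subset_Icc_self hz.1.2⟩) z.2 (Ioc_subset_Icc_self hz.1.2)
  simp only [intervalIntegral.integral_of_le zero_le_one]
  rw [IntegrableOn, Measure.volume_eq_prod, ← Measure.prod_restrict] at iG
  rw [integral_integral_swap (f := fun t r => G (t, r)) iG]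
  refine setIntegral_eq_zero_of_forall_eq_zero fun r hr => ?_
  have hr' := Ioc_subset_Icc_self hr
  have ln : ContinuousOn (fun t : ℝ => (t, r)) (Icc t1 T) := by fun_prop
  have mp : MapsTo (fun t : ℝ => (t, r)) (Icc t1 T) (Ioc 0 T ×ˢ Icc 0 1) :=
    fun t ht => ⟨sub ht, hr'⟩
  rw [setIntegral_eq_of_subset_of_forall_sdiff_eq_zero measurableSet_Ioo
    (Ioo_subset_Ioo_left h1.le) fun t ht => zG t (Ioo_subset_Ioc_self ht.1)
      (le_of_not_gt fun k => ht.2 ⟨k, ht.1.2⟩) r hr', ← integral_Ioc_eq_integral_Ioo,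
    ← intervalIntegral.integral_of_le h2.le,
    intervalIntegral.integral_eq_sub_of_hasDerivAt_of_le (f := fun t => φ (t, X t r))
      (f' := fun t => G (t, r)) h2.le
      (hφ.continuous.comp_continuousOn (cp.comp ln mp)) (fun t ht => ?_)
      ((cG.comp ln mp).intervalIntegrable_of_Icc h2.le),
    image_eq_zero_of_notMem_tsupport (hz T ⟨h1.trans h2, le_rfl⟩ (Or.inr rfl) r hr'),
    image_eq_zero_of_notMem_tsupport (hz t1 ⟨h1, h2.le⟩ (Or.inl le_rfl) r hr'), sub_zero]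
  have d := (hφ.differentiable one_ne_zero (t, X t r)).hasFDerivAt.comp_hasDerivAt t
    ((hasDerivAt_id t).prodMk (hB.dX r hr' t ⟨h1.trans ht.1, ht.2⟩))
  have e : ((1 : ℝ), -v t r) = ((1 : ℝ), (0 : ℝ)) - v t r • ((0 : ℝ), (1 : ℝ)) := by simp
  rw [e, map_sub, map_smul, smul_eq_mul, mul_comm] at d
  exact d

end Weak

open Weak in
theorem weak : WeakStmt := by
  intro T m X s v q w hT hm hB hD far φ hφ hc hs
  obtain ⟨A, hA⟩ := (hc.isCompact.image continuous_snd).bddAbove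
  obtain ⟨t0, h0, hf⟩ := far (A + 1)
  have h1 : 0 < min t0 (T / 2) := lt_min h0 (half_pos hT)
  have h2 : min t0 (T / 2) < T := (min_le_right _ _).trans_lt (half_lt_self hT)
  have hz : ∀ t ∈ Ioc 0 T, t ≤ min t0 (T / 2) ∨ t = T → ∀ r ∈ Icc (0 : ℝ) 1,
      (t, X t r) ∉ tsupport φ := by
    rintro t ht (k | rfl) r hr hm
    · have a := hA (mem_image_of_mem _ hm)
      have b := hf t ht (k.trans (min_le_left _ _))
      have c := left_le hB ht hr
      dsimp only at a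
      linarith
    · exact lt_irrefl t (hs hm).1
  generalize min t0 (T / 2) = t1 at h1 h2 hz
  obtain ⟨B, hb⟩ := hD.bd t1 ⟨h1, h2.le⟩
  have B0 : 0 ≤ B := (abs_nonneg _).trans (hb T ⟨h2.le, le_rfl⟩ 0).2
  have cd : ∀ e : ℝ × ℝ, Continuous fun z => fderiv ℝ φ z e := fun e =>
    (hφ.continuous_fderiv one_ne_zero).clm_apply continuous_const
  have key : ∀ t ∈ Ioo 0 T, ∀ x, (|q t x| ≤ B ∧ |w t x| ≤ B) ∨ fderiv ℝ φ (t, x) = 0 := by
    intro t ht x
    rcases hD.val t x with ⟨a, b⟩ | ⟨ht', y, hy, rfl, a, -⟩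
    · exact Or.inl (by simp [a, b, B0])
    rcases le_total t t1 with k | k
    · exact Or.inr (fderiv_of_notMem_tsupport ℝ (hz t ht' (Or.inl k) y (Ioo_subset_Icc_self hy)))
    · have := hb t ⟨k, ht.2.le⟩ (X t y)
      exact Or.inl ⟨by rw [abs_of_nonneg (by rw [a]; positivity)]; exact this.1, this.2⟩
  have i1 := integrable_mul hD.mq (cd (1, 0)) (hc.fderiv_apply ℝ (1, 0)) fun t ht x =>
    (key t ht x).imp And.left fun k => by simp [k]
  have i2 := integrable_mul hD.mw (cd (0, 1)) (hc.fderiv_apply ℝ (0, 1)) fun t ht x =>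
    (key t ht x).imp And.right fun k => by simp [k]
  refine ⟨i1.add i2, ?_⟩
  rw [IntegrableOn, Measure.volume_eq_prod, ← Measure.restrict_prod_eq_prod_univ] at i1 i2
  have e := congrArg (m ^ 2 * ·) (traj hB hφ h1 h2 hz)
  simp only [mul_zero, ← integral_const_mul] at e
  rw [Measure.volume_eq_prod, ← Measure.restrict_prod_eq_prod_univ, integral_prod _ (i1.fun_add i2)]
  refine (integral_congr_ae ?_).trans e
  filter_upwards [i1.prod_right_ae, i2.prod_right_ae, ae_restrict_mem measurableSet_Ioo]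
    with t j1 j2 ht
  have ht' := Ioo_subset_Ioc_self ht
  have cp : ∀ e : ℝ × ℝ, ContinuousOn (fun r => fderiv ℝ φ (t, X t r) e) (Icc 0 1) := fun e =>
    (cd e).comp_continuousOn (continuousOn_const.prodMk (slice hB.cX ht'))
  have e1 := hD.chq t ht' fun x => fderiv ℝ φ (t, x) (1, 0)
  have e2 := hD.chw t ht' fun x => fderiv ℝ φ (t, x) (0, 1)
  rw [integral_add j1 j2, intervalIntegral.integral_sub
    ((cp _).intervalIntegrable_of_Icc zero_le_one)
    (((cp _).fun_mul (slice hB.cv ht')).intervalIntegrable_of_Icc zero_le_one)]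
  simp only [mul_comm (q t _), mul_comm (w t _), e1, e2]
  ring

end MI34

end MrgPart7

-- marker of a merged file
example : 731051 + 524252 = 731051 + 524252 := rfl
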