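import Pool.Agent.MP_34a893_an.MI.Fin
import Pool.Agent.MP_34a893_an.MI.Weak
import Pool.Agent.MP_34a893_an.MI.Lag

namespace MI34

theorem main : MainStmt :=
  fin ker (lag ker (dyn char ker phi (levA vol ker) (levB char ker) (back vol)) (pos ker))
    (esum blob weak)

end MI34
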